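import Pool.Agent.Helper93.JE.Part

/-! T2: integer parts along good progressions are integer polynomials (MP_ce5406_an). -/

open Finset Polynomial fwdDiff
open scoped BigOperators Nat

namespace Pool.Agent.JE

/-- `n`-th difference at zero. -/
def dz {R : Type*} [AddCommGroup R] (n : ℕ) (a : ℕ → R) : R :=
  ∑ k ∈ range (n + 1), ((-1 : ℤ) ^ (n - k) * (n.choose k : ℤ)) • a k

theorem dz_poly {R : Type*} [CommRing R] (P : R[X]) (d : ℕ) (hP : P.natDegree ≤ d) :
    dz d (fun k => P.eval (k : R)) = P.coeff d * (d ! : R) := by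
  have h0 : dz d (fun k => P.eval (k : R)) = (fwdDiff 1)^[d] P.eval 0 := by
    rw [fwdDiff_iter_eq_sum_shift]
    unfold dz
    refine sum_congr rfl fun k _ => ?_
    simp
  rw [h0]
  rcases hP.lt_or_eq with h | h
  · rw [Polynomial.fwdDiff_iter_eq_zero_of_degree_lt h, coeff_eq_zero_of_natDegree_lt h]
    simp
  · subst h
    rw [Polynomial.fwdDiff_iter_degree_eq_factorial]
    simp

theorem dz_poly_zero {R : Type*} [CommRing R] (P : R[X]) (n : ℕ) (hP : P.natDegree < n) :
    dz n (fun k => P.eval (k : R)) = 0 := by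
  rw [dz_poly P n hP.le, coeff_eq_zero_of_natDegree_lt hP, zero_mul]

theorem dz_err (n : ℕ) (G : ℕ → ℤ) (p : ℕ → ℝ) (ε : ℝ)
    (h : ∀ k ≤ n, |(G k : ℝ) - p k| ≤ ε) : |((dz n G : ℤ) : ℝ) - dz n p| ≤ 2 ^ n * ε := by
  have h1 : ((dz n G : ℤ) : ℝ) - dz n p = ∑ k ∈ range (n + 1),
      (((-1 : ℤ) ^ (n - k) * (n.choose k : ℤ) : ℤ) : ℝ) * ((G k : ℝ) - p k) := by
    unfold dz
    push_cast
    rw [← sum_sub_distrib]
    refine sum_congr rfl fun k _ => ?_
    simp only [zsmul_eq_mul, smul_eq_mul]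
    push_cast
    ring
  rw [h1, ← part_sum_abs, sum_mul]
  refine (abs_sum_le_sum_abs _ _).trans (sum_le_sum fun k hk => ?_)
  rw [abs_mul]
  exact mul_le_mul_of_nonneg_left (h k (by have := mem_range.1 hk; omega)) (abs_nonneg _)

theorem dz_congr {R : Type*} [AddCommGroup R] (n : ℕ) (a b : ℕ → R) (h : ∀ k ≤ n, a k = b k) :
    dz n a = dz n b := by
  unfold dz
  refine sum_congr rfl fun k hk => ?_
  rw [h k (by have := mem_range.1 hk; omega)]

theorem iter_eq_dz (n : ℕ) (F : ℕ → ℤ) (s : ℕ) : (fwdDiff 1)^[n] F s = dz n (fun k => F (s + k)) := by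
  rw [fwdDiff_iter_eq_sum_shift]
  unfold dz
  refine sum_congr rfl fun k _ => ?_
  simp

/-- An integer sequence with vanishing differences of order `d + 1` is given by
the Newton formula. -/
theorem newton (d N : ℕ) (F : ℕ → ℤ) (h : ∀ s, s + (d + 1) ≤ N → (fwdDiff 1)^[d + 1] F s = 0)
    (s : ℕ) (hs : s ≤ N) : F s = ∑ j ∈ range (d + 1), (s.choose j : ℤ) * (fwdDiff 1)^[j] F 0 := by
  have h1 := shift_eq_sum_fwdDiff_iter (1 : ℕ) F s 0
  simp only [zero_add, smul_eq_mul, mul_one] at h1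
  rw [h1]
  have hz : ∀ k, d < k → k ≤ s → (fwdDiff 1)^[k] F 0 = 0 := by
    intro k hk hks
    obtain ⟨m, rfl⟩ := Nat.exists_eq_add_of_lt hk
    rw [show d + m + 1 = m + (d + 1) by ring, Function.iterate_add_apply,
      fwdDiff_iter_eq_sum_shift]
    refine sum_eq_zero fun i hi => ?_
    have := mem_range.1 hi
    rw [h _ (by simp only [zero_add, smul_eq_mul, mul_one]; omega), smul_zero]
  have e1 : ∑ k ∈ range (s + 1), s.choose k • (fwdDiff 1)^[k] F 0 =
      ∑ k ∈ range (max (s + 1) (d + 1)), (s.choose k : ℤ) * (fwdDiff 1)^[k] F 0 := by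
    simp only [nsmul_eq_mul]
    refine sum_subset (range_subset_range.2 (le_max_left _ _)) fun k _ hk => ?_
    rw [mem_range, not_lt] at hk
    rw [Nat.choose_eq_zero_of_lt (by omega)]
    simp
  rw [e1]
  symm
  refine sum_subset (range_subset_range.2 (le_max_right _ _)) fun k hk1 hk => ?_
  rw [mem_range, not_lt] at hk
  rw [mem_range] at hk1
  rcases le_or_gt k s with h2 | h2
  · rw [hz k (by omega) h2, mul_zero]
  · rw [Nat.choose_eq_zero_of_lt h2]
    simp

/-- `binomial(M s, j)` is an integer polynomial in `s`, if `j! ∣ M`. -/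
theorem choose_poly (M j : ℕ) (h : j ! ∣ M) : ∃ p : ℤ[X], p.natDegree ≤ j ∧
    ∀ s : ℕ, p.eval (s : ℤ) = ((M * s).choose j : ℤ) := by
  cases j with
  | zero => exact ⟨1, by simp, fun s => by simp⟩
  | succ i =>
    obtain ⟨m, hm⟩ := h
    refine ⟨C (m : ℤ) * X * (descPochhammer ℤ i).comp (C (M : ℤ) * X - 1), ?_, fun s => ?_⟩
    · have h1 : (C (m : ℤ) * X : ℤ[X]).natDegree ≤ 1 := (natDegree_C_mul_le _ _).trans natDegree_X_le
      have h2 : (C (M : ℤ) * X - 1 : ℤ[X]).natDegree ≤ 1 :=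
        (natDegree_sub_le _ _).trans
          (max_le ((natDegree_C_mul_le _ _).trans natDegree_X_le) (by simp))
      have h3 : ((descPochhammer ℤ i).comp (C (M : ℤ) * X - 1)).natDegree ≤ i := by
        refine natDegree_comp_le.trans ?_
        rw [descPochhammer_natDegree]
        calc i * _ ≤ i * 1 := Nat.mul_le_mul_left _ h2
          _ = i := mul_one _
      refine natDegree_mul_le.trans ?_
      omega
    · have h1 : (((M * s).descFactorial (i + 1) : ℕ) : ℤ) =
          ((i + 1)! : ℕ) * ((M * s).choose (i + 1) : ℕ) := by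
        rw [Nat.descFactorial_eq_factorial_mul_choose]
        push_cast
        ring
      have h2 : (((M * s).descFactorial (i + 1) : ℕ) : ℤ) =
          ((M * s : ℕ) : ℤ) * (descPochhammer ℤ i).eval (((M * s : ℕ) : ℤ) - 1) := by
        rw [← descPochhammer_eval_eq_descFactorial, descPochhammer_succ_left]
        simp
      have h3 : ((i + 1)! : ℤ) ≠ 0 := by exact_mod_cast Nat.factorial_ne_zero _
      refine mul_left_cancel₀ h3 ?_
      rw [← h1, h2]
      simp only [eval_mul, eval_C, eval_X, eval_comp, eval_sub, eval_one]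
      have h4 : (M : ℤ) = ((i + 1)! : ℤ) * m := by exact_mod_cast hm
      push_cast
      rw [show (((i + 1)! : ℕ) : ℤ) * (m * s * (descPochhammer ℤ i).eval ((M : ℤ) * s - 1)) =
        ((((i + 1)! : ℕ) : ℤ) * m) * s * (descPochhammer ℤ i).eval ((M : ℤ) * s - 1) by ring, ← h4]

/-- T2: integer parts along good progressions are integer polynomials. -/
theorem extract (d l M : ℕ) (hl : d < l) (hM : 1 ≤ M) (hdM : d.factorial ∣ M) (ε : ℝ)
    (hε : 0 < ε) (hε' : ε * 2 ^ (d + 6) ≤ 1) (y : ℕ → ℝ) (hy : ∀ s, 0 ≤ y s)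
    (P : ℝ[X]) (hP : P.natDegree ≤ d)
    (h1 : ∀ s ≤ M * (l - 1), |y s - P.eval (s : ℝ)| ≤ ε)
    (h2 : ∀ s ≤ M * (l - 1), ∃ z : ℤ, |P.eval (s : ℝ) - P.eval 0 - z| ≤ ε)
    (h3 : 4 * ε ≤ Int.fract (y 0)) (h4 : Int.fract (y 0) ≤ 1 - 4 * ε) :
    ∃ ω : ℕ → ℤ, (∀ s < l, ((⌊y (M * s)⌋₊ : ℕ) : ℤ) = ∑ j ∈ range (d + 1), ω j * (s : ℤ) ^ j) ∧
      (1 ≤ d → ω d = round ((M : ℝ) ^ d * P.coeff d)) := by
  have hd2 : ε * 2 ^ d ≤ 1 / 64 := by
    rw [pow_add] at hε'
    norm_num at hε'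
    linarith
  set F : ℕ → ℤ := fun s => ⌊y s⌋ with hF
  have hFn : ∀ s, ((⌊y s⌋₊ : ℕ) : ℤ) = F s := fun s => Int.natCast_floor_eq_floor (hy s)
  set P₁ : ℝ[X] := P + C ((F 0 : ℝ) - P.eval 0) with hP₁
  have hP₁d : P₁.natDegree ≤ d := (natDegree_add_le _ _).trans (max_le hP (by simp))
  have hA : ∀ s ≤ M * (l - 1), |(F s : ℝ) - P₁.eval (s : ℝ)| ≤ ε := by
    intro s hs
    obtain ⟨z, hz⟩ := h2 s hs
    have h5 := h1 s hs
    have h6 := h1 0 (by omega)
    simp only [Nat.cast_zero] at h6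
    have h7 : F s = F 0 + z := by
      simp only [hF]
      rw [Int.floor_eq_iff]
      have h8 := Int.floor_add_fract (y 0)
      rw [abs_le] at hz h5 h6
      push_cast
      constructor <;> linarith [hz.1, hz.2, h5.1, h5.2, h6.1, h6.2]
    have h9 : (F s : ℝ) - P₁.eval (s : ℝ) = -(P.eval (s : ℝ) - P.eval 0 - z) := by
      rw [h7, hP₁]
      simp only [eval_add, eval_C]
      push_cast
      ring
    rw [h9, abs_neg]
    exact hz
  -- vanishing differences
  have hB : ∀ s, s + (d + 1) ≤ M * (l - 1) → (fwdDiff 1)^[d + 1] F s = 0 := by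
    intro s hs
    rw [iter_eq_dz]
    have h5 := dz_err (d + 1) (fun k => F (s + k))
      (fun k => (P₁.comp (X + C (s : ℝ))).eval (k : ℝ)) ε (fun k hk => by
        have := hA (s + k) (by omega)
        rw [eval_comp]
        simp only [eval_add, eval_X, eval_C]
        rw [show (k : ℝ) + s = ((s + k : ℕ) : ℝ) by push_cast; ring]
        exact this)
    have h6 : (P₁.comp (X + C (s : ℝ))).natDegree < d + 1 := by
      refine Nat.lt_succ_of_le (natDegree_comp_le.trans ?_)
      rw [natDegree_X_add_C, mul_one]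
      exact hP₁d
    rw [dz_poly_zero _ _ h6, sub_zero] at h5
    have h7 : |((dz (d + 1) (fun k => F (s + k)) : ℤ) : ℝ)| < 1 := by
      refine h5.trans_lt ?_
      rw [pow_succ]
      linarith
    have h8 : |dz (d + 1) (fun k => F (s + k))| < 1 := by exact_mod_cast h7
    exact Int.abs_lt_one_iff.1 h8
  -- the polynomial
  have hpj : ∀ j : ℕ, ∃ p : ℤ[X], j ≤ d → (p.natDegree ≤ j ∧
      ∀ s : ℕ, p.eval (s : ℤ) = ((M * s).choose j : ℤ)) := by
    intro j
    by_cases hj : j ≤ d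
    · obtain ⟨p, hp⟩ := choose_poly M j ((Nat.factorial_dvd_factorial hj).trans hdM)
      exact ⟨p, fun _ => hp⟩
    · exact ⟨0, fun h => absurd h hj⟩
  choose p hp using hpj
  set q : ℤ[X] := ∑ j ∈ range (d + 1), p j * C ((fwdDiff 1)^[j] F 0) with hq
  have hqd : q.natDegree ≤ d := by
    refine natDegree_sum_le_of_forall_le _ _ fun j hj => ?_
    have := mem_range.1 hj
    have h5 := (hp j (by omega)).1
    refine (natDegree_mul_C_le _ _).trans ?_
    omega
  have hqe : ∀ s < l, F (M * s) = q.eval (s : ℤ) := by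
    intro s hs
    have h5 : M * s ≤ M * (l - 1) := Nat.mul_le_mul_left _ (by omega)
    rw [newton d (M * (l - 1)) F hB (M * s) h5, hq, eval_finsetSum]
    refine sum_congr rfl fun j hj => ?_
    have := mem_range.1 hj
    rw [eval_mul, eval_C, (hp j (by omega)).2]
  refine ⟨fun j => q.coeff j, fun s hs => ?_, fun hd1 => ?_⟩
  · rw [hFn, hqe s hs, eval_eq_sum_range' (Nat.lt_succ_of_le hqd)]
  · have h5 := dz_err d (fun k => F (M * k))
      (fun k => (P₁.comp (C (M : ℝ) * X)).eval (k : ℝ)) ε (fun k hk => by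
        have := hA (M * k) (Nat.mul_le_mul_left _ (by omega))
        rw [eval_comp]
        simp only [eval_mul, eval_X, eval_C]
        rw [show (M : ℝ) * k = ((M * k : ℕ) : ℝ) by push_cast; ring]
        exact this)
    have h6 : (P₁.comp (C (M : ℝ) * X)).natDegree ≤ d := by
      refine natDegree_comp_le.trans ?_
      have : (C (M : ℝ) * X : ℝ[X]).natDegree ≤ 1 := (natDegree_C_mul_le _ _).trans natDegree_X_le
      calc _ ≤ d * 1 := Nat.mul_le_mul hP₁d this
        _ = d := mul_one _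
    rw [dz_poly _ _ h6, dz_congr d _ (fun k => q.eval (k : ℤ)) (fun k hk => hqe k (by omega)),
      dz_poly _ _ hqd] at h5
    have h7 : (P₁.comp (C (M : ℝ) * X)).coeff d = (M : ℝ) ^ d * P.coeff d := by
      rw [comp_C_mul_X_coeff, hP₁, coeff_add, coeff_C, if_neg (by omega), add_zero]
      ring
    rw [h7] at h5
    have h8 : |((q.coeff d : ℤ) : ℝ) - (M : ℝ) ^ d * P.coeff d| ≤ 1 / 64 := by
      have h9 : (1 : ℝ) ≤ (d ! : ℝ) := by exact_mod_cast Nat.factorial_pos d
      have h10 : (((q.coeff d * (d ! : ℤ) : ℤ)) : ℝ) - (M : ℝ) ^ d * P.coeff d * (d ! : ℝ) =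
          (((q.coeff d : ℤ) : ℝ) - (M : ℝ) ^ d * P.coeff d) * (d ! : ℝ) := by
        push_cast
        ring
      rw [h10, abs_mul, abs_of_nonneg (by linarith : (0 : ℝ) ≤ (d ! : ℝ))] at h5
      have h11 := abs_nonneg (((q.coeff d : ℤ) : ℝ) - (M : ℝ) ^ d * P.coeff d)
      nlinarith
    symm
    rw [round_eq, Int.floor_eq_iff]
    rw [abs_le] at h8
    constructor <;> linarith [h8.1, h8.2]

end Pool.Agent.JE
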