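import Pool.Agent.Helper65.JE.LS

/-! R3: generic differences have nonzero sub-sums (MP_ce5406_an). -/

open Finset
open scoped BigOperators

namespace Pool.Agent.JE

theorem ravg_av_comm (H t K : ℕ) (G : ℕ → List ℕ → ℝ) :
    ravg H (fun h => av t K (G h)) = av t K (fun l => ravg H (fun h => G h l)) := by
  induction t generalizing G with
  | zero => rfl
  | succ t ih =>
    simp only [av_succ]
    rw [ravg_comm]
    congr 1
    ext h'
    rw [ih]

theorem length_ns (L : List ℤ) : (ns L).length + 1 = 2 ^ L.length := by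
  induction L with
  | nil => rfl
  | cons a L ih =>
    simp only [ns, List.length_append, List.length_cons, List.length_map, pow_succ]
    omega

theorem NZ_cons (a : ℤ) (L : List ℤ) : NZ (a :: L) ↔ NZ L ∧ ∀ w ∈ 0 :: ns L, w + a ≠ 0 := by
  unfold NZ
  simp only [ns, List.mem_append, List.mem_cons, List.mem_map]
  constructor
  · intro h
    refine ⟨fun w hw => h w (Or.inl hw), ?_⟩
    rintro w (rfl | hw)
    · rw [zero_add]
      exact h a (Or.inr (Or.inl rfl))
    · rw [add_comm]
      exact h _ (Or.inr (Or.inr ⟨w, hw, rfl⟩))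
  · rintro ⟨h1, h2⟩ w (hw | rfl | ⟨v, hv, rfl⟩)
    · exact h1 w hw
    · have := h2 0 (Or.inl rfl)
      rwa [zero_add] at this
    · rw [add_comm]
      exact h2 v (Or.inr hv)

open Classical in
theorem ravg_list_sum (H : ℕ) (L : List ℤ) (x : ℤ) (hx : x ≠ 0) :
    ravg H (fun h => (L.map (fun w => if w + x * (h : ℤ) = 0 then (1 : ℝ) else 0)).sum) ≤
      L.length / H := by
  induction L with
  | nil =>
    simp only [List.map_nil, List.sum_nil, List.length_nil]
    exact (ravg_const_le H le_rfl).trans (by simp)
  | cons a L ih =>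
    simp only [List.map_cons, List.sum_cons, ravg_add, List.length_cons]
    have := ravg_zero_le H a x hx
    have e1 : (((L.length + 1 : ℕ) : ℝ)) / H = 1 / H + L.length / H := by push_cast; ring
    rw [e1]
    refine add_le_add ?_ ih
    convert this using 3

open Classical in
theorem nz_generic (ℓ : List ℤ) (hℓ : ∀ x ∈ ℓ, x ≠ 0) (H : ℕ) (hH : 1 ≤ H) :
    av ℓ.length H (fun m =>
      if NZ (List.zipWith (fun (x : ℤ) (h : ℕ) => x * (h : ℤ)) ℓ m) then (0 : ℝ) else 1) ≤
      2 ^ ℓ.length / H := by
  induction ℓ with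
  | nil =>
    simp only [List.length_nil, List.zipWith_nil_left]
    show (if NZ [] then (0 : ℝ) else 1) ≤ 2 ^ 0 / (H : ℝ)
    rw [if_pos (show NZ [] by intro w hw; simp [ns] at hw)]
    positivity
  | cons x ℓ ih =>
    have hx : x ≠ 0 := hℓ x List.mem_cons_self
    have ih' := ih fun y hy => hℓ y (List.mem_cons_of_mem _ hy)
    rw [List.length_cons, av_succ, ravg_av_comm]
    have hstep : ∀ m : List ℕ, m.length = ℓ.length → ravg H (fun h =>
        if NZ (List.zipWith (fun (x : ℤ) (h : ℕ) => x * (h : ℤ)) (x :: ℓ) (h :: m))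
          then (0 : ℝ) else 1) ≤
        (if NZ (List.zipWith (fun (x : ℤ) (h : ℕ) => x * (h : ℤ)) ℓ m) then (0 : ℝ) else 1) +
          2 ^ ℓ.length / H := by
      intro m hm
      set L := List.zipWith (fun (x : ℤ) (h : ℕ) => x * (h : ℤ)) ℓ m with hL
      have h1 : ∀ h : ℕ, (if NZ (List.zipWith (fun (x : ℤ) (h : ℕ) => x * (h : ℤ))
            (x :: ℓ) (h :: m)) then (0 : ℝ) else 1) ≤
          (if NZ L then (0 : ℝ) else 1) +
          ((0 :: ns L).map (fun w => if w + x * (h : ℤ) = 0 then (1 : ℝ) else 0)).sum := by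
        intro h
        rw [List.zipWith_cons_cons, ← hL]
        have h0 : 0 ≤ ((0 :: ns L).map
            (fun w => if w + x * (h : ℤ) = 0 then (1 : ℝ) else 0)).sum := by
          refine List.sum_nonneg fun y hy => ?_
          obtain ⟨w, _, rfl⟩ := List.mem_map.1 hy
          split_ifs <;> norm_num
        by_cases hnz : NZ (x * (h : ℤ) :: L)
        · rw [if_pos hnz]
          have : (0 : ℝ) ≤ if NZ L then (0 : ℝ) else 1 := by split_ifs <;> norm_num
          linarith
        · rw [if_neg hnz]
          rw [NZ_cons, not_and_or] at hnz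
          rcases hnz with h2 | h2
          · rw [if_neg h2]
            linarith
          · push Not at h2
            obtain ⟨w, hw, hw0⟩ := h2
            have h3 := List.single_le_sum (l := (0 :: ns L).map
              (fun w => if w + x * (h : ℤ) = 0 then (1 : ℝ) else 0)) (fun y hy => by
                obtain ⟨w, _, rfl⟩ := List.mem_map.1 hy
                split_ifs <;> norm_num) (if w + x * (h : ℤ) = 0 then (1 : ℝ) else 0)
              (List.mem_map.2 ⟨w, hw, rfl⟩)
            rw [if_pos hw0] at h3
            have : (0 : ℝ) ≤ if NZ L then (0 : ℝ) else 1 := by split_ifs <;> norm_num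
            linarith
      refine (ravg_mono H fun h _ => h1 h).trans ?_
      rw [ravg_add, ravg_const H hH]
      refine add_le_add_right ?_ _
      refine (ravg_list_sum H (0 :: ns L) x hx).trans ?_
      have h4 : (0 :: ns L).length = 2 ^ ℓ.length := by
        rw [List.length_cons, length_ns, hL, List.length_zipWith, hm, min_self]
      rw [h4]
      push_cast
      exact le_rfl
    refine (av_mono _ _ _ _ hstep).trans ?_
    rw [av_add, av_const _ _ hH]
    have e1 : (2 : ℝ) ^ (ℓ.length + 1) / H = 2 ^ ℓ.length / H + 2 ^ ℓ.length / H := by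
      rw [pow_succ]; ring
    rw [e1]
    exact add_le_add ih' le_rfl

end Pool.Agent.JE
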