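import Pool.Agent.Helper65.JE.Pet

/-! PET for squares of integer polynomials (first part of T13, MP_ce5406_an). -/

open MeasureTheory Filter Topology Finset Polynomial
open scoped BigOperators ComplexConjugate

namespace Pool.Agent.JE

section sqpoly

/-- generic polynomial of degree `⌊b⌋₊` -/
noncomputable def gp (b : ℝ) : Polynomial ((ℝ → ℕ → ℤ) → ℤ) :=
  ∑ j ∈ range (⌊b⌋₊ + 1), C (fun ω : ℝ → ℕ → ℤ => ω b j) * X ^ j

theorem natDegree_gp (b : ℝ) : (gp b).natDegree ≤ ⌊b⌋₊ := by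
  unfold gp
  refine natDegree_sum_le_of_forall_le _ _ fun j hj => ?_
  refine (natDegree_C_mul_X_pow_le _ _).trans ?_
  have := mem_range.1 hj
  omega

theorem coeff_gp (b : ℝ) : (gp b).coeff ⌊b⌋₊ = fun ω => ω b ⌊b⌋₊ := by
  unfold gp
  rw [finsetSum_coeff]
  simp only [coeff_C_mul, coeff_X_pow, mul_ite, mul_one, mul_zero]
  rw [sum_ite_eq]
  simp

theorem natDegree_gp_sq (b : ℝ) (d : ℕ) (hd : ⌊b⌋₊ ≤ d) : (gp b ^ 2).natDegree ≤ d + d := by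
  rw [pow_two]
  refine natDegree_mul_le.trans ?_
  have := natDegree_gp b
  omega

theorem coeff_gp_sq (b : ℝ) (d : ℕ) (hd : ⌊b⌋₊ ≤ d) :
    (gp b ^ 2).coeff (d + d) =
      if ⌊b⌋₊ = d then (fun ω : ℝ → ℕ → ℤ => (ω b d) ^ 2 : (ℝ → ℕ → ℤ) → ℤ) else 0 := by
  rw [pow_two]
  split_ifs with h
  · subst h
    rw [coeff_mul_add_eq_of_natDegree_le (natDegree_gp b) (natDegree_gp b), coeff_gp]
    ext ω
    simp [pow_two]
  · refine coeff_eq_zero_of_natDegree_lt ?_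
    refine natDegree_mul_le.trans_lt ?_
    have := natDegree_gp b
    omega

theorem evp_gp_sq (b : ℝ) (ω : ℝ → ℕ → ℤ) (s : ℤ) :
    evp (gp b ^ 2) ω s = (∑ j ∈ range (⌊b⌋₊ + 1), ω b j * s ^ j) ^ 2 := by
  unfold evp gp
  simp [Polynomial.map_pow, Polynomial.map_sum, eval_finsetSum]

/-- PET for the exponents `(∑ ω_{b,j} s^j)²`. -/
theorem sc_pet (B : Finset ℝ) (c : ℝ) (hc : PosNonInt c) (hc1 : 1 < c)
    (hB : ∀ b ∈ B, PosNonInt b ∧ b < c) :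
    ∃ (t k : ℕ) (C : ℝ) (ds : List ((List ℕ → ℤ) × ((ℝ → ℤ) → List ℕ → ℤ))),
      ds ≠ [] ∧ 0 ≤ C ∧ (∀ d ∈ ds,
        ∀ H : ℕ, 1 ≤ H → av t H (fun l => if d.1 l = 0 then (1 : ℝ) else 0) ≤ C / H) ∧
      ∀ (X : Type) [MeasurableSpace X] (μ : Measure X) [IsProbabilityMeasure μ] (A : Act X μ)
        (ω : ℝ → ℕ → ℤ) (z : ℕ → ℂ), (∀ s, ‖z s‖ ≤ 1) → ∀ (f : ℝ → X → ℂ), (∀ b, Bdd (f b)) →
        ∀ (H₁ H₂ N : ℕ), 1 ≤ H₁ → 1 ≤ H₂ → 1 ≤ N →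
        n2 μ (fun x => avg N (fun s =>
          z s * f c (A.S ((∑ j ∈ range (⌊c⌋₊ + 1), ω c j * (s : ℤ) ^ j) ^ 2) x) *
            ∏ b ∈ B, f b (A.S ((∑ j ∈ range (⌊b⌋₊ + 1), ω b j * (s : ℤ) ^ j) ^ 2) x)))
          ^ (2 ^ k) ≤
        C * av t H₁ (fun l => av ds.length H₂ (fun m => Cor A (List.zipWith
          (fun (d : (List ℕ → ℤ) × ((ℝ → ℤ) → List ℕ → ℤ)) (h : ℕ) =>
            (d.1 l * (ω c ⌊c⌋₊) ^ 2 +
              d.2 (fun b => if b ∈ B ∧ ⌊b⌋₊ = ⌊c⌋₊ then ω b ⌊c⌋₊ else 0) l) * (h : ℤ)) ds m)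
          (f c))) +
        C * (((H₁ + H₂ : ℕ) : ℝ) / N) := by
  classical
  set d := ⌊c⌋₊ with hd
  have hd1 : 1 ≤ d := by
    rw [hd]
    exact Nat.le_floor (by simpa using hc1.le)
  set β : (ℝ → ℕ → ℤ) → ℤ := fun ω => (ω c d) ^ 2 with hβ
  set σ : (ℝ → ℕ → ℤ) → (ℝ → ℤ) :=
    fun ω b => if b ∈ B ∧ ⌊b⌋₊ = d then ω b d else 0 with hσ
  have hfl : ∀ b ∈ B, ⌊b⌋₊ ≤ d := fun b hb => Nat.floor_le_floor (hB b hb).2.le
  -- q
  have hqc : (gp c ^ 2).coeff (d + d) = fun ω => (ω c d) ^ 2 := by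
    rw [coeff_gp_sq c d le_rfl, if_pos rfl]
  have hq0 : (gp c ^ 2).coeff (d + d) ≠ 0 := by
    rw [hqc]
    intro h
    have := congrFun h (fun _ _ => 1)
    simp at this
  obtain ⟨hq1, hq2⟩ := natDegree_lc_of _ _ (natDegree_gp_sq c d le_rfl) hq0
  have hpi : ∀ b ∈ B, (gp c ^ 2 - gp b ^ 2).natDegree = d + d ∧
      GG β σ 0 (gp c ^ 2 - gp b ^ 2).leadingCoeff := by
    intro b hb
    have hle : (gp c ^ 2 - gp b ^ 2).natDegree ≤ d + d :=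
      (natDegree_sub_le _ _).trans
        (max_le (natDegree_gp_sq c d le_rfl) (natDegree_gp_sq b d (hfl b hb)))
    have hne : b ≠ c := (hB b hb).2.ne
    by_cases h : ⌊b⌋₊ = d
    · have hco : (gp c ^ 2 - gp b ^ 2).coeff (d + d) =
          fun ω => (ω c d) ^ 2 - (ω b d) ^ 2 := by
        rw [coeff_sub, hqc, coeff_gp_sq b d (hfl b hb), if_pos h]
        rfl
      have h0 : (gp c ^ 2 - gp b ^ 2).coeff (d + d) ≠ 0 := by
        rw [hco]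
        intro h'
        have := congrFun h' (fun x _ => if x = c then 1 else 0)
        simp [hne] at this
      obtain ⟨h1, h2⟩ := natDegree_lc_of _ _ hle h0
      refine ⟨h1, ?_⟩
      rw [h2, hco]
      refine ⟨1, fun s => -(s b) ^ 2, one_ne_zero, by simp, fun ω => ?_⟩
      have : σ ω b = ω b d := by
        simp only [hσ]
        rw [if_pos ⟨hb, h⟩]
      simp only [this, hβ]
      ring
    · have hco : (gp c ^ 2 - gp b ^ 2).coeff (d + d) = fun ω => (ω c d) ^ 2 := by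
        rw [coeff_sub, hqc, coeff_gp_sq b d (hfl b hb), if_neg h]
        ext ω
        simp
      have h0 : (gp c ^ 2 - gp b ^ 2).coeff (d + d) ≠ 0 := by
        rw [hco, ← hqc]; exact hq0
      obtain ⟨h1, h2⟩ := natDegree_lc_of _ _ hle h0
      refine ⟨h1, ?_⟩
      rw [h2, hco]
      exact ⟨1, fun _ => 0, one_ne_zero, rfl, fun ω => by simp [hβ]⟩
  obtain ⟨t, k, C, ds, hne, hC, hds, hbd⟩ := pet (ℝ → ℕ → ℤ) (ℝ → ℤ) β σ 0 ℝ B
    (fun b => gp b ^ 2) (gp c ^ 2) (by omega)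
    (by rw [hq2, hqc]; exact ⟨1, fun _ => 0, one_ne_zero, rfl, fun ω => by simp [hβ]⟩)
    (fun b hb => ⟨by rw [(hpi b hb).1]; omega, (hpi b hb).2⟩)
    (fun b hb => by rw [hq1]; exact natDegree_gp_sq b d (hfl b hb))
  refine ⟨t, k, C, ds, hne, hC, fun d' hd' => (hds d' hd').2, ?_⟩
  intro X _ μ _ A ω z hz f hf H₁ H₂ N hH₁ hH₂ hN
  have := hbd X μ A ω z hz f hf (f c) (hf c) H₁ H₂ N hH₁ hH₂ hN
  unfold JJ at this
  simp only [evp_gp_sq] at this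
  exact this

end sqpoly

end Pool.Agent.JE
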