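import Pool.Agent.Helper65.JE.LS
import Pool.Agent.Helper65.JE.SCpet
import Pool.Agent.Helper65.JE.Extract
import Pool.Agent.Helper65.JE.NZgen
import Pool.Agent.Helper40.JE.SlowCor
import Pool.Agent.Helper64.JE.RoundSlow
import Pool.Agent.Helper93.JE.Part
import Pool.Agent.Helper87.JE.Taylor
import Pool.Agent.Helper87.JE.ExpSum

/-! T13: seminorm control (MP_ce5406_an). -/

open MeasureTheory Filter Topology Finset Polynomial
open scoped BigOperators ComplexConjugate

namespace Pool.Agent.JE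

section piece

/-- Taylor polynomial of `(n+u)^b`. -/
noncomputable def TP (n : ℕ) (b : ℝ) : ℝ[X] :=
  ∑ j ∈ range (⌊b⌋₊ + 1),
    C ((∏ i ∈ range j, (b - i)) / (j.factorial : ℝ) * (n : ℝ) ^ (b - j)) * X ^ j

theorem TP_eval (n : ℕ) (b x : ℝ) : (TP n b).eval x = ∑ j ∈ range (⌊b⌋₊ + 1),
    (∏ i ∈ range j, (b - i)) / (j.factorial : ℝ) * (n : ℝ) ^ (b - j) * x ^ j := by
  unfold TP
  simp [eval_finsetSum]

theorem natDegree_TP (n : ℕ) (b : ℝ) : (TP n b).natDegree ≤ ⌊b⌋₊ := by
  unfold TP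
  refine natDegree_sum_le_of_forall_le _ _ fun j hj => ?_
  refine (natDegree_C_mul_X_pow_le _ _).trans ?_
  have := mem_range.1 hj
  omega

theorem coeff_TP_comp (n : ℕ) (b r q : ℝ) :
    ((TP n b).comp (C r + C q * X)).coeff ⌊b⌋₊ = lead b * (n : ℝ) ^ (b - ⌊b⌋₊) * q ^ ⌊b⌋₊ := by
  have hp : (C r + C q * X : ℝ[X]).natDegree ≤ 1 := by
    refine (natDegree_add_le _ _).trans (max_le (by simp) ((natDegree_C_mul_le _ _).trans natDegree_X_le))
  have hc1 : (C r + C q * X : ℝ[X]).coeff 1 = q := by simp [coeff_C]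
  unfold TP
  rw [Polynomial.sum_comp, finsetSum_coeff, sum_range_succ]
  rw [sum_eq_zero, zero_add]
  · simp only [mul_comp, C_comp, pow_comp, X_comp, coeff_C_mul]
    have := coeff_pow_of_natDegree_le (m := ⌊b⌋₊) hp
    rw [mul_one, hc1] at this
    rw [this]
    unfold lead
    rfl
  · intro j hj
    simp only [mul_comp, C_comp, pow_comp, X_comp, coeff_C_mul]
    rw [coeff_eq_zero_of_natDegree_lt, mul_zero]
    refine (natDegree_pow_le_of_le j hp).trans_lt ?_
    rw [mul_one]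
    exact mem_range.1 hj

theorem piece_one (b : ℝ) (D l M : ℕ) (hbD : ⌊b⌋₊ ≤ D) (hl : D < l) (hM : M = D.factorial)
    (ε : ℝ) (hε : 0 < ε) (hε' : ε * 2 ^ (D + 6) ≤ 1) (W n r q : ℕ)
    (hrq : r + q * (M * (l - 1)) < W)
    (hT : ∀ u ≤ W, |((n + u : ℕ) : ℝ) ^ b - (TP n b).eval (u : ℝ)| ≤ ε)
    (hnc : ∀ s ≤ M * (l - 1), ∃ z : ℤ,
      |(TP n b).eval ((r + q * s : ℕ) : ℝ) - (TP n b).eval (r : ℝ) - z| ≤ ε)
    (hf1 : 4 * ε ≤ Int.fract (((n + r : ℕ) : ℝ) ^ b))
    (hf2 : Int.fract (((n + r : ℕ) : ℝ) ^ b) ≤ 1 - 4 * ε) :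
    ∃ ω : ℕ → ℤ,
      (∀ s < l, ((⌊((n + (r + q * (M * s)) : ℕ) : ℝ) ^ b⌋₊ : ℕ) : ℤ) =
        ∑ j ∈ range (⌊b⌋₊ + 1), ω j * (s : ℤ) ^ j) ∧
      (⌊b⌋₊ = D → 1 ≤ D →
        ω D = round ((((M * q) ^ D : ℕ) : ℝ) * lead b * (n : ℝ) ^ (b - (⌊b⌋₊ : ℝ)))) := by
  have hP : ((TP n b).comp (C (r : ℝ) + C (q : ℝ) * X)).natDegree ≤ ⌊b⌋₊ := by
    refine (natDegree_comp_le).trans ?_
    have h1 := natDegree_TP n b
    have h2 : (C (r : ℝ) + C (q : ℝ) * X : ℝ[X]).natDegree ≤ 1 :=
      (natDegree_add_le _ _).trans (max_le (by simp) ((natDegree_C_mul_le _ _).trans natDegree_X_le))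
    calc _ ≤ ⌊b⌋₊ * 1 := Nat.mul_le_mul h1 h2
      _ = _ := mul_one _
  have hev : ∀ s : ℕ, ((TP n b).comp (C (r : ℝ) + C (q : ℝ) * X)).eval (s : ℝ) =
      (TP n b).eval ((r + q * s : ℕ) : ℝ) := by
    intro s
    rw [eval_comp]
    simp
  have hev0 : ((TP n b).comp (C (r : ℝ) + C (q : ℝ) * X)).eval 0 = (TP n b).eval (r : ℝ) := by
    rw [eval_comp]
    simp
  have hfac : (⌊b⌋₊).factorial ∣ M := by rw [hM]; exact Nat.factorial_dvd_factorial hbD
  have hM1 : 1 ≤ M := by rw [hM]; exact Nat.factorial_pos _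
  have hε'' : ε * 2 ^ (⌊b⌋₊ + 6) ≤ 1 := by
    refine le_trans ?_ hε'
    gcongr
    norm_num
  obtain ⟨ω, h1, h2⟩ := extract ⌊b⌋₊ l M (by omega) hM1 hfac ε hε hε''
    (fun s => ((n + (r + q * s) : ℕ) : ℝ) ^ b) (fun s => by positivity)
    ((TP n b).comp (C (r : ℝ) + C (q : ℝ) * X)) hP
    (fun s hs => by
      rw [hev]
      refine hT _ ?_
      have : q * s ≤ q * (M * (l - 1)) := Nat.mul_le_mul_left _ hs
      omega)
    (fun s hs => by
      rw [hev, hev0]
      exact hnc s hs)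
    (by simpa using hf1) (by simpa using hf2)
  refine ⟨ω, h1, fun h3 h4 => ?_⟩
  have h5 := h2 (by omega)
  rw [coeff_TP_comp] at h5
  rw [h3] at h5 ⊢
  rw [h5]
  congr 1
  push_cast
  ring

end piece

section err

theorem zip_eq {α : Type*} (f g : α → ℤ) (x : ℤ) (ds : List α) (m : List ℕ) :
    List.zipWith (fun u v => u * x + v) (List.zipWith (fun d (h : ℕ) => f d * (h : ℤ)) ds m)
      (List.zipWith (fun d (h : ℕ) => g d * (h : ℤ)) ds m) =
    List.zipWith (fun d (h : ℕ) => (f d * x + g d) * (h : ℤ)) ds m := by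
  induction ds generalizing m with
  | nil => simp
  | cons a ds ih =>
    cases m with
    | nil => simp
    | cons h m =>
      simp only [List.zipWith_cons_cons, ih]
      congr 1
      ring

open Classical in
theorem E_bound {α : Type*} (ds : List α) (p : α → List ℕ → ℤ) (t : ℕ) (C : ℝ) (H₁ H₂ : ℕ)
    (hH₁ : 1 ≤ H₁) (hH₂ : 1 ≤ H₂)
    (hds : ∀ d ∈ ds, av t H₁ (fun l => if p d l = 0 then (1 : ℝ) else 0) ≤ C / H₁)
    (η : ℝ) (hη : 0 < η) (c : List ℕ → List ℕ → ℝ) (hc0 : ∀ l m, 0 ≤ c l m)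
    (hc1 : ∀ l m, c l m ≤ 1) :
    av t H₁ (fun l => av ds.length H₂ (fun m => c l m)) ≤
      ds.length * (C / H₁) + 2 ^ ds.length / H₂ + η +
      η⁻¹ * av t H₁ (fun l => av ds.length H₂ (fun m =>
        if NZ (List.zipWith (fun d (h : ℕ) => p d l * (h : ℤ)) ds m) then c l m ^ 2 else 0)) := by
  have key : ∀ l : List ℕ, av ds.length H₂ (fun m => c l m) ≤
      (ds.map (fun d => if p d l = 0 then (1 : ℝ) else 0)).sum + 2 ^ ds.length / H₂ + η +
      η⁻¹ * av ds.length H₂ (fun m =>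
        if NZ (List.zipWith (fun d (h : ℕ) => p d l * (h : ℤ)) ds m) then c l m ^ 2 else 0) := by
    intro l
    have h0 : 0 ≤ av ds.length H₂ (fun m =>
        if NZ (List.zipWith (fun d (h : ℕ) => p d l * (h : ℤ)) ds m) then c l m ^ 2 else 0) := by
      refine av_nonneg _ _ _ fun m => ?_
      split_ifs
      · positivity
      · exact le_rfl
    have h0' : 0 ≤ (ds.map (fun d => if p d l = 0 then (1 : ℝ) else 0)).sum := by
      refine List.sum_nonneg fun x hx => ?_
      obtain ⟨d, _, rfl⟩ := List.mem_map.1 hx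
      split_ifs <;> norm_num
    have h00 : (0 : ℝ) ≤ 2 ^ ds.length / H₂ := by positivity
    by_cases hd : ∃ d ∈ ds, p d l = 0
    · obtain ⟨d, hd1, hd2⟩ := hd
      have h1 : (1 : ℝ) ≤ (ds.map (fun d => if p d l = 0 then (1 : ℝ) else 0)).sum := by
        have := List.single_le_sum (l := ds.map (fun d => if p d l = 0 then (1 : ℝ) else 0))
          (fun x hx => by
            obtain ⟨d, _, rfl⟩ := List.mem_map.1 hx
            split_ifs <;> norm_num) (if p d l = 0 then (1 : ℝ) else 0)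
            (List.mem_map.2 ⟨d, hd1, rfl⟩)
        rwa [if_pos hd2] at this
      have h2 : av ds.length H₂ (fun m => c l m) ≤ 1 := by
        calc _ ≤ av ds.length H₂ (fun _ => (1 : ℝ)) := av_mono _ _ _ _ fun m _ => hc1 l m
          _ = 1 := av_const _ _ hH₂ _
      have h3 : 0 ≤ η⁻¹ * av ds.length H₂ (fun m =>
        if NZ (List.zipWith (fun d (h : ℕ) => p d l * (h : ℤ)) ds m) then c l m ^ 2 else 0) := by
        positivity
      linarith
    · push Not at hd
      have h1 := nz_generic (ds.map (fun d => p d l)) (fun x hx => by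
        obtain ⟨d, hd1, rfl⟩ := List.mem_map.1 hx
        exact hd d hd1) H₂ hH₂
      rw [List.length_map] at h1
      have h2 : av ds.length H₂ (fun m => c l m) ≤ av ds.length H₂ (fun m =>
          (η + η⁻¹ * (if NZ (List.zipWith (fun d (h : ℕ) => p d l * (h : ℤ)) ds m)
            then c l m ^ 2 else 0)) +
          (if NZ (List.zipWith (fun (x : ℤ) (h : ℕ) => x * (h : ℤ)) (ds.map (fun d => p d l)) m)
            then (0 : ℝ) else 1)) := by
        refine av_mono _ _ _ _ fun m _ => ?_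
        rw [List.zipWith_map_left]
        split_ifs with h
        · rw [add_zero]
          have h4 : 0 ≤ η⁻¹ * (c l m - η) ^ 2 := by positivity
          have h5 : η⁻¹ * (c l m - η) ^ 2 = η⁻¹ * c l m ^ 2 - 2 * c l m + η := by
            field_simp
            ring
          nlinarith [hc0 l m]
        · rw [mul_zero, add_zero]
          linarith [hc1 l m]
      rw [av_add, av_add, av_const_mul, av_const _ _ hH₂] at h2
      linarith
  have h1 : av t H₁ (fun l => av ds.length H₂ (fun m => c l m)) ≤ av t H₁ (fun l =>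
      (((ds.map (fun d => if p d l = 0 then (1 : ℝ) else 0)).sum + 2 ^ ds.length / H₂) + η) +
      η⁻¹ * av ds.length H₂ (fun m =>
        if NZ (List.zipWith (fun d (h : ℕ) => p d l * (h : ℤ)) ds m) then c l m ^ 2 else 0)) :=
    av_mono _ _ _ _ fun l _ => key l
  rw [av_add, av_add, av_add, av_const_mul, av_const _ _ hH₁, av_const _ _ hH₁,
    av_list_sum _ _ hH₁] at h1
  have h2 : (ds.map (fun a => av t H₁ (fun l => if p a l = 0 then (1 : ℝ) else 0))).sum ≤
      ds.length * (C / H₁) := by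
    have := List.sum_le_card_nsmul (ds.map (fun a => av t H₁ (fun l => if p a l = 0 then
      (1 : ℝ) else 0))) (C / H₁) (fun x hx => by
        obtain ⟨d, hd, rfl⟩ := List.mem_map.1 hx
        exact hds d hd)
    rwa [List.length_map, nsmul_eq_mul] at this
  linarith

theorem exists_div_le (a b : ℝ) (hb : 0 < b) (m : ℕ) :
    ∃ H : ℕ, 1 ≤ H ∧ m ≤ H ∧ a / H ≤ b := by
  obtain ⟨n, hn⟩ := exists_nat_ge (a / b)
  refine ⟨max (max n m) 1, le_max_right _ _, (le_max_right _ _).trans (le_max_left _ _), ?_⟩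
  have h1 : (n : ℝ) ≤ (max (max n m) 1 : ℕ) := by
    exact_mod_cast (le_max_left n m).trans (le_max_left _ _)
  have h2 : (0 : ℝ) < (max (max n m) 1 : ℕ) := by
    have : 1 ≤ max (max n m) 1 := le_max_right _ _
    exact_mod_cast this
  rw [div_le_iff₀ h2]
  rw [div_le_iff₀ hb] at hn
  nlinarith

open Classical in
theorem piece_bound (B : Finset ℝ) (c : ℝ) (hc : PosNonInt c) (hc1 : 1 < c)
    (hB : ∀ b ∈ B, PosNonInt b ∧ b < c) :
    ∃ s : ℕ, 1 ≤ s ∧ ∀ (X : Type) [MeasurableSpace X] (μ : Measure X) [IsProbabilityMeasure μ]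
      (A : Act X μ) (f : ℝ → X → ℂ), (∀ b, Bdd (f b)) → Null A s (f c) → ∀ θ > 0,
      ∃ (l : ℕ) (F : ℕ → ℕ → ℝ), ⌊c⌋₊ < l ∧ 2 ≤ l ∧ (∀ Q n, 0 ≤ F Q n) ∧
        (∀ Q ≥ 1, LS (F Q) 0) ∧
        ∀ (z : ℕ → ℂ), (∀ s, ‖z s‖ ≤ 1) → ∀ (ω : ℝ → ℕ → ℤ) (Q n : ℕ),
          (ω c ⌊c⌋₊ = round ((Q : ℝ) * lead c * (n : ℝ) ^ (c - (⌊c⌋₊ : ℝ)))) →
          (∀ b ∈ B, ⌊b⌋₊ = ⌊c⌋₊ →
            ω b ⌊c⌋₊ = round ((Q : ℝ) * lead b * (n : ℝ) ^ (b - (⌊b⌋₊ : ℝ)))) →
          n2 μ (fun x => avg l (fun s =>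
            z s * f c (A.S ((∑ j ∈ range (⌊c⌋₊ + 1), ω c j * (s : ℤ) ^ j) ^ 2) x) *
              ∏ b ∈ B, f b (A.S ((∑ j ∈ range (⌊b⌋₊ + 1), ω b j * (s : ℤ) ^ j) ^ 2) x))) ≤
            θ + F Q n := by
  obtain ⟨t, k, C, ds, hne, hC, hds, hpet⟩ := sc_pet B c hc hc1 hB
  have hr : 1 ≤ ds.length := List.length_pos_iff.2 hne
  obtain ⟨s, hs, hslow⟩ := slowcor ds.length hr
  refine ⟨s, hs, ?_⟩
  intro X _ μ _ A f hf hnull θ hθ
  set τ : ℝ := θ ^ (2 ^ k) / 2 with hτ
  have hτ0 : 0 < τ := by positivity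
  obtain ⟨H₁, hH₁, -, hH₁'⟩ := exists_div_le (C * ds.length * C) (τ / 4)
    (by positivity) 1
  obtain ⟨H₂, hH₂, -, hH₂'⟩ := exists_div_le (C * 2 ^ ds.length) (τ / 4)
    (by positivity) 1
  obtain ⟨l, hl1, hl2, hl'⟩ := exists_div_le (C * ((H₁ + H₂ : ℕ) : ℝ)) (τ / 4)
    (by positivity) (⌊c⌋₊ + 2)
  set η : ℝ := τ / (4 * (C + 1)) with hη
  have hη0 : 0 < η := by positivity
  have hCη : C * η ≤ τ / 4 := by
    rw [hη, mul_div_assoc', div_le_iff₀ (by positivity)]
    nlinarith
  -- the correlations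
  set cor : (ℝ → ℤ) → ℤ → List ℕ → List ℕ → ℝ := fun σ b l m => Cor A (List.zipWith
    (fun (d : (List ℕ → ℤ) × ((ℝ → ℤ) → List ℕ → ℤ)) (h : ℕ) =>
      (d.1 l * b ^ 2 + d.2 σ l) * (h : ℤ)) ds m) (f c) with hcor
  have hcor0 : ∀ σ b l m, 0 ≤ cor σ b l m := fun σ b l m => Cor_nonneg _ _ _
  have hcor1 : ∀ σ b l m, cor σ b l m ≤ 1 := fun σ b l m =>
    ((hf c).cub A _).norm_integral_le
  set bb : ℕ → ℕ → ℤ := fun Q n => round ((Q : ℝ) * lead c * (n : ℝ) ^ (c - (⌊c⌋₊ : ℝ)))
    with hbb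
  set ss : ℕ → ℕ → ℝ → ℤ := fun Q n b => if b ∈ B ∧ ⌊b⌋₊ = ⌊c⌋₊ then
    round ((Q : ℝ) * lead b * (n : ℝ) ^ (b - (⌊b⌋₊ : ℝ))) else 0 with hss
  set E2 : ℕ → ℕ → ℝ := fun Q n => av t H₁ (fun l' => av ds.length H₂ (fun m =>
    if NZ (List.zipWith (fun d (h : ℕ) => d.1 l' * (h : ℤ)) ds m)
      then cor (ss Q n) (bb Q n) l' m ^ 2 else 0)) with hE2
  have hE20 : ∀ Q n, 0 ≤ E2 Q n := by
    intro Q n
    refine av_nonneg _ _ _ fun l' => av_nonneg _ _ _ fun m => ?_
    split_ifs
    · positivity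
    · exact le_rfl
  refine ⟨l, fun Q n => 2 / θ ^ (2 ^ k) * (C * (η⁻¹ * E2 Q n)), by omega, by omega, ?_, ?_, ?_⟩
  · intro Q n
    have := hE20 Q n
    positivity
  · intro Q hQ
    have h1 : LS (E2 Q) 0 := by
      refine LS.av t H₁ (fun n l' => av ds.length H₂ (fun m =>
        if NZ (List.zipWith (fun d (h : ℕ) => d.1 l' * (h : ℤ)) ds m)
          then cor (ss Q n) (bb Q n) l' m ^ 2 else 0)) fun l' hl' => ?_
      refine LS.av ds.length H₂ (fun n m =>
        if NZ (List.zipWith (fun d (h : ℕ) => d.1 l' * (h : ℤ)) ds m)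
          then cor (ss Q n) (bb Q n) l' m ^ 2 else 0) fun m hm => ?_
      by_cases hnz : NZ (List.zipWith (fun (d : (List ℕ → ℤ) × ((ℝ → ℤ) → List ℕ → ℤ)) (h : ℕ) =>
          d.1 l' * (h : ℤ)) ds m)
      · simp only [if_pos hnz]
        refine LS.of_tendsto (round_slow B c hc hc1 hB Q hQ (fun σ b => cor σ b l' m ^ 2)
          (fun σ b => by positivity)
          (fun σ b => pow_le_one₀ (hcor0 _ _ _ _) (hcor1 _ _ _ _)) ?_)
        intro ε hε
        obtain ⟨N₀, hN₀⟩ := hslow X μ A (f c) (hf c) hnull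
          (List.zipWith (fun (d : (List ℕ → ℤ) × ((ℝ → ℤ) → List ℕ → ℤ)) (h : ℕ) =>
          d.1 l' * (h : ℤ)) ds m) (by rw [List.length_zipWith, hm, min_self]) hnz ε hε
        refine ⟨N₀, fun N hN σ a => ?_⟩
        have h2 := hN₀ N hN
          (List.zipWith (fun (d : (List ℕ → ℤ) × ((ℝ → ℤ) → List ℕ → ℤ)) (h : ℕ) =>
          d.2 σ l' * (h : ℤ)) ds m) (by rw [List.length_zipWith, hm, min_self]) a
        simp only [zip_eq] at h2
        exact h2
      · simp only [if_neg hnz]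
        exact LS.const 0
    have h2 := (((h1.const_mul η⁻¹ (by positivity)).const_mul C hC).const_mul
      (2 / θ ^ (2 ^ k)) (by positivity))
    simpa using h2
  · intro z hz ω Q n hω1 hω2
    have hbdd : Bdd (fun x => avg l (fun s =>
            z s * f c (A.S ((∑ j ∈ range (⌊c⌋₊ + 1), ω c j * (s : ℤ) ^ j) ^ 2) x) *
              ∏ b ∈ B, f b (A.S ((∑ j ∈ range (⌊b⌋₊ + 1), ω b j * (s : ℤ) ^ j) ^ 2) x))) :=
      Bdd.avg _ _ fun s => (((hf c).comp A _).smul (hz s)).mul
        (Bdd.prod _ _ fun b _ => (hf b).comp A _)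
    have h1 := hpet X μ A ω z hz f hf H₁ H₂ l hH₁ hH₂ hl1
    have hσ : (fun b => if b ∈ B ∧ ⌊b⌋₊ = ⌊c⌋₊ then ω b ⌊c⌋₊ else 0) = ss Q n := by
      ext b
      simp only [hss]
      split_ifs with h
      · exact hω2 b h.1 h.2
      · rfl
    rw [hσ, hω1] at h1
    have h2 := E_bound ds (fun d => d.1) t C H₁ H₂ hH₁ hH₂ (fun d hd => hds d hd H₁ hH₁) η hη0
      (fun l' m => cor (ss Q n) (bb Q n) l' m) (fun _ _ => hcor0 _ _ _ _)
      (fun _ _ => hcor1 _ _ _ _)
    have h3 : C * av t H₁ (fun l' => av ds.length H₂ (fun m => cor (ss Q n) (bb Q n) l' m)) ≤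
        C * (ds.length * (C / H₁) + 2 ^ ds.length / H₂ + η + η⁻¹ * E2 Q n) :=
      mul_le_mul_of_nonneg_left h2 hC
    refine root_bound k _ θ (C * (ds.length * (C / H₁) + 2 ^ ds.length / H₂ + η) +
      C * (((H₁ + H₂ : ℕ) : ℝ) / l)) (C * (η⁻¹ * E2 Q n)) (n2_le_one hbdd.le) hθ ?_ ?_ ?_
    · have e1 : C * (ds.length * (C / H₁)) = C * ds.length * C / H₁ := by ring
      have e2 : C * (2 ^ ds.length / H₂) = C * 2 ^ ds.length / H₂ := by ring
      have e3 : C * (((H₁ + H₂ : ℕ) : ℝ) / l) = C * ((H₁ + H₂ : ℕ) : ℝ) / l := by ring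
      rw [e3, mul_add, mul_add, e1, e2]
      linarith
    · have := hE20 Q n
      positivity
    · refine h1.trans ?_
      have h4 : C * av t H₁ (fun l' => av ds.length H₂ (fun m => cor (ss Q n) (bb Q n) l' m)) ≤
        C * (ds.length * (C / H₁) + 2 ^ ds.length / H₂ + η) + C * (η⁻¹ * E2 Q n) := by
        rw [← mul_add]; exact h3
      simp only [hcor, hbb] at h4
      linarith

end err

section bump

theorem bump (ε : ℝ) (hε : 0 < ε) (hε' : 16 * ε ≤ 1) : ∃ g : ℝ → ℝ, Continuous g ∧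
    Function.Periodic g 1 ∧ (∀ y, 0 ≤ g y) ∧ (∀ y, g y ≤ 2) ∧
    (∀ y, ¬ (4 * ε ≤ Int.fract y ∧ Int.fract y ≤ 1 - 4 * ε) → 1 ≤ g y) ∧
    (∫ x in (0:ℝ)..1, g x) ≤ 32 * ε := by
  set g : ℝ → ℝ := fun y => max 0 (2 - |y - round y| / (4 * ε)) with hg
  have hcont : Continuous g := by
    have h1 : Continuous fun y : ℝ => ‖(y : UnitAddCircle)‖ :=
      continuous_norm.comp (AddCircle.continuous_mk' 1)
    have h2 : (fun y : ℝ => ‖(y : UnitAddCircle)‖) = fun y : ℝ => |y - round y| := by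
      ext y
      exact UnitAddCircle.norm_eq
    rw [h2] at h1
    exact continuous_const.max (continuous_const.sub (h1.div_const _))
  have h0 : ∀ y, 0 ≤ g y := fun y => le_max_left _ _
  have h2 : ∀ y, g y ≤ 2 := fun y => by
    refine max_le (by norm_num) ?_
    have : 0 ≤ |y - round y| / (4 * ε) := by positivity
    linarith
  refine ⟨g, hcont, ?_, h0, h2, ?_, ?_⟩
  · intro y
    simp only [hg]
    rw [round_add_one]
    push_cast
    congr 4
    ring
  · intro y hy
    refine le_max_of_le_right ?_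
    have h3 : |y - round y| ≤ 4 * ε := by
      rw [abs_sub_round_eq_min]
      rw [not_and_or, not_le, not_le] at hy
      rcases hy with h | h
      · exact (min_le_left _ _).trans h.le
      · exact (min_le_right _ _).trans (by linarith)
    have h4 : |y - round y| / (4 * ε) ≤ 1 := by
      rw [div_le_one (by positivity)]
      exact h3
    linarith
  · have hi : ∀ a b : ℝ, IntervalIntegrable g volume a b := fun a b =>
      hcont.intervalIntegrable a b
    rw [← intervalIntegral.integral_add_adjacent_intervals (hi 0 (8 * ε)) (hi (8 * ε) 1),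
      ← intervalIntegral.integral_add_adjacent_intervals (hi (8 * ε) (1 - 8 * ε)) (hi _ 1)]
    have e1 : ∀ a b : ℝ, a ≤ b → ∫ x in a..b, g x ≤ 2 * (b - a) := by
      intro a b hab
      have := intervalIntegral.norm_integral_le_of_norm_le_const (a := a) (b := b) (f := g)
        (C := 2) (fun x _ => by rw [Real.norm_of_nonneg (h0 x)]; exact h2 x)
      rw [abs_of_nonneg (by linarith)] at this
      exact (le_abs_self _).trans this
    have e2 : ∫ x in (8 * ε)..(1 - 8 * ε), g x = 0 := by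
      have : ∫ x in (8 * ε)..(1 - 8 * ε), g x = ∫ x in (8 * ε)..(1 - 8 * ε), (0 : ℝ) := by
        refine intervalIntegral.integral_congr fun x hx => ?_
        rw [Set.uIcc_of_le (by linarith)] at hx
        have hx1 : Int.fract x = x := Int.fract_eq_self.2 ⟨by linarith [hx.1], by linarith [hx.2]⟩
        simp only [hg]
        rw [abs_sub_round_eq_min, hx1]
        refine max_eq_left ?_
        have h3 : 8 * ε ≤ min x (1 - x) := le_min hx.1 (by linarith [hx.2])
        have h4 : 2 ≤ min x (1 - x) / (4 * ε) := by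
          rw [le_div_iff₀ (by positivity)]
          linarith
        linarith
      rw [this]
      simp
    have e3 := e1 0 (8 * ε) (by linarith)
    have e4 := e1 (1 - 8 * ε) 1 (by linarith)
    rw [e2]
    linarith

theorem LS_equi (b : ℝ) (hb : PosNonInt b) (g : ℝ → ℝ) (hg : Continuous g)
    (hg1 : Function.Periodic g 1) :
    LS (fun n => g ((n : ℝ) ^ b)) (∫ x in (0:ℝ)..1, g x) := by
  refine LS.of_tendsto ?_
  have h1 := equi b hb (fun x => ((g x : ℝ) : ℂ)) (Complex.continuous_ofReal.comp hg)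
    (fun x => by simp only [hg1 x])
  rw [intervalIntegral.integral_ofReal] at h1
  have h2 : (fun N => avg N (fun n : ℕ => ((g ((n : ℝ) ^ b) : ℝ) : ℂ))) =
      fun N => ((ravg N (fun n => g ((n : ℝ) ^ b)) : ℝ) : ℂ) := by
    ext N
    unfold avg ravg
    push_cast
    rfl
  rw [h2] at h1
  have h3 := (Complex.continuous_re.tendsto _).comp h1
  simpa [Function.comp_def] using h3

end bump

theorem card_part_le (W l M : ℕ) (Q : Finset (ℕ × ℕ))
    (hQ : ∀ q ∈ Q, q.1 + q.2 * (M * (l - 1)) < W)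
    (hinj : Set.InjOn (fun x : (ℕ × ℕ) × ℕ => x.1.1 + x.1.2 * (M * x.2))
      {x | x.1 ∈ Q ∧ x.2 < l}) : Q.card * l ≤ W := by
  classical
  calc Q.card * l = (Q ×ˢ range l).card := by rw [card_product, card_range]
    _ ≤ (range W).card := by
        refine card_le_card_of_injOn (fun x => x.1.1 + x.1.2 * (M * x.2)) ?_ ?_
        · intro x hx
          rw [mem_coe, mem_product, mem_range] at hx
          rw [mem_coe]
          refine mem_range.2 (lt_of_le_of_lt ?_ (hQ x.1 hx.1))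
          have : x.2 ≤ l - 1 := by omega
          exact Nat.add_le_add_left (Nat.mul_le_mul_left _ (Nat.mul_le_mul_left _ this)) _
        · intro x hx y hy hxy
          rw [mem_coe, mem_product, mem_range] at hx hy
          exact hinj ⟨hx.1, hx.2⟩ ⟨hy.1, hy.2⟩ hxy
    _ = W := card_range _

theorem avg_congr (N : ℕ) {a b : ℕ → ℂ} (h : ∀ n < N, a n = b n) : avg N a = avg N b := by
  unfold avg
  rw [sum_congr rfl fun n hn => h n (mem_range.1 hn)]

/-- T13: seminorm control. -/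
theorem sc (B : Finset ℝ) (c : ℝ) (hc : PosNonInt c) (hc1 : 1 < c)
    (hB : ∀ b ∈ B, PosNonInt b ∧ b < c) :
    ∃ s ≥ 1, ∀ (X : Type) [MeasurableSpace X] (μ : Measure X) [IsProbabilityMeasure μ]
      (A : Act X μ) (f : ℝ → X → ℂ), (∀ b, Bdd (f b)) → Null A s (f c) →
      ∀ w : ℕ → ℕ → ℂ, (∀ N n, ‖w N n‖ ≤ 1) →
      Tendsto (fun N => n2 μ (fun x => avg N (fun n => w N n * f c (A.S (sq c n) x) *
        ∏ b ∈ B, f b (A.S (sq b n) x)))) atTop (𝓝 0) := by
  classical
  obtain ⟨s, hs, hpb⟩ := piece_bound B c hc hc1 hB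
  refine ⟨s, hs, fun X _ μ _ A f hf hnull w hw => ?_⟩
  set v : ℕ → ℕ → X → ℂ := fun N n x => w N n * f c (A.S (sq c n) x) *
    ∏ b ∈ B, f b (A.S (sq b n) x) with hv
  have hvb : ∀ N n, Bdd (v N n) := fun N n =>
    (((hf c).comp A _).smul (hw N n)).mul (Bdd.prod _ _ fun b _ => (hf b).comp A _)
  have key : ∀ ε > 0, ∃ (W : ℕ) (R : ℕ → ℝ), 1 ≤ W ∧ LS R ε ∧
      ∀ N n, n2 μ (fun x => avg W (fun u => v N (n + u) x)) ≤ R n := by
    intro ε hε
    set ε' : ℝ := ε / 4 with hε'
    have hε'0 : 0 < ε' := by positivity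
    obtain ⟨l, F, hl, hl2, hF0, hFLS, hFb⟩ := hpb X μ A f hf hnull ε' hε'0
    set D : ℕ := ⌊c⌋₊ with hD
    set M : ℕ := D.factorial with hM
    have hM1 : 1 ≤ M := Nat.factorial_pos _
    have hD1 : 1 ≤ D := Nat.le_floor (by simpa using hc1.le)
    set S : Finset ℝ := insert c B with hS
    have hSP : ∀ b ∈ S, PosNonInt b := by
      intro b hb
      rcases mem_insert.1 hb with rfl | hb
      · exact hc
      · exact (hB b hb).1
    have hSD : ∀ b ∈ S, ⌊b⌋₊ ≤ D := by
      intro b hb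
      rcases mem_insert.1 hb with rfl | hb
      · exact le_rfl
      · exact Nat.floor_le_floor (hB b hb).2.le
    have hSc : 0 < S.card := card_pos.2 ⟨c, mem_insert_self _ _⟩
    have hSc' : (0 : ℝ) < S.card := by exact_mod_cast hSc
    have hl0 : (0 : ℝ) < l := by
      have : 0 < l := by omega
      exact_mod_cast this
    set ε₁ : ℝ := min (1 / 2 ^ (D + 6)) (ε' / (l * S.card * 32)) with hε₁
    have hε₁0 : 0 < ε₁ := by positivity
    have hε₁D : ε₁ * 2 ^ (D + 6) ≤ 1 := by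
      have := min_le_left (1 / 2 ^ (D + 6) : ℝ) (ε' / (l * S.card * 32))
      rw [← hε₁, le_div_iff₀ (by positivity)] at this
      exact this
    have hε₁l : l * (S.card * (32 * ε₁)) ≤ ε' := by
      have := min_le_right (1 / 2 ^ (D + 6) : ℝ) (ε' / (l * S.card * 32))
      rw [← hε₁, le_div_iff₀ (by positivity)] at this
      linarith
    have hε₁16 : 16 * ε₁ ≤ 1 := by
      have h1 : (16 : ℝ) ≤ 2 ^ (D + 6) := by
        calc (16 : ℝ) = 2 ^ 4 := by norm_num
          _ ≤ 2 ^ (D + 6) := pow_le_pow_right₀ (by norm_num) (by omega)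
      nlinarith
    obtain ⟨g, hgc, hgp, hg0, hg2, hg1, hgi⟩ := bump ε₁ hε₁0 hε₁16
    set eqv := S.equivFin with heqv
    obtain ⟨W, hW, hpart⟩ := part D S.card l M (by omega) hM1 (min ε₁ ε')
      (lt_min hε₁0 hε'0)
    have hW0 : (0 : ℝ) < W := by exact_mod_cast hW
    -- Taylor
    have htay : ∀ᶠ n : ℕ in atTop, ∀ b ∈ S, ∀ u ≤ W,
        |((n + u : ℕ) : ℝ) ^ b - (TP n b).eval (u : ℝ)| ≤ ε₁ := by
      refine (Finset.eventually_all S).2 fun b hb => ?_
      refine (taylor b (hSP b hb) W ε₁ hε₁0).mono fun n hn u hu => ?_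
      rw [TP_eval]
      exact hn u hu
    obtain ⟨n₀, hn₀⟩ := eventually_atTop.1 htay
    set FF : ℕ → ℝ := fun n => ∑ q ∈ range W, F ((M * (q + 1)) ^ D) n with hFF
    have hFF0 : ∀ n, 0 ≤ FF n := fun n => sum_nonneg fun q _ => hF0 _ _
    set gg : ℕ → ℝ := fun n => ∑ b ∈ S, ravg W (fun u => g (((n + u : ℕ) : ℝ) ^ b)) with hgg
    have hgg0 : ∀ n, 0 ≤ gg n := fun n =>
      sum_nonneg fun b _ => ravg_nonneg _ fun u _ => hg0 _
    refine ⟨W, fun n => (if n < n₀ then 1 else 0) + (ε' + ((ε' + FF n) + l * gg n)), hW, ?_, ?_⟩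
    · -- upper limit
      have h1 : LS FF 0 := LS.sum_zero _ _ fun q _ => hFLS _ (Nat.one_le_pow _ _ (by positivity))
      have h2 : LS gg (S.card * (32 * ε₁)) := by
        have h3 : LS gg (∑ b ∈ S, 32 * ε₁) := by
          refine LS.sum S (fun b n => ravg W (fun u => g (((n + u : ℕ) : ℝ) ^ b)))
            (fun _ => 32 * ε₁) fun b hb => ?_
          have h4 := LS_equi b (hSP b hb) g hgc hgp
          have h5 : LS (fun n => ∑ u ∈ range W, g (((n + u : ℕ) : ℝ) ^ b))
              (∑ u ∈ range W, ∫ x in (0:ℝ)..1, g x) := by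
            refine LS.sum _ (fun u n => g (((n + u : ℕ) : ℝ) ^ b)) _ fun u _ => ?_
            exact h4.shift u 2 fun n => by rw [abs_of_nonneg (hg0 _)]; exact hg2 _
          have h6 := h5.const_mul ((W : ℝ)⁻¹) (by positivity)
          refine h6.mono (fun n => ?_) ?_
          · unfold ravg
            rw [div_eq_inv_mul]
          · rw [sum_const, card_range, nsmul_eq_mul, ← mul_assoc, inv_mul_cancel₀ hW0.ne',
              one_mul]
            exact hgi
        rw [sum_const, nsmul_eq_mul] at h3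
        exact h3
      have h3 := (LS.ind n₀).add ((LS.const ε').add (((LS.const ε').add h1).add
        (h2.const_mul (l : ℝ) hl0.le)))
      refine h3.mono (fun n => le_rfl) ?_
      rw [hε'] at hε₁l ⊢
      linarith
    · -- bound
      intro N n
      beta_reduce
      have hb1 : n2 μ (fun x => avg W (fun u => v N (n + u) x)) ≤ 1 :=
        n2_le_one (Bdd.avg W _ fun u => hvb N _).le
      by_cases hn : n < n₀
      · rw [if_pos hn]
        have := hFF0 n
        have := hgg0 n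
        have : 0 ≤ l * gg n := by positivity
        linarith
      · rw [if_neg hn, zero_add]
        have htn := hn₀ n (by omega)
        obtain ⟨Q, hQ1, hQ2, hQ3, hQ4⟩ := hpart (fun i => TP n (eqv.symm i))
          (fun i => (natDegree_TP n _).trans (hSD _ (eqv.symm i).2))
        have hQ1' : ∀ q ∈ Q, q.1 + q.2 * (M * (l - 1)) < W := fun q hq => (hQ1 q hq).2
        have hcard := card_part_le W l M Q hQ1' hQ2
        have hcov : (1 - ε') * W ≤ Q.card * l := by
          refine le_trans ?_ hQ3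
          have : min ε₁ ε' ≤ ε' := min_le_right _ _
          nlinarith
        refine (window_split W l M hW (by omega) ε' Q hQ1' hQ2 hcov (fun u => v N (n + u))
          (fun u => hvb N _)).trans ?_
        refine add_le_add_right ?_ ε'
        have hpc : ∀ q ∈ Q, n2 μ (fun x => avg l (fun s => v N (n + (q.1 + q.2 * (M * s))) x)) ≤
            (ε' + FF n) + ∑ b ∈ S, g (((n + q.1 : ℕ) : ℝ) ^ b) := by
          intro q hq
          by_cases hgood : ∀ b ∈ S, 4 * ε₁ ≤ Int.fract (((n + q.1 : ℕ) : ℝ) ^ b) ∧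
              Int.fract (((n + q.1 : ℕ) : ℝ) ^ b) ≤ 1 - 4 * ε₁
          · have hex : ∀ b : ℝ, ∃ ω : ℕ → ℤ, b ∈ S →
                (∀ s < l, ((⌊((n + (q.1 + q.2 * (M * s)) : ℕ) : ℝ) ^ b⌋₊ : ℕ) : ℤ) =
                  ∑ j ∈ range (⌊b⌋₊ + 1), ω j * (s : ℤ) ^ j) ∧
                (⌊b⌋₊ = D → 1 ≤ D → ω D =
                  round ((((M * q.2) ^ D : ℕ) : ℝ) * lead b * (n : ℝ) ^ (b - (⌊b⌋₊ : ℝ)))) := by
              intro b
              by_cases hb : b ∈ S
              · obtain ⟨ω, hω⟩ := piece_one b D l M (hSD b hb) hl hM ε₁ hε₁0 hε₁D W n q.1 q.2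
                  (hQ1' q hq) (htn b hb) (fun s hs => by
                    obtain ⟨z, hz⟩ := hQ4 q hq (eqv ⟨b, hb⟩) s hs
                    rw [Equiv.symm_apply_apply] at hz
                    exact ⟨z, hz.trans (min_le_left _ _)⟩) (hgood b hb).1 (hgood b hb).2
                exact ⟨ω, fun _ => hω⟩
              · exact ⟨0, fun h => absurd h hb⟩
            choose ω hω using hex
            have h1 := hFb (fun s => w N (n + (q.1 + q.2 * (M * s)))) (fun s => hw _ _) ω
              ((M * q.2) ^ D) n ((hω c (mem_insert_self _ _)).2 rfl hD1)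
              (fun b hb hbD => (hω b (mem_insert_of_mem hb)).2 hbD hD1)
            have h2 : (fun x => avg l (fun s => v N (n + (q.1 + q.2 * (M * s))) x)) =
                fun x => avg l (fun s => w N (n + (q.1 + q.2 * (M * s))) *
                  f c (A.S ((∑ j ∈ range (⌊c⌋₊ + 1), ω c j * (s : ℤ) ^ j) ^ 2) x) *
                  ∏ b ∈ B, f b (A.S ((∑ j ∈ range (⌊b⌋₊ + 1), ω b j * (s : ℤ) ^ j) ^ 2) x)) := by
              ext x
              refine avg_congr l fun s hs => ?_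
              simp only [hv]
              have e1 : sq c (n + (q.1 + q.2 * (M * s))) =
                  (∑ j ∈ range (⌊c⌋₊ + 1), ω c j * (s : ℤ) ^ j) ^ 2 := by
                unfold sq
                rw [(hω c (mem_insert_self _ _)).1 s hs]
              rw [e1]
              congr 1
              refine prod_congr rfl fun b hb => ?_
              have e2 : sq b (n + (q.1 + q.2 * (M * s))) =
                  (∑ j ∈ range (⌊b⌋₊ + 1), ω b j * (s : ℤ) ^ j) ^ 2 := by
                unfold sq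
                rw [(hω b (mem_insert_of_mem hb)).1 s hs]
              rw [e2]
            rw [h2]
            refine h1.trans ?_
            have h3 : F ((M * q.2) ^ D) n ≤ FF n := by
              have hq1 := (hQ1 q hq).1
              have hq2 : q.2 ≤ q.2 * (M * (l - 1)) :=
                Nat.le_mul_of_pos_right _ (Nat.mul_pos hM1 (by omega))
              have hq3 := hQ1' q hq
              have := single_le_sum (f := fun q' => F ((M * (q' + 1)) ^ D) n)
                (s := range W) (fun q' _ => hF0 _ _)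
                (mem_range.2 (show q.2 - 1 < W by omega))
              rwa [show q.2 - 1 + 1 = q.2 by omega] at this
            have h4 : 0 ≤ ∑ b ∈ S, g (((n + q.1 : ℕ) : ℝ) ^ b) :=
              sum_nonneg fun b _ => hg0 _
            linarith
          · push Not at hgood
            obtain ⟨b, hb, hb'⟩ := hgood
            have h1 : 1 ≤ g (((n + q.1 : ℕ) : ℝ) ^ b) := hg1 _ fun h => by
              have := hb' h.1
              linarith [h.2]
            have h2 : g (((n + q.1 : ℕ) : ℝ) ^ b) ≤ ∑ b ∈ S, g (((n + q.1 : ℕ) : ℝ) ^ b) :=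
              single_le_sum (f := fun b => g (((n + q.1 : ℕ) : ℝ) ^ b)) (fun b _ => hg0 _) hb
            have h3 : n2 μ (fun x => avg l (fun s => v N (n + (q.1 + q.2 * (M * s))) x)) ≤ 1 :=
              n2_le_one (Bdd.avg l _ fun s => hvb N _).le
            have := hFF0 n
            linarith
        calc (l : ℝ) / W * ∑ q ∈ Q,
              n2 μ (fun x => avg l (fun s => v N (n + (q.1 + q.2 * (M * s))) x))
            ≤ (l : ℝ) / W * ∑ q ∈ Q, ((ε' + FF n) + ∑ b ∈ S, g (((n + q.1 : ℕ) : ℝ) ^ b)) := by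
              gcongr with q hq
              exact hpc q hq
          _ = (Q.card * l : ℝ) / W * (ε' + FF n) +
              (l : ℝ) / W * ∑ q ∈ Q, ∑ b ∈ S, g (((n + q.1 : ℕ) : ℝ) ^ b) := by
              rw [sum_add_distrib, sum_const, nsmul_eq_mul]
              ring
          _ ≤ (ε' + FF n) + l * gg n := by
              have h1 : (Q.card * l : ℝ) / W ≤ 1 := by
                rw [div_le_one hW0]
                exact_mod_cast hcard
              have h2 : 0 ≤ ε' + FF n := by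
                have := hFF0 n
                linarith
              have h3 : ∑ q ∈ Q, ∑ b ∈ S, g (((n + q.1 : ℕ) : ℝ) ^ b) ≤
                  ∑ u ∈ range W, ∑ b ∈ S, g (((n + u : ℕ) : ℝ) ^ b) := by
                have h4 : ∑ q ∈ Q, ∑ b ∈ S, g (((n + q.1 : ℕ) : ℝ) ^ b) =
                    ∑ u ∈ Q.image Prod.fst, ∑ b ∈ S, g (((n + u : ℕ) : ℝ) ^ b) := by
                  rw [sum_image]
                  intro a ha b hb hab
                  have := @hQ2 (a, 0) ⟨ha, by show 0 < l; omega⟩ (b, 0)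
                    ⟨hb, by show 0 < l; omega⟩ (by simpa using hab)
                  exact (Prod.ext_iff.1 this).1
                rw [h4]
                refine sum_le_sum_of_subset_of_nonneg ?_ fun u _ _ =>
                  sum_nonneg fun b _ => hg0 _
                intro u hu
                obtain ⟨q, hq, rfl⟩ := mem_image.1 hu
                have := hQ1' q hq
                exact mem_range.2 (by omega)
              have h5 : (l : ℝ) / W * ∑ u ∈ range W, ∑ b ∈ S, g (((n + u : ℕ) : ℝ) ^ b) =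
                  l * gg n := by
                simp only [hgg]
                unfold ravg
                rw [← sum_div, sum_comm]
                ring
              have h6 : (l : ℝ) / W * ∑ q ∈ Q, ∑ b ∈ S, g (((n + q.1 : ℕ) : ℝ) ^ b) ≤
                  (l : ℝ) / W * ∑ u ∈ range W, ∑ b ∈ S, g (((n + u : ℕ) : ℝ) ^ b) :=
                mul_le_mul_of_nonneg_left h3 (by positivity)
              have h7 : (Q.card * l : ℝ) / W * (ε' + FF n) ≤ 1 * (ε' + FF n) :=
                mul_le_mul_of_nonneg_right h1 h2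
              linarith
  rw [Metric.tendsto_atTop]
  intro ε hε
  obtain ⟨W, R, hW, hR, hbd⟩ := key (ε / 4) (by positivity)
  have h1 : Tendsto (fun N : ℕ => 2 * (W : ℝ) / (N : ℝ)) atTop (𝓝 0) :=
    tendsto_const_div_atTop_nhds_zero_nat _
  obtain ⟨N₀, hN₀⟩ := eventually_atTop.1 ((hR (ε / 4) (by positivity)).and
    (h1.eventually (gt_mem_nhds (show (0 : ℝ) < ε / 4 by positivity))))
  refine ⟨N₀, fun N hN => ?_⟩
  obtain ⟨h2, h3⟩ := hN₀ N hN
  rw [Real.dist_eq, sub_zero, abs_of_nonneg (n2_nonneg _)]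
  have h4 := avg_window (μ := μ) N W hW (v N) (hvb N)
  have h5 := ravg_mono N fun n (_ : n < N) => hbd N n
  have h6 : n2 μ (fun x => avg N (fun n => v N n x)) ≤ 3 * (ε / 4) := by linarith
  calc _ ≤ 3 * (ε / 4) := h6
    _ < ε := by linarith

end Pool.Agent.JE
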