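import Pool.Agent.Helper65.JE.Kit

/-! The inductive statement for MP_ce5406_an. -/

open MeasureTheory Filter Topology Finset
open scoped BigOperators ComplexConjugate

namespace Pool.Agent.JE

open Classical in
/-- `P(B,B')`: general functions at the exponents in `B`, phases at the exponents in `B'`. -/
def PP {X : Type} [MeasurableSpace X] {μ : Measure X} (A : Act X μ) (B B' : Finset ℝ) : Prop :=
  ∀ f : ℝ → X → ℂ, (∀ b, Bdd (f b)) → ∀ t : ℝ → ℝ, (∀ b ∈ B', IrrOrInt (t b)) →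
    Tendsto (fun N => n2 μ (fun x => avg N (fun n => (∏ b ∈ B', e (t b * (sq b n : ℝ))) *
      ∏ b ∈ B, f b (A.S (sq b n) x)) -
      (if ∀ b ∈ B', ∃ m : ℤ, t b = m then 1 else 0) * ∏ b ∈ B, ∫ y, f b y ∂μ)) atTop (𝓝 0)

end Pool.Agent.JE
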