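import Mathlib

/-!
Joint ergodicity of squared integer parts of fractional powers (MP_ce5406_an):
common definitions.
-/

open MeasureTheory Filter Topology Finset
open scoped BigOperators ComplexConjugate

namespace Pool.Agent.JE

/-- `e x = exp(2 pi i x)`. -/
noncomputable def e (x : ℝ) : ℂ := Complex.exp (2 * Real.pi * x * Complex.I)

/-- A measure preserving action of the integers. -/
structure Act (X : Type) [MeasurableSpace X] (μ : Measure X) where
  S : ℤ → X → X
  zero : ∀ x, S 0 x = x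
  add : ∀ a b x, S (a + b) x = S a (S b x)
  mp : ∀ a, MeasurePreserving (S a) μ μ

/-- Measurable and bounded by one everywhere. -/
structure Bdd {X : Type} [MeasurableSpace X] (f : X → ℂ) : Prop where
  meas : Measurable f
  le : ∀ x, ‖f x‖ ≤ 1

section defs

variable {X : Type} [MeasurableSpace X] {μ : Measure X}

/-- The `L²` norm. -/
noncomputable def n2 (μ : Measure X) (F : X → ℂ) : ℝ := Real.sqrt (∫ x, ‖F x‖ ^ 2 ∂μ)

/-- Complex averages over `0 ≤ n < N`. -/
noncomputable def avg (N : ℕ) (a : ℕ → ℂ) : ℂ := (∑ n ∈ range N, a n) / N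

/-- Real averages over `0 ≤ n < N`. -/
noncomputable def ravg (N : ℕ) (a : ℕ → ℝ) : ℝ := (∑ n ∈ range N, a n) / N

/-- Multiplicative derivative. -/
noncomputable def Dl (A : Act X μ) (h : ℤ) (f : X → ℂ) : X → ℂ :=
  fun x => f (A.S h x) * conj (f x)

/-- Iterated multiplicative derivative. -/
noncomputable def cub (A : Act X μ) : List ℤ → (X → ℂ) → X → ℂ
  | [], f => f
  | h :: l, f => cub A l (Dl A h f)

/-- Cube correlation of `f` with edges `l`. -/
noncomputable def Cor (A : Act X μ) (l : List ℤ) (f : X → ℂ) : ℝ := ‖∫ x, cub A l f x ∂μ‖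

/-- Iterated averages over lists of length `t` with entries in `[0, K)`. -/
noncomputable def av : ℕ → ℕ → (List ℕ → ℝ) → ℝ
  | 0, _, G => G []
  | t + 1, K, G => (∑ h ∈ range K, av t K (fun l => G (h :: l))) / K

/-- `f` is null of order `s` (vanishing of the Host-Kra seminorm of order `s + 1`). -/
def Null (A : Act X μ) (s : ℕ) (f : X → ℂ) : Prop :=
  Tendsto (fun K : ℕ => av s K (fun l => (Cor A (l.map (fun h : ℕ => (h : ℤ))) f) ^ 2))
    atTop (𝓝 0)

/-- Unimodular eigenfunctions with eigenvalue `e α`. -/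
def IsEig (A : Act X μ) (χ : X → ℂ) (α : ℝ) : Prop :=
  Measurable χ ∧ (∀ x, ‖χ x‖ = 1) ∧ ∀ᵐ x ∂μ, χ (A.S 1 x) = e α * χ x

/-- The product action on `X × X`. -/
def Act.prod (A : Act X μ) [SFinite μ] : Act (X × X) (μ.prod μ) where
  S := fun k z => (A.S k z.1, A.S k z.2)
  zero := fun z => by simp [A.zero]
  add := fun a b z => by simp [A.add]
  mp := fun a => (A.mp a).prod (A.mp a)

/-- `f ⊗ conj f` on `X × X`. -/
noncomputable def tens (f : X → ℂ) : X × X → ℂ := fun z => f z.1 * conj (f z.2)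

end defs

/-- The exponent `⌊n^c⌋²`. -/
noncomputable def sq (c : ℝ) (n : ℕ) : ℤ := ((⌊(n : ℝ) ^ c⌋₊ : ℕ) : ℤ) ^ 2

/-- positive non-integers -/
def PosNonInt (c : ℝ) : Prop := 0 < c ∧ ∀ m : ℤ, c ≠ (m : ℝ)

/-- irrational or an integer -/
def IrrOrInt (t : ℝ) : Prop := Irrational t ∨ ∃ m : ℤ, t = (m : ℝ)

/-- The coefficient of `u^d`, `d = ⌊c⌋`, in the Taylor expansion of `(n+u)^c` is
`lead c * n^(c - ⌊c⌋)`. -/
noncomputable def lead (c : ℝ) : ℝ := (∏ j ∈ range ⌊c⌋₊, (c - j)) / (⌊c⌋₊).factorial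

end Pool.Agent.JE
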