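import Pool.Agent.Helper65.JE.Defs

/-! Toolkit for MP_ce5406_an: bounded functions, the `L²` norm, averages, van der Corput. -/

open MeasureTheory Filter Topology Finset
open scoped BigOperators ComplexConjugate

namespace Pool.Agent.JE

section bdd
variable {X : Type} [MeasurableSpace X] {μ : Measure X}

theorem Bdd.mul {f g : X → ℂ} (hf : Bdd f) (hg : Bdd g) : Bdd (fun x => f x * g x) where
  meas := hf.meas.mul hg.meas
  le := fun x => by
    rw [norm_mul]
    exact mul_le_one₀ (hf.le x) (norm_nonneg _) (hg.le x)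

theorem Bdd.conj {f : X → ℂ} (hf : Bdd f) : Bdd (fun x => conj (f x)) where
  meas := Complex.continuous_conj.measurable.comp hf.meas
  le := fun x => by simpa using hf.le x

theorem Act.meas (A : Act X μ) (k : ℤ) : Measurable (A.S k) := (A.mp k).measurable

theorem Bdd.comp (A : Act X μ) {f : X → ℂ} (hf : Bdd f) (k : ℤ) : Bdd (fun x => f (A.S k x)) where
  meas := hf.meas.comp (A.meas k)
  le := fun _ => hf.le _

theorem Bdd.const {c : ℂ} (hc : ‖c‖ ≤ 1) : Bdd (fun _ : X => c) where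
  meas := measurable_const
  le := fun _ => hc

theorem Bdd.smul {f : X → ℂ} (hf : Bdd f) {c : ℂ} (hc : ‖c‖ ≤ 1) : Bdd (fun x => c * f x) :=
  (Bdd.const hc).mul hf

theorem Bdd.prod {ι : Type*} (s : Finset ι) (f : ι → X → ℂ) (h : ∀ i ∈ s, Bdd (f i)) :
    Bdd (fun x => ∏ i ∈ s, f i x) where
  meas := Finset.measurable_prod s (fun i hi => (h i hi).meas)
  le := fun x => by
    rw [norm_prod]
    exact Finset.prod_le_one (fun i _ => norm_nonneg _) (fun i hi => (h i hi).le x)

theorem norm_avg_le (N : ℕ) (a : ℕ → ℂ) : ‖avg N a‖ ≤ ravg N (fun n => ‖a n‖) := by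
  unfold avg ravg
  rw [norm_div]
  simp only [Complex.norm_natCast]
  gcongr
  exact norm_sum_le _ _

theorem ravg_mono (N : ℕ) {a b : ℕ → ℝ} (h : ∀ n < N, a n ≤ b n) : ravg N a ≤ ravg N b := by
  unfold ravg
  gcongr with n hn
  exact h n (mem_range.1 hn)

theorem ravg_const_le (N : ℕ) {c : ℝ} (hc : 0 ≤ c) : ravg N (fun _ => c) ≤ c := by
  unfold ravg
  rw [sum_const, card_range, nsmul_eq_mul]
  rcases Nat.eq_zero_or_pos N with h | h
  · subst h; simpa using hc
  · have : (0 : ℝ) < N := by exact_mod_cast h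
    rw [mul_div_assoc, mul_div_cancel₀ _ this.ne']

theorem ravg_const (N : ℕ) (hN : 1 ≤ N) (c : ℝ) : ravg N (fun _ => c) = c := by
  unfold ravg
  have : (0 : ℝ) < N := by exact_mod_cast hN
  rw [sum_const, card_range, nsmul_eq_mul]
  field_simp

theorem avg_const (N : ℕ) (hN : 1 ≤ N) (c : ℂ) : avg N (fun _ => c) = c := by
  unfold avg
  have : (N : ℂ) ≠ 0 := by exact_mod_cast (by omega : N ≠ 0)
  rw [sum_const, card_range, nsmul_eq_mul]
  field_simp

theorem ravg_le (N : ℕ) {a : ℕ → ℝ} {c : ℝ} (hc : 0 ≤ c) (h : ∀ n < N, a n ≤ c) : ravg N a ≤ c :=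
  (ravg_mono N h).trans (ravg_const_le N hc)

theorem ravg_nonneg (N : ℕ) {a : ℕ → ℝ} (h : ∀ n < N, 0 ≤ a n) : 0 ≤ ravg N a :=
  div_nonneg (sum_nonneg fun n hn => h n (mem_range.1 hn)) (Nat.cast_nonneg _)

theorem norm_avg_le_one (N : ℕ) {a : ℕ → ℂ} (h : ∀ n, ‖a n‖ ≤ 1) : ‖avg N a‖ ≤ 1 :=
  (norm_avg_le N a).trans (ravg_le N zero_le_one fun n _ => h n)

theorem Bdd.avg (N : ℕ) (v : ℕ → X → ℂ) (h : ∀ n, Bdd (v n)) :
    Bdd (fun x => avg N (fun n => v n x)) where
  meas := (Finset.measurable_sum _ (fun n _ => (h n).meas)).div_const _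
  le := fun x => norm_avg_le_one N fun n => (h n).le x

theorem Bdd.dl (A : Act X μ) {f : X → ℂ} (hf : Bdd f) (h : ℤ) : Bdd (Dl A h f) :=
  (hf.comp A h).mul hf.conj

theorem Bdd.cub (A : Act X μ) (l : List ℤ) {f : X → ℂ} (hf : Bdd f) : Bdd (cub A l f) := by
  induction l generalizing f with
  | nil => exact hf
  | cons h l ih => exact ih (hf.dl A h)

theorem Bdd.aesm {f : X → ℂ} (hf : Bdd f) : AEStronglyMeasurable f μ :=
  hf.meas.aestronglyMeasurable

theorem Bdd.integrable [IsFiniteMeasure μ] {f : X → ℂ} (hf : Bdd f) : Integrable f μ :=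
  Integrable.of_bound hf.aesm 1 (Eventually.of_forall hf.le)

theorem Bdd.norm_integral_le [IsProbabilityMeasure μ] {f : X → ℂ} (hf : Bdd f) :
    ‖∫ x, f x ∂μ‖ ≤ 1 := by
  have := norm_integral_le_of_norm_le_const (μ := μ) (Eventually.of_forall hf.le)
  simpa using this

theorem Bdd.tens {f : X → ℂ} (hf : Bdd f) : Bdd (tens f) where
  meas := (hf.meas.comp measurable_fst).mul
    (Complex.continuous_conj.measurable.comp (hf.meas.comp measurable_snd))
  le := fun z => by
    unfold Pool.Agent.JE.tens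
    rw [norm_mul]
    exact mul_le_one₀ (hf.le _) (norm_nonneg _) (by simpa using hf.le z.2)

end bdd

section bm
variable {X : Type} [MeasurableSpace X] {μ : Measure X}

/-- Measurable and bounded. -/
def BM (f : X → ℂ) : Prop := Measurable f ∧ ∃ C : ℝ, ∀ x, ‖f x‖ ≤ C

theorem Bdd.bm {f : X → ℂ} (hf : Bdd f) : BM f := ⟨hf.meas, 1, hf.le⟩

theorem BM.add {f g : X → ℂ} (hf : BM f) (hg : BM g) : BM (fun x => f x + g x) := by
  obtain ⟨C, hC⟩ := hf.2
  obtain ⟨D, hD⟩ := hg.2
  exact ⟨hf.1.add hg.1, C + D, fun x => (norm_add_le _ _).trans (add_le_add (hC x) (hD x))⟩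

theorem BM.sub {f g : X → ℂ} (hf : BM f) (hg : BM g) : BM (fun x => f x - g x) := by
  obtain ⟨C, hC⟩ := hf.2
  obtain ⟨D, hD⟩ := hg.2
  exact ⟨hf.1.sub hg.1, C + D, fun x => (norm_sub_le _ _).trans (add_le_add (hC x) (hD x))⟩

theorem BM.mul {f g : X → ℂ} (hf : BM f) (hg : BM g) : BM (fun x => f x * g x) := by
  obtain ⟨C, hC⟩ := hf.2
  obtain ⟨D, hD⟩ := hg.2
  refine ⟨hf.1.mul hg.1, C * D, fun x => ?_⟩
  rw [norm_mul]
  exact mul_le_mul (hC x) (hD x) (norm_nonneg _) ((norm_nonneg _).trans (hC x))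

theorem BM.conj {f : X → ℂ} (hf : BM f) : BM (fun x => conj (f x)) := by
  obtain ⟨C, hC⟩ := hf.2
  exact ⟨Complex.continuous_conj.measurable.comp hf.1, C, fun x => by simpa using hC x⟩

theorem BM.const (c : ℂ) : BM (fun _ : X => c) := ⟨measurable_const, ‖c‖, fun _ => le_rfl⟩

theorem BM.comp (A : Act X μ) {f : X → ℂ} (hf : BM f) (k : ℤ) : BM (fun x => f (A.S k x)) := by
  obtain ⟨C, hC⟩ := hf.2
  exact ⟨hf.1.comp (A.meas k), C, fun x => hC _⟩

theorem BM.sum {ι : Type*} (s : Finset ι) (f : ι → X → ℂ) (h : ∀ i ∈ s, BM (f i)) :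
    BM (fun x => ∑ i ∈ s, f i x) := by
  classical
  induction s using Finset.induction_on with
  | empty => simpa using BM.const (X := X) 0
  | insert a s ha ih =>
    simp only [sum_insert ha]
    exact (h a (mem_insert_self _ _)).add (ih fun i hi => h i (mem_insert_of_mem hi))

theorem BM.avg (N : ℕ) (v : ℕ → X → ℂ) (h : ∀ n, BM (v n)) :
    BM (fun x => avg N (fun n => v n x)) := by
  unfold Pool.Agent.JE.avg
  simp only [div_eq_mul_inv]
  exact (BM.sum _ _ fun n _ => h n).mul (BM.const _)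

theorem BM.memLp [IsFiniteMeasure μ] {f : X → ℂ} (hf : BM f) (p : ENNReal) : MemLp f p μ := by
  obtain ⟨C, hC⟩ := hf.2
  exact MemLp.of_bound hf.1.aestronglyMeasurable C (Eventually.of_forall hC)

theorem BM.integrable [IsFiniteMeasure μ] {f : X → ℂ} (hf : BM f) : Integrable f μ := by
  have := hf.memLp (μ := μ) 1
  exact memLp_one_iff_integrable.1 this

theorem n2_nonneg (F : X → ℂ) : 0 ≤ n2 μ F := Real.sqrt_nonneg _

theorem n2_sq (F : X → ℂ) : n2 μ F ^ 2 = ∫ x, ‖F x‖ ^ 2 ∂μ :=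
  Real.sq_sqrt (integral_nonneg fun _ => by positivity)

theorem n2_eq {F : X → ℂ} (hF : MemLp F 2 μ) : n2 μ F = (eLpNorm F 2 μ).toReal := by
  rw [hF.eLpNorm_eq_integral_rpow_norm (by norm_num) (by norm_num)]
  rw [ENNReal.toReal_ofReal (by positivity)]
  unfold n2
  rw [Real.sqrt_eq_rpow]
  simp

theorem n2_add_le [IsFiniteMeasure μ] {F G : X → ℂ} (hF : BM F) (hG : BM G) :
    n2 μ (fun x => F x + G x) ≤ n2 μ F + n2 μ G := by
  rw [n2_eq ((hF.add hG).memLp 2), n2_eq (hF.memLp 2), n2_eq (hG.memLp 2),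
    ← ENNReal.toReal_add (hF.memLp 2).2.ne (hG.memLp 2).2.ne]
  refine ENNReal.toReal_mono
    (ENNReal.add_ne_top.2 ⟨(hF.memLp (μ := μ) 2).2.ne, (hG.memLp (μ := μ) 2).2.ne⟩) ?_
  exact eLpNorm_add_le (hF.memLp 2).1 (hG.memLp 2).1 (by norm_num)

theorem n2_smul (c : ℂ) (F : X → ℂ) : n2 μ (fun x => c * F x) = ‖c‖ * n2 μ F := by
  unfold n2
  have : (fun x => ‖c * F x‖ ^ 2) = fun x => ‖c‖ ^ 2 * ‖F x‖ ^ 2 := by
    ext x; rw [norm_mul, mul_pow]
  rw [this, integral_const_mul, Real.sqrt_mul (by positivity), Real.sqrt_sq (norm_nonneg _)]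

theorem n2_sub_le [IsFiniteMeasure μ] {F G : X → ℂ} (hF : BM F) (hG : BM G) :
    n2 μ (fun x => F x - G x) ≤ n2 μ F + n2 μ G := by
  have h := n2_add_le (μ := μ) hF ((BM.const (-1 : ℂ)).mul hG)
  rw [n2_smul] at h
  simpa [sub_eq_add_neg] using h

theorem n2_mono [IsFiniteMeasure μ] {F G : X → ℂ} (hG : BM G)
    (h : ∀ᵐ x ∂μ, ‖F x‖ ≤ ‖G x‖) : n2 μ F ≤ n2 μ G := by
  refine Real.sqrt_le_sqrt ?_
  refine integral_mono_of_nonneg (Eventually.of_forall fun x => by positivity) ?_ ?_
  · have := (hG.mul hG.conj).integrable (μ := μ) |>.norm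
    refine this.congr (Eventually.of_forall fun x => ?_)
    simp [pow_two]
  · filter_upwards [h] with x hx
    gcongr

theorem n2_congr {F G : X → ℂ} (h : ∀ᵐ x ∂μ, F x = G x) : n2 μ F = n2 μ G := by
  unfold n2
  congr 1
  refine integral_congr_ae ?_
  filter_upwards [h] with x hx
  rw [hx]

theorem n2_comp (A : Act X μ) {F : X → ℂ} (hF : BM F) (k : ℤ) :
    n2 μ (fun x => F (A.S k x)) = n2 μ F := by
  unfold n2
  congr 1
  have h : Measurable fun x => ‖F x‖ ^ 2 := hF.1.norm.pow_const 2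
  have := integral_map (A.meas k).aemeasurable
    (h.aestronglyMeasurable : AEStronglyMeasurable (fun x => ‖F x‖ ^ 2) (Measure.map (A.S k) μ))
  rw [(A.mp k).map_eq] at this
  exact this.symm

theorem integral_comp (A : Act X μ) {F : X → ℂ} (hF : Measurable F) (k : ℤ) :
    ∫ x, F (A.S k x) ∂μ = ∫ x, F x ∂μ := by
  have := integral_map (A.meas k).aemeasurable
    (hF.aestronglyMeasurable : AEStronglyMeasurable F (Measure.map (A.S k) μ))
  rw [(A.mp k).map_eq] at this
  exact this.symm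

theorem n2_le_one [IsProbabilityMeasure μ] {F : X → ℂ} (hF : ∀ x, ‖F x‖ ≤ 1) : n2 μ F ≤ 1 := by
  unfold n2
  rw [Real.sqrt_le_one]
  have : ‖∫ x, ‖F x‖ ^ 2 ∂μ‖ ≤ 1 * (μ Set.univ).toReal := by
    refine norm_integral_le_of_norm_le_const (Eventually.of_forall fun x => ?_)
    rw [norm_pow, norm_norm]
    exact pow_le_one₀ (norm_nonneg _) (hF x)
  simp only [measure_univ, ENNReal.toReal_one, mul_one] at this
  exact (le_abs_self _).trans this

theorem n2_const [IsProbabilityMeasure μ] (c : ℂ) : n2 μ (fun _ : X => c) = ‖c‖ := by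
  unfold n2
  simp

/-- Cauchy-Schwarz. -/
theorem norm_integral_mul_le [IsFiniteMeasure μ] {F G : X → ℂ} (hF : BM F) (hG : BM G) :
    ‖∫ x, F x * G x ∂μ‖ ≤ n2 μ F * n2 μ G := by
  refine (norm_integral_le_integral_norm _).trans ?_
  simp only [norm_mul]
  have hpq : (2 : ℝ).HolderConjugate 2 := by
    rw [Real.holderConjugate_iff]; norm_num
  have h2 : ENNReal.ofReal 2 = 2 := by norm_num
  have := integral_mul_norm_le_Lp_mul_Lq (μ := μ) hpq (f := F) (g := G)
    (by rw [h2]; exact hF.memLp 2) (by rw [h2]; exact hG.memLp 2)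
  refine this.trans (le_of_eq ?_)
  unfold n2
  rw [Real.sqrt_eq_rpow, Real.sqrt_eq_rpow]
  simp

theorem norm_integral_le_n2 [IsProbabilityMeasure μ] {F : X → ℂ} (hF : BM F) :
    ‖∫ x, F x ∂μ‖ ≤ n2 μ F := by
  have := norm_integral_mul_le (μ := μ) hF (BM.const (1 : ℂ))
  simpa [n2_const] using this

theorem n2_mul_le [IsFiniteMeasure μ] {F G : X → ℂ} (hF : ∀ x, ‖F x‖ ≤ 1) (hG : BM G) :
    n2 μ (fun x => F x * G x) ≤ n2 μ G := by
  refine n2_mono hG (Eventually.of_forall fun x => ?_)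
  rw [norm_mul]
  exact mul_le_of_le_one_left (norm_nonneg _) (hF x)

theorem n2_sum_le [IsFiniteMeasure μ] {ι : Type*} (s : Finset ι) (f : ι → X → ℂ)
    (h : ∀ i ∈ s, BM (f i)) : n2 μ (fun x => ∑ i ∈ s, f i x) ≤ ∑ i ∈ s, n2 μ (f i) := by
  classical
  induction s using Finset.induction_on with
  | empty => simp [n2]
  | insert a s ha ih =>
    simp only [sum_insert ha]
    refine (n2_add_le (h a (mem_insert_self _ _))
      (BM.sum _ _ fun i hi => h i (mem_insert_of_mem hi))).trans ?_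
    gcongr
    exact ih fun i hi => h i (mem_insert_of_mem hi)

theorem n2_avg_le [IsFiniteMeasure μ] (N : ℕ) (v : ℕ → X → ℂ) (h : ∀ n, BM (v n)) :
    n2 μ (fun x => avg N (fun n => v n x)) ≤ ravg N (fun n => n2 μ (v n)) := by
  unfold avg ravg
  have h1 : (fun x => (∑ n ∈ range N, v n x) / (N : ℂ)) =
      fun x => (N : ℂ)⁻¹ * ∑ n ∈ range N, v n x := by
    ext x; rw [div_eq_inv_mul]
  rw [h1, n2_smul, norm_inv, Complex.norm_natCast, div_eq_inv_mul]
  gcongr
  exact n2_sum_le _ _ fun n _ => h n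

end bm

section averages

theorem avg_add (N : ℕ) (a b : ℕ → ℂ) : avg N (fun n => a n + b n) = avg N a + avg N b := by
  unfold avg; rw [sum_add_distrib, add_div]

theorem avg_sub (N : ℕ) (a b : ℕ → ℂ) : avg N (fun n => a n - b n) = avg N a - avg N b := by
  unfold avg; rw [sum_sub_distrib, sub_div]

theorem avg_mul (N : ℕ) (c : ℂ) (a : ℕ → ℂ) : avg N (fun n => c * a n) = c * avg N a := by
  unfold avg; rw [← mul_sum, mul_div_assoc]

theorem avg_mul_right (N : ℕ) (c : ℂ) (a : ℕ → ℂ) : avg N (fun n => a n * c) = avg N a * c := by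
  unfold avg; rw [← sum_mul, div_mul_eq_mul_div]

theorem ravg_add (N : ℕ) (a b : ℕ → ℝ) : ravg N (fun n => a n + b n) = ravg N a + ravg N b := by
  unfold ravg; rw [sum_add_distrib, add_div]

theorem ravg_mul (N : ℕ) (c : ℝ) (a : ℕ → ℝ) : ravg N (fun n => c * a n) = c * ravg N a := by
  unfold ravg; rw [← mul_sum, mul_div_assoc]

theorem conj_avg (N : ℕ) (a : ℕ → ℂ) : conj (avg N a) = avg N (fun n => conj (a n)) := by
  unfold avg; rw [map_div₀, map_sum, Complex.conj_natCast]

theorem avg_comm (N M : ℕ) (a : ℕ → ℕ → ℂ) :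
    avg N (fun n => avg M (fun m => a n m)) = avg M (fun m => avg N (fun n => a n m)) := by
  unfold avg
  simp only [← sum_div]
  rw [sum_comm]
  ring

theorem ravg_comm (N M : ℕ) (a : ℕ → ℕ → ℝ) :
    ravg N (fun n => ravg M (fun m => a n m)) = ravg M (fun m => ravg N (fun n => a n m)) := by
  unfold ravg
  simp only [← sum_div]
  rw [sum_comm]
  ring

/-- Shifting an average. -/
theorem avg_shift (N h : ℕ) (a : ℕ → ℂ) (C : ℝ) (ha : ∀ n, ‖a n‖ ≤ C) :
    ‖avg N (fun n => a (n + h)) - avg N a‖ ≤ 2 * C * h / N := by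
  have hC : 0 ≤ C := (norm_nonneg _).trans (ha 0)
  unfold avg
  rw [← sub_div, norm_div, Complex.norm_natCast]
  have key : ∑ n ∈ range N, a (n + h) - ∑ n ∈ range N, a n =
      ∑ n ∈ range h, a (N + n) - ∑ n ∈ range h, a n := by
    have h1 : ∑ n ∈ range (h + N), a n = ∑ n ∈ range h, a n + ∑ n ∈ range N, a (h + n) :=
      sum_range_add _ _ _
    have h2 : ∑ n ∈ range (N + h), a n = ∑ n ∈ range N, a n + ∑ n ∈ range h, a (N + n) :=
      sum_range_add _ _ _
    rw [add_comm h N] at h1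
    have h3 : ∑ n ∈ range N, a (n + h) = ∑ n ∈ range N, a (h + n) :=
      sum_congr rfl fun n _ => by rw [add_comm]
    rw [h3]
    linear_combination h2 - h1
  have h4 : ‖∑ n ∈ range N, a (n + h) - ∑ n ∈ range N, a n‖ ≤ 2 * C * h := by
    rw [key]
    refine (norm_sub_le _ _).trans ?_
    have h5 : ∀ b : ℕ → ℂ, (∀ n, ‖b n‖ ≤ C) → ‖∑ n ∈ range h, b n‖ ≤ h * C := fun b hb => by
      refine (norm_sum_le _ _).trans ?_
      refine (sum_le_sum fun n _ => hb n).trans ?_
      simp
    have := h5 (fun n => a (N + n)) fun n => ha _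
    have := h5 a ha
    linarith
  gcongr

theorem ravg_shift (N h : ℕ) (a : ℕ → ℝ) (C : ℝ) (ha : ∀ n, |a n| ≤ C) :
    |ravg N (fun n => a (n + h)) - ravg N a| ≤ 2 * C * h / N := by
  have := avg_shift N h (fun n => (a n : ℂ)) C (fun n => by simpa using ha n)
  have h1 : avg N (fun n => ((a (n + h) : ℝ) : ℂ)) - avg N (fun n => (a n : ℂ)) =
      ((ravg N (fun n => a (n + h)) - ravg N a : ℝ) : ℂ) := by
    unfold avg ravg; push_cast; ring
  rw [h1, Complex.norm_real, Real.norm_eq_abs] at this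
  exact this

theorem ravg_sq_le (N : ℕ) (a : ℕ → ℝ) : (ravg N a) ^ 2 ≤ ravg N (fun n => a n ^ 2) := by
  unfold ravg
  rcases Nat.eq_zero_or_pos N with h | h
  · subst h; simp
  have hN : (0 : ℝ) < N := by exact_mod_cast h
  have := sq_sum_le_card_mul_sum_sq (s := range N) (f := a)
  rw [card_range] at this
  rw [div_pow, div_le_div_iff₀ (by positivity) hN]
  nlinarith [this, sq_nonneg (∑ n ∈ range N, a n)]

theorem ravg_pow_le (N k : ℕ) (a : ℕ → ℝ) (ha : ∀ n < N, 0 ≤ a n) :
    (ravg N a) ^ (2 ^ k) ≤ ravg N (fun n => a n ^ (2 ^ k)) := by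
  induction k with
  | zero => simp
  | succ k ih =>
    rw [pow_succ, pow_mul]
    calc ((ravg N a) ^ 2 ^ k) ^ 2 ≤ (ravg N (fun n => a n ^ (2 ^ k))) ^ 2 := by
          have := ravg_nonneg N ha
          gcongr
      _ ≤ ravg N (fun n => (a n ^ (2 ^ k)) ^ 2) := ravg_sq_le _ _
      _ = _ := by simp only [← pow_mul]

theorem add_pow_le (k : ℕ) {x y : ℝ} (hx : 0 ≤ x) (hy : 0 ≤ y) :
    (x + y) ^ (2 ^ k) ≤ 2 ^ (2 ^ k) * (x ^ (2 ^ k) + y ^ (2 ^ k)) := by
  rcases le_total x y with h | h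
  · calc (x + y) ^ (2 ^ k) ≤ (2 * y) ^ (2 ^ k) := by gcongr; linarith
      _ = 2 ^ (2 ^ k) * y ^ (2 ^ k) := mul_pow _ _ _
      _ ≤ _ := by gcongr; linarith [pow_nonneg hx (2 ^ k)]
  · calc (x + y) ^ (2 ^ k) ≤ (2 * x) ^ (2 ^ k) := by gcongr; linarith
      _ = 2 ^ (2 ^ k) * x ^ (2 ^ k) := mul_pow _ _ _
      _ ≤ _ := by gcongr; linarith [pow_nonneg hy (2 ^ k)]

end averages

section vdc
variable {X : Type} [MeasurableSpace X] {μ : Measure X}

theorem norm_avg_sq_le (N : ℕ) (a : ℕ → ℂ) : ‖avg N a‖ ^ 2 ≤ ravg N (fun n => ‖a n‖ ^ 2) :=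
  (pow_le_pow_left₀ (norm_nonneg _) (norm_avg_le N a) 2).trans (ravg_sq_le _ _)

theorem integral_avg [IsFiniteMeasure μ] (N : ℕ) (v : ℕ → X → ℂ) (h : ∀ n, BM (v n)) :
    ∫ x, avg N (fun n => v n x) ∂μ = avg N (fun n => ∫ x, v n x ∂μ) := by
  unfold avg
  rw [integral_div, integral_finsetSum _ fun n _ => (h n).integrable]

theorem sum_absdiff_le (H h : ℕ) (hh : h < H) (F : ℕ → ℝ) (hF : ∀ k, 0 ≤ F k) :
    ∑ h' ∈ range H, F ((h - h') + (h' - h)) ≤ 2 * ∑ k ∈ range H, F k := by
  have h1 : range H = range (h + 1) ∪ (range H).filter (fun k => h < k) := by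
    ext k; simp only [mem_union, mem_range, mem_filter]; omega
  have h2 : Disjoint (range (h + 1)) ((range H).filter (fun k => h < k)) := by
    rw [disjoint_left]; intro k; simp only [mem_range, mem_filter]; omega
  rw [h1, sum_union h2, ← h1, two_mul]
  refine add_le_add ?_ ?_
  · calc ∑ h' ∈ range (h + 1), F ((h - h') + (h' - h)) = ∑ h' ∈ range (h + 1), F (h - h') := by
          refine sum_congr rfl fun k hk => ?_
          have := mem_range.1 hk
          congr 1; omega
      _ = ∑ k ∈ range (h + 1), F k := by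
          rw [← sum_range_reflect]
          refine sum_congr rfl fun k hk => ?_
          have := mem_range.1 hk
          congr 1; omega
      _ ≤ ∑ k ∈ range H, F k :=
          sum_le_sum_of_subset_of_nonneg (range_subset_range.2 hh) fun k _ _ => hF k
  · calc ∑ h' ∈ (range H).filter (fun k => h < k), F ((h - h') + (h' - h))
          = ∑ k ∈ ((range H).filter (fun k => h < k)).image (fun k => k - h), F k := by
          rw [sum_image]
          · refine sum_congr rfl fun k hk => ?_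
            have := (mem_filter.1 hk).2
            congr 1; omega
          · intro a ha b hb hab
            have h3 := (mem_filter.1 ha).2
            have h4 := (mem_filter.1 hb).2
            simp only at hab
            omega
      _ ≤ ∑ k ∈ range H, F k := by
          refine sum_le_sum_of_subset_of_nonneg ?_ fun k _ _ => hF k
          intro k hk
          obtain ⟨a, ha, rfl⟩ := mem_image.1 hk
          have := mem_range.1 (mem_filter.1 ha).1
          exact mem_range.2 (by omega)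

/-- The van der Corput inequality. -/
theorem vdc [IsProbabilityMeasure μ] (v : ℕ → X → ℂ) (hv : ∀ s, Bdd (v s)) (H N : ℕ)
    (hH : 1 ≤ H) (hN : 1 ≤ N) :
    n2 μ (fun x => avg N (fun s => v s x)) ^ 2 ≤
      2 * ravg H (fun h => ‖avg N (fun s => ∫ x, v (s + h) x * conj (v s x) ∂μ)‖) + 6 * H / N := by
  have hN0 : (0 : ℝ) < N := by exact_mod_cast hN
  have hH0 : (0 : ℝ) < H := by exact_mod_cast hH
  set b : X → ℂ := fun x => avg N (fun s => avg H (fun h => v (s + h) x)) with hb
  have hbB : Bdd b := Bdd.avg N _ fun s => Bdd.avg H _ fun h => hv _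
  have haB : Bdd (fun x => avg N (fun s => v s x)) := Bdd.avg N _ hv
  -- step 1
  have h1 : ∀ x, ‖avg N (fun s => v s x) - b x‖ ≤ 2 * H / N := by
    intro x
    have e1 : b x = avg H (fun h => avg N (fun s => v (s + h) x)) := avg_comm _ _ _
    have e2 : avg N (fun s => v s x) = avg H (fun _ => avg N (fun s => v s x)) :=
      (avg_const H hH _).symm
    rw [e1, e2, ← avg_sub]
    refine (norm_avg_le _ _).trans (ravg_le _ (by positivity) fun h hh => ?_)
    rw [norm_sub_rev]
    refine (avg_shift N h (fun s => v s x) 1 fun n => (hv n).le x).trans ?_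
    have : (h : ℝ) ≤ H := by exact_mod_cast hh.le
    rw [mul_one]
    gcongr
  have h2 : ∀ x, ‖avg N (fun s => v s x)‖ ^ 2 ≤ ‖b x‖ ^ 2 + 4 * H / N := by
    intro x
    have e1 := h1 x
    have e2 := haB.le x
    have e3 := hbB.le x
    have e4 : ‖avg N (fun s => v s x)‖ ≤ ‖b x‖ + 2 * H / N := by
      have := norm_sub_norm_le (avg N (fun s => v s x)) (b x)
      linarith
    have e5 : (0 : ℝ) ≤ 2 * H / N := by positivity
    have e6 : 4 * (H : ℝ) / N = 2 * (2 * H / N) := by ring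
    rw [e6]
    nlinarith [norm_nonneg (b x), norm_nonneg (avg N (fun s => v s x))]
  have hint : ∀ F : X → ℂ, Bdd F → Integrable (fun x => ‖F x‖ ^ 2) μ := fun F hF => by
    have := ((hF.mul hF.conj).integrable (μ := μ)).norm
    refine this.congr (Eventually.of_forall fun x => ?_)
    simp [pow_two]
  have h3 : n2 μ (fun x => avg N (fun s => v s x)) ^ 2 ≤ (∫ x, ‖b x‖ ^ 2 ∂μ) + 4 * H / N := by
    rw [n2_sq]
    calc ∫ x, ‖avg N (fun s => v s x)‖ ^ 2 ∂μ ≤ ∫ x, (‖b x‖ ^ 2 + 4 * H / N) ∂μ :=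
          integral_mono (hint _ haB) ((hint _ hbB).add (integrable_const _)) h2
      _ = _ := by
          rw [integral_add (hint _ hbB) (integrable_const _)]
          simp
  -- step 2
  have hcB : ∀ s, Bdd (fun x => avg H (fun h => v (s + h) x)) := fun s =>
    Bdd.avg H _ fun h => hv _
  have h4 : ∫ x, ‖b x‖ ^ 2 ∂μ ≤
      ravg N (fun s => ∫ x, ‖avg H (fun h => v (s + h) x)‖ ^ 2 ∂μ) := by
    calc ∫ x, ‖b x‖ ^ 2 ∂μ ≤ ∫ x, ravg N (fun s => ‖avg H (fun h => v (s + h) x)‖ ^ 2) ∂μ := by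
          refine integral_mono (hint _ hbB) ?_ fun x => norm_avg_sq_le _ _
          unfold ravg
          exact (integrable_finsetSum _ fun s _ => hint _ (hcB s)).div_const _
      _ = _ := by
          unfold ravg
          rw [integral_div, integral_finsetSum _ fun s _ => hint _ (hcB s)]
  -- step 3
  set I : ℕ → ℕ → ℕ → ℂ := fun s h h' => ∫ x, v (s + h) x * conj (v (s + h') x) ∂μ with hI
  have hBI : ∀ s h h', Bdd (fun x => v (s + h) x * conj (v (s + h') x)) := fun s h h' =>
    (hv _).mul (hv _).conj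
  have h5 : ∀ s, ((∫ x, ‖avg H (fun h => v (s + h) x)‖ ^ 2 ∂μ : ℝ) : ℂ) =
      avg H (fun h => avg H (fun h' => I s h h')) := by
    intro s
    have e1 : ∀ x, ((‖avg H (fun h => v (s + h) x)‖ ^ 2 : ℝ) : ℂ) =
        avg H (fun h => avg H (fun h' => v (s + h) x * conj (v (s + h') x))) := by
      intro x
      push_cast
      rw [← Complex.mul_conj', conj_avg, ← avg_mul_right]
      congr 1
      ext h
      rw [← avg_mul]
    rw [← integral_complex_ofReal]
    simp only [e1]
    rw [integral_avg _ _ fun h => BM.avg _ _ fun h' => (hBI s h h').bm]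
    congr 1
    ext h
    rw [integral_avg _ _ fun h' => (hBI s h h').bm]
  have h6 : ravg N (fun s => ∫ x, ‖avg H (fun h => v (s + h) x)‖ ^ 2 ∂μ) ≤
      ravg H (fun h => ravg H (fun h' => ‖avg N (fun s => I s h h')‖)) := by
    have e1 : ((ravg N (fun s => ∫ x, ‖avg H (fun h => v (s + h) x)‖ ^ 2 ∂μ) : ℝ) : ℂ) =
        avg H (fun h => avg H (fun h' => avg N (fun s => I s h h'))) := by
      have : ((ravg N (fun s => ∫ x, ‖avg H (fun h => v (s + h) x)‖ ^ 2 ∂μ) : ℝ) : ℂ) =
          avg N (fun s => avg H (fun h => avg H (fun h' => I s h h'))) := by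
        simp only [← h5]
        unfold ravg avg
        push_cast
        rfl
      rw [this, avg_comm]
      congr 1
      ext h
      rw [avg_comm]
    have e2 : 0 ≤ ravg N (fun s => ∫ x, ‖avg H (fun h => v (s + h) x)‖ ^ 2 ∂μ) :=
      ravg_nonneg _ fun s _ => integral_nonneg fun x => by positivity
    rw [← abs_of_nonneg e2, ← Real.norm_eq_abs, ← Complex.norm_real, e1]
    refine (norm_avg_le _ _).trans (ravg_mono _ fun h _ => norm_avg_le _ _)
  -- step 4
  set G : ℕ → ℝ := fun k => ‖avg N (fun s => ∫ x, v (s + k) x * conj (v s x) ∂μ)‖ with hG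
  have hg1 : ∀ k s, ‖∫ x, v (s + k) x * conj (v s x) ∂μ‖ ≤ 1 := fun k s => by
    simpa using (hBI s k 0).norm_integral_le (μ := μ)
  have hge : ∀ h h', h' ≤ h → h' < H →
      ‖avg N (fun s => I s h h')‖ ≤ G (h - h') + 2 * H / N := by
    intro h h' hle hlt
    have e1 : (fun s => I s h h') =
        fun s => (fun s => ∫ x, v (s + (h - h')) x * conj (v s x) ∂μ) (s + h') := by
      ext s
      simp only [hI]
      rw [show s + h' + (h - h') = s + h by omega]
    have e2 := avg_shift N h' (fun s => ∫ x, v (s + (h - h')) x * conj (v s x) ∂μ) 1 (hg1 _)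
    rw [e1]
    have e3 := norm_sub_norm_le
      (avg N (fun s => (fun s => ∫ x, v (s + (h - h')) x * conj (v s x) ∂μ) (s + h')))
      (avg N (fun s => ∫ x, v (s + (h - h')) x * conj (v s x) ∂μ))
    have e4 : (h' : ℝ) ≤ H := by exact_mod_cast hlt.le
    have e5 : 2 * 1 * (h' : ℝ) / N ≤ 2 * H / N := by rw [mul_one]; gcongr
    linarith
  have h7 : ∀ h < H, ∀ h' < H,
      ‖avg N (fun s => I s h h')‖ ≤ G ((h - h') + (h' - h)) + 2 * H / N := by
    intro h hh h' hh'
    rcases le_total h' h with hle | hle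
    · have := hge h h' hle hh'
      rwa [show (h - h') + (h' - h) = h - h' by omega]
    · have := hge h' h hle hh
      rw [show (h - h') + (h' - h) = h' - h by omega]
      have e1 : ‖avg N (fun s => I s h h')‖ = ‖avg N (fun s => I s h' h)‖ := by
        have : avg N (fun s => I s h h') = conj (avg N (fun s => I s h' h)) := by
          rw [conj_avg]
          congr 1
          ext s
          simp only [hI]
          rw [← integral_conj]
          congr 1
          ext x
          simp [mul_comm]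
        rw [this]
        exact RCLike.norm_conj _
      rw [e1]; exact this
  have h8 : ravg H (fun h => ravg H (fun h' => ‖avg N (fun s => I s h h')‖)) ≤
      2 * ravg H G + 2 * H / N := by
    calc _ ≤ ravg H (fun h => ravg H (fun h' => G ((h - h') + (h' - h)) + 2 * H / N)) :=
          ravg_mono _ fun h hh => ravg_mono _ fun h' hh' => h7 h hh h' hh'
      _ = ravg H (fun h => ravg H (fun h' => G ((h - h') + (h' - h)))) + 2 * H / N := by
          simp only [ravg_add, ravg_const _ hH]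
      _ ≤ ravg H (fun _ => 2 * ravg H G) + 2 * H / N := by
          gcongr
          refine ravg_mono _ fun h hh => ?_
          unfold ravg
          rw [← mul_div_assoc]
          gcongr
          exact sum_absdiff_le H h hh G fun k => norm_nonneg _
      _ = _ := by rw [ravg_const _ hH]
  have h9 : (6 : ℝ) * H / N = 2 * H / N + 4 * H / N := by ring
  rw [h9]
  linarith [h3, h4, h6, h8]

end vdc

end Pool.Agent.JE
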