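import Pool.Agent.Helper65.JE.Kit

/-! Sub-sums of lists (MP_ce5406_an). -/

namespace Pool.Agent.JE

/-- nonempty sub-sums -/
def ns {M : Type*} [Add M] : List M → List M
  | [] => []
  | h :: l => ns l ++ h :: (ns l).map (fun w => h + w)

/-- all nonempty sub-sums are nonzero -/
def NZ (L : List ℤ) : Prop := ∀ w ∈ ns L, w ≠ 0

end Pool.Agent.JE
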