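import Pool.Agent.Helper65.JE.Pet
import Pool.Agent.Helper65.JE.NS

/-! Upper limits of averages and windows (for T13, MP_ce5406_an). -/

open MeasureTheory Filter Topology Finset
open scoped BigOperators ComplexConjugate

namespace Pool.Agent.JE

/-- The upper limit of the averages of `u` is at most `a`. -/
def LS (u : ℕ → ℝ) (a : ℝ) : Prop := ∀ δ > 0, ∀ᶠ N : ℕ in atTop, ravg N u ≤ a + δ

theorem LS.add {u v : ℕ → ℝ} {a b : ℝ} (hu : LS u a) (hv : LS v b) :
    LS (fun n => u n + v n) (a + b) := by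
  intro δ hδ
  filter_upwards [hu (δ / 2) (by positivity), hv (δ / 2) (by positivity)] with N h1 h2
  rw [ravg_add]; linarith

theorem LS.const_mul {u : ℕ → ℝ} {a : ℝ} (c : ℝ) (hc : 0 ≤ c) (hu : LS u a) :
    LS (fun n => c * u n) (c * a) := by
  intro δ hδ
  filter_upwards [hu (δ / (c + 1)) (by positivity)] with N h1
  rw [ravg_mul]
  have h2 : c * (δ / (c + 1)) ≤ δ := by
    rw [mul_div_assoc', div_le_iff₀ (by positivity)]; nlinarith
  have h3 : c * ravg N u ≤ c * (a + δ / (c + 1)) := mul_le_mul_of_nonneg_left h1 hc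
  linarith

theorem LS.of_tendsto {u : ℕ → ℝ} {a : ℝ} (h : Tendsto (fun N => ravg N u) atTop (𝓝 a)) :
    LS u a := by
  intro δ hδ
  have := h.eventually (gt_mem_nhds (show a < a + δ by linarith))
  exact this.mono fun N hN => le_of_lt hN

theorem LS.mono {u v : ℕ → ℝ} {a b : ℝ} (hv : LS v a) (h : ∀ n, u n ≤ v n) (hab : a ≤ b) :
    LS u b := by
  intro δ hδ
  filter_upwards [hv δ hδ] with N h1
  have := ravg_mono N fun n (_ : n < N) => h n
  linarith

theorem LS.const (c : ℝ) : LS (fun _ => c) c := by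
  intro δ hδ
  filter_upwards [eventually_ge_atTop 1] with N hN
  rw [ravg_const N hN]; linarith

theorem LS.sum {ι : Type*} (s : Finset ι) (u : ι → ℕ → ℝ) (a : ι → ℝ)
    (h : ∀ i ∈ s, LS (u i) (a i)) : LS (fun n => ∑ i ∈ s, u i n) (∑ i ∈ s, a i) := by
  classical
  induction s using Finset.induction_on with
  | empty => simpa using LS.const 0
  | insert i s hi ih =>
    simp only [sum_insert hi]
    exact (h i (mem_insert_self _ _)).add (ih fun j hj => h j (mem_insert_of_mem hj))

theorem LS.sum_zero {ι : Type*} (s : Finset ι) (u : ι → ℕ → ℝ)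
    (h : ∀ i ∈ s, LS (u i) 0) : LS (fun n => ∑ i ∈ s, u i n) 0 := by
  have := LS.sum s u (fun _ => 0) h
  simpa using this

theorem LS.shift {u : ℕ → ℝ} {a : ℝ} (hu : LS u a) (h : ℕ) (C : ℝ) (hC : ∀ n, |u n| ≤ C) :
    LS (fun n => u (n + h)) a := by
  intro δ hδ
  have h1 : Tendsto (fun N : ℕ => 2 * C * h / (N : ℝ)) atTop (𝓝 0) :=
    tendsto_const_div_atTop_nhds_zero_nat _
  filter_upwards [hu (δ / 2) (by positivity),
    h1.eventually (gt_mem_nhds (show (0 : ℝ) < δ / 2 by positivity))] with N h2 h3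
  have := (abs_le.1 (ravg_shift N h u C hC)).2
  linarith

/-- changing finitely many terms -/
theorem LS.ind (n₀ : ℕ) : LS (fun n => if n < n₀ then 1 else 0) 0 := by
  intro δ hδ
  have h1 : Tendsto (fun N : ℕ => (n₀ : ℝ) / (N : ℝ)) atTop (𝓝 0) :=
    tendsto_const_div_atTop_nhds_zero_nat _
  filter_upwards [h1.eventually (gt_mem_nhds hδ)] with N h3
  refine le_trans ?_ (by linarith : (n₀ : ℝ) / N ≤ 0 + δ)
  unfold ravg
  gcongr
  rw [sum_ite]
  simp only [sum_const, nsmul_eq_mul, mul_one, mul_zero, add_zero]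
  have : (filter (fun n => n < n₀) (range N)).card ≤ n₀ := by
    calc _ ≤ (range n₀).card := card_le_card fun n hn => by
          simpa using (mem_filter.1 hn).2
      _ = n₀ := card_range _
  exact_mod_cast this

theorem LS.av (t K : ℕ) (G : ℕ → List ℕ → ℝ)
    (h : ∀ l : List ℕ, l.length = t → LS (fun n => G n l) 0) :
    LS (fun n => av t K (G n)) 0 := by
  induction t generalizing G with
  | zero => exact h [] rfl
  | succ t ih =>
    simp only [av_succ]
    have h1 := LS.sum_zero (range K)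
      (fun h' n => Pool.Agent.JE.av t K (fun l => G n (h' :: l)))
      (fun h' _ => ih _ fun l hl => h (h' :: l) (by simp [hl]))
    have h2 := h1.const_mul ((K : ℝ)⁻¹) (by positivity)
    rw [mul_zero] at h2
    refine h2.mono (fun n => ?_) le_rfl
    unfold ravg
    rw [div_eq_inv_mul]

theorem av_const_mul (t K : ℕ) (c : ℝ) (G : List ℕ → ℝ) :
    av t K (fun l => c * G l) = c * av t K G := by
  induction t generalizing G with
  | zero => rfl
  | succ t ih =>
    simp only [av_succ, ih, ravg_mul]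

theorem av_list_sum {α : Type*} (t K : ℕ) (hK : 1 ≤ K) (L : List α) (G : α → List ℕ → ℝ) :
    av t K (fun l => (L.map (fun a => G a l)).sum) = (L.map (fun a => av t K (G a))).sum := by
  induction L with
  | nil => simpa using av_const t K hK 0
  | cons a L ih => simp only [List.map_cons, List.sum_cons, av_add, ih]

/-- Combining an exponent bound with an error. -/
theorem root_bound (k : ℕ) (U θ δ Y : ℝ) (hU1 : U ≤ 1) (hθ : 0 < θ)
    (hδ : δ ≤ θ ^ (2 ^ k) / 2) (hY : 0 ≤ Y) (h : U ^ (2 ^ k) ≤ δ + Y) :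
    U ≤ θ + 2 / θ ^ (2 ^ k) * Y := by
  have hp : 0 < θ ^ (2 ^ k) := by positivity
  rcases le_or_gt U θ with h1 | h1
  · have : 0 ≤ 2 / θ ^ (2 ^ k) * Y := by positivity
    linarith
  · have h2 : θ ^ (2 ^ k) ≤ U ^ (2 ^ k) := pow_le_pow_left₀ hθ.le h1.le _
    have h3 : θ ^ (2 ^ k) / 2 ≤ Y := by linarith
    have h4 : 1 ≤ 2 / θ ^ (2 ^ k) * Y := by
      rw [div_mul_eq_mul_div, le_div_iff₀ hp]
      linarith
    linarith

section window
variable {X : Type} [MeasurableSpace X] {μ : Measure X} [IsProbabilityMeasure μ]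

/-- Window average split along progressions. -/
theorem window_split (W l M : ℕ) (hW : 1 ≤ W) (hl : 1 ≤ l) (ε : ℝ) (Q : Finset (ℕ × ℕ))
    (hQ : ∀ q ∈ Q, q.1 + q.2 * (M * (l - 1)) < W)
    (hinj : Set.InjOn (fun x : (ℕ × ℕ) × ℕ => x.1.1 + x.1.2 * (M * x.2))
      {x | x.1 ∈ Q ∧ x.2 < l})
    (hcov : (1 - ε) * W ≤ Q.card * l) (F : ℕ → X → ℂ) (hF : ∀ n, Bdd (F n)) :
    n2 μ (fun x => avg W (fun u => F u x)) ≤
      ε + (l : ℝ) / W * ∑ q ∈ Q, n2 μ (fun x => avg l (fun s => F (q.1 + q.2 * (M * s)) x)) := by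
  classical
  have hW0 : (0 : ℝ) < W := by exact_mod_cast hW
  have hl0 : (0 : ℝ) < l := by exact_mod_cast hl
  set φ : (ℕ × ℕ) × ℕ → ℕ := fun x => x.1.1 + x.1.2 * (M * x.2) with hφ
  set T : Finset ℕ := (Q ×ˢ range l).image φ with hT
  have hinj' : ∀ x ∈ Q ×ˢ range l, ∀ y ∈ Q ×ˢ range l, φ x = φ y → x = y := by
    intro x hx y hy hxy
    rw [mem_product, mem_range] at hx hy
    exact hinj ⟨hx.1, hx.2⟩ ⟨hy.1, hy.2⟩ hxy
  have hTW : T ⊆ range W := by
    intro u hu
    obtain ⟨x, hx, rfl⟩ := mem_image.1 hu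
    rw [mem_product, mem_range] at hx
    refine mem_range.2 (lt_of_le_of_lt ?_ (hQ x.1 hx.1))
    have : x.2 ≤ l - 1 := by omega
    simp only [hφ]
    gcongr
  have hTc : T.card = Q.card * l := by
    rw [hT, card_image_of_injOn (fun x hx y hy => hinj' x hx y hy), card_product, card_range]
  have hsum : ∀ x, ∑ u ∈ T, F u x =
      ∑ q ∈ Q, (l : ℂ) * avg l (fun s => F (q.1 + q.2 * (M * s)) x) := by
    intro x
    rw [hT, sum_image hinj', sum_product]
    refine sum_congr rfl fun q _ => ?_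
    unfold avg
    rw [mul_div_cancel₀ _ (by exact_mod_cast hl0.ne')]
  have h1 : (fun x => avg W (fun u => F u x)) = fun x =>
      (W : ℂ)⁻¹ * ((∑ q ∈ Q, (l : ℂ) * avg l (fun s => F (q.1 + q.2 * (M * s)) x)) +
        ∑ u ∈ range W \ T, F u x) := by
    ext x
    unfold avg
    rw [← sum_sdiff hTW, hsum x]
    unfold avg
    rw [div_eq_inv_mul, add_comm]
  rw [h1, n2_smul, norm_inv, Complex.norm_natCast]
  have hb1 : ∀ q ∈ Q, BM (fun x => (l : ℂ) * avg l (fun s => F (q.1 + q.2 * (M * s)) x)) :=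
    fun q _ => (BM.const _).mul (Bdd.avg l _ fun s => hF _).bm
  have h2 : n2 μ (fun x => (∑ q ∈ Q, (l : ℂ) * avg l (fun s => F (q.1 + q.2 * (M * s)) x)) +
        ∑ u ∈ range W \ T, F u x) ≤
      l * ∑ q ∈ Q, n2 μ (fun x => avg l (fun s => F (q.1 + q.2 * (M * s)) x)) + ε * W := by
    refine (n2_add_le (BM.sum _ _ hb1) (BM.sum _ _ fun u _ => (hF u).bm)).trans ?_
    refine add_le_add ?_ ?_
    · refine (n2_sum_le _ _ hb1).trans ?_
      rw [mul_sum]
      refine sum_le_sum fun q _ => ?_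
      rw [n2_smul, Complex.norm_natCast]
    · refine (n2_sum_le _ _ fun u _ => (hF u).bm).trans ?_
      have : ∑ u ∈ range W \ T, n2 μ (F u) ≤ ∑ u ∈ range W \ T, (1 : ℝ) :=
        sum_le_sum fun u _ => n2_le_one (hF u).le
      refine this.trans ?_
      rw [sum_const, nsmul_eq_mul, mul_one, card_sdiff_of_subset hTW, card_range, hTc,
        Nat.cast_sub (by rw [← hTc]; simpa using card_le_card hTW)]
      push_cast
      linarith
  calc (W : ℝ)⁻¹ * n2 μ _ ≤ (W : ℝ)⁻¹ *
        (l * ∑ q ∈ Q, n2 μ (fun x => avg l (fun s => F (q.1 + q.2 * (M * s)) x)) + ε * W) := by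
        gcongr
    _ = _ := by field_simp; ring

/-- Averages are averages of window averages. -/
theorem avg_window (N W : ℕ) (hW : 1 ≤ W) (F : ℕ → X → ℂ) (hF : ∀ n, Bdd (F n)) :
    n2 μ (fun x => avg N (fun n => F n x)) ≤
      ravg N (fun n => n2 μ (fun x => avg W (fun u => F (n + u) x))) + 2 * W / N := by
  have hb2 : BM (fun x => avg N (fun n => avg W (fun u => F (n + u) x))) :=
    BM.avg _ _ fun n => BM.avg _ _ fun u => (hF _).bm
  have h1 : ∀ x, ‖avg N (fun n => F n x) - avg N (fun n => avg W (fun u => F (n + u) x))‖ ≤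
      2 * W / N := by
    intro x
    have e1 : avg N (fun n => avg W (fun u => F (n + u) x)) =
        avg W (fun u => avg N (fun n => F (n + u) x)) := avg_comm _ _ _
    have e2 : avg N (fun n => F n x) = avg W (fun _ => avg N (fun n => F n x)) :=
      (avg_const W hW _).symm
    rw [e1, e2, ← avg_sub]
    refine (norm_avg_le _ _).trans (ravg_le _ (by positivity) fun u hu => ?_)
    rw [norm_sub_rev]
    refine (avg_shift N u (fun s => F s x) 1 fun n => (hF n).le x).trans ?_
    have : (u : ℝ) ≤ W := by exact_mod_cast hu.le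
    rw [mul_one]
    gcongr
  have h2 : n2 μ (fun x => avg N (fun n => F n x)) ≤
      n2 μ (fun x => (avg N (fun n => F n x) - avg N (fun n => avg W (fun u => F (n + u) x)))) +
      n2 μ (fun x => avg N (fun n => avg W (fun u => F (n + u) x))) := by
    have := n2_add_le (μ := μ) (((Bdd.avg N _ hF).bm).sub hb2) hb2
    simpa using this
  have h3 : n2 μ (fun x => (avg N (fun n => F n x) -
      avg N (fun n => avg W (fun u => F (n + u) x)))) ≤ 2 * W / N := by
    have h4 : n2 μ (fun _ : X => ((2 * W / N : ℝ) : ℂ)) = 2 * W / N := by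
      rw [n2_const, Complex.norm_real, Real.norm_of_nonneg (by positivity)]
    rw [← h4]
    refine n2_mono (BM.const _) (Eventually.of_forall fun x => ?_)
    rw [Complex.norm_real, Real.norm_of_nonneg (by positivity)]
    exact h1 x
  have h5 := n2_avg_le (μ := μ) N (fun n x => avg W (fun u => F (n + u) x))
    fun n => BM.avg _ _ fun u => (hF _).bm
  linarith

end window

end Pool.Agent.JE
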