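import Pool.Agent.Helper65.JE.PetAlg
import Pool.Agent.Helper47.JE.Lin

/-! Polynomial exhaustion (PET) with bounds uniform in the coefficients (MP_ce5406_an). -/

open MeasureTheory Filter Topology Finset Polynomial
open scoped BigOperators ComplexConjugate

namespace Pool.Agent.JE

theorem av_nonneg (t K : ℕ) (G : List ℕ → ℝ) (h : ∀ l, 0 ≤ G l) : 0 ≤ av t K G := by
  induction t generalizing G with
  | zero => exact h []
  | succ t ih => exact div_nonneg (sum_nonneg fun k _ => ih _ fun l => h _) (Nat.cast_nonneg _)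

theorem av_succ (t K : ℕ) (G : List ℕ → ℝ) :
    av (t + 1) K G = ravg K (fun h => av t K (fun l => G (h :: l))) := rfl

theorem av_mono (t K : ℕ) (G G' : List ℕ → ℝ) (h : ∀ l, l.length = t → G l ≤ G' l) :
    av t K G ≤ av t K G' := by
  induction t generalizing G G' with
  | zero => exact h [] rfl
  | succ t ih =>
    rw [av_succ, av_succ]
    exact ravg_mono _ fun k _ => ih _ _ fun l hl => h _ (by simp [hl])

theorem av_congr (t K : ℕ) (G G' : List ℕ → ℝ) (h : ∀ l, l.length = t → G l = G' l) :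
    av t K G = av t K G' :=
  le_antisymm (av_mono _ _ _ _ fun l hl => (h l hl).le) (av_mono _ _ _ _ fun l hl => (h l hl).ge)

theorem av_snoc (t K : ℕ) (G : List ℕ → ℝ) :
    av (t + 1) K G = av t K (fun l => ravg K (fun h => G (l ++ [h]))) := by
  induction t generalizing G with
  | zero => rfl
  | succ t ih =>
    rw [av_succ]
    conv_rhs => rw [av_succ]
    congr 1
    ext h
    rw [ih]
    rfl

theorem av_add (t K : ℕ) (G G' : List ℕ → ℝ) :
    av t K (fun l => G l + G' l) = av t K G + av t K G' := by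
  induction t generalizing G G' with
  | zero => rfl
  | succ t ih =>
    simp only [av_succ]
    simp only [ih]
    rw [← ravg_add]

theorem av_const (t K : ℕ) (hK : 1 ≤ K) (c : ℝ) : av t K (fun _ => c) = c := by
  induction t with
  | zero => rfl
  | succ t ih => rw [av_succ, ih, ravg_const K hK]

section tower

variable {Ω : Type}

/-- The tower of classes of good functions. -/
def BT (G : (Ω → ℤ) → Prop) : ℕ → (Ω → List ℕ → ℤ) → Prop
  | 0, α => ∃ g, G g ∧ ∀ ω, α ω [] = g ω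
  | t + 1, α => (∃ α₁, BT G t α₁ ∧
        ∀ (ω : Ω) (l : List ℕ) (h : ℕ), l.length = t → α ω (l ++ [h]) = α₁ ω l) ∨
      (∃ (α₁ α₂ : Ω → List ℕ → ℤ) (D : ℕ), (BT G t α₁ ∨ ∀ ω l, α₁ ω l = 0) ∧ BT G t α₂ ∧
        1 ≤ D ∧ ∀ (ω : Ω) (l : List ℕ) (h : ℕ), l.length = t →
          α ω (l ++ [h]) = α₁ ω l + D * α₂ ω l * h)

/-- uncurrying the first variable -/
def unc (δ' : Ω × ℕ → List ℕ → ℤ) : Ω → List ℕ → ℤ
  | _, [] => 0
  | ω, h :: l => δ' (ω, h) l

theorem BT_front (G : (Ω → ℤ) → Prop) (t : ℕ) (δ' : Ω × ℕ → List ℕ → ℤ)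
    (h : BT (Ext G) t δ') : BT G (t + 1) (unc δ') := by
  induction t generalizing δ' with
  | zero =>
    obtain ⟨g', hg', hδ⟩ := h
    rcases hg' with ⟨g, hg, rfl⟩ | ⟨g₁, g₂, D, h1, h2, hD, rfl⟩
    · refine Or.inl ⟨fun ω _ => g ω, ⟨g, hg, fun _ => rfl⟩, fun ω l k hl => ?_⟩
      obtain rfl := List.length_eq_zero_iff.1 hl
      exact hδ (ω, k)
    · refine Or.inr ⟨fun ω _ => g₁ ω, fun ω _ => g₂ ω, D, ?_, ⟨g₂, h2, fun _ => rfl⟩, hD,
        fun ω l k hl => ?_⟩
      · rcases h1 with h1 | h1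
        · exact Or.inl ⟨g₁, h1, fun _ => rfl⟩
        · exact Or.inr fun ω _ => by rw [h1]; rfl
      · obtain rfl := List.length_eq_zero_iff.1 hl
        exact hδ (ω, k)
  | succ t ih =>
    rcases h with ⟨α₁, h1, h2⟩ | ⟨α₁, α₂, D, h1, h2, hD, h3⟩
    · refine Or.inl ⟨unc α₁, ih α₁ h1, fun ω l k hl => ?_⟩
      rcases l with _ | ⟨h', l⟩
      · simp at hl
      · exact h2 (ω, h') l k (by simpa using hl)
    · refine Or.inr ⟨unc α₁, unc α₂, D, ?_, ih α₂ h2, hD, fun ω l k hl => ?_⟩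
      · rcases h1 with h1 | h1
        · exact Or.inl (ih α₁ h1)
        · refine Or.inr fun ω l => ?_
          rcases l with _ | ⟨h', l⟩
          · rfl
          · exact h1 _ _
      · rcases l with _ | ⟨h', l⟩
        · simp at hl
        · exact h3 (ω, h') l k (by simpa using hl)

/-- `g = ℓ β + κ(σ)` with `ℓ ≠ 0`, `κ(σ₀) = 0`. -/
def GG {Sg : Type} (β : Ω → ℤ) (σ : Ω → Sg) (σ₀ : Sg) (g : Ω → ℤ) : Prop :=
  ∃ (ℓ : ℤ) (κ : Sg → ℤ), ℓ ≠ 0 ∧ κ σ₀ = 0 ∧ ∀ ω, g ω = ℓ * β ω + κ (σ ω)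

theorem ravg_zero_le (K : ℕ) (a b : ℤ) (hb : b ≠ 0) :
    ravg K (fun h : ℕ => if a + b * (h : ℤ) = 0 then (1 : ℝ) else 0) ≤ 1 / K := by
  unfold ravg
  gcongr
  rw [sum_ite, sum_const_zero, add_zero, sum_const, nsmul_eq_mul, mul_one]
  have : ((range K).filter (fun h : ℕ => a + b * (h : ℤ) = 0)).card ≤ 1 := by
    rw [card_le_one]
    intro x hx y hy
    have h1 := (mem_filter.1 hx).2
    have h2 := (mem_filter.1 hy).2
    have h3 : b * ((x : ℤ) - y) = 0 := by linear_combination h1 - h2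
    rcases mul_eq_zero.1 h3 with h | h
    · exact absurd h hb
    · have : (x : ℤ) = y := by linarith
      exact_mod_cast this
  exact_mod_cast this

theorem BT_generic {Sg : Type} (β : Ω → ℤ) (σ : Ω → Sg) (σ₀ : Sg) (t : ℕ)
    (α : Ω → List ℕ → ℤ) (h : BT (GG β σ σ₀) t α) :
    ∃ (ℓ : List ℕ → ℤ) (κ : Sg → List ℕ → ℤ), (∀ l, κ σ₀ l = 0) ∧
      (∀ ω l, l.length = t → α ω l = ℓ l * β ω + κ (σ ω) l) ∧
      ∀ H : ℕ, 1 ≤ H → av t H (fun l => if ℓ l = 0 then (1 : ℝ) else 0) ≤ t / H := by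
  induction t generalizing α with
  | zero =>
    obtain ⟨g, ⟨ℓ, κ, hℓ, hκ, hg⟩, h1⟩ := h
    refine ⟨fun _ => ℓ, fun s _ => κ s, fun _ => hκ, fun ω l hl => ?_, fun H hH => ?_⟩
    · obtain rfl := List.length_eq_zero_iff.1 hl
      rw [h1, hg]
    · have e0 : ∀ G : List ℕ → ℝ, av 0 H G = G [] := fun _ => rfl
      rw [e0]
      simp [hℓ]
  | succ t ih =>
    rcases h with ⟨α₁, h1, h2⟩ | ⟨α₁, α₂, D, h1, h2, hD, h3⟩
    · obtain ⟨ℓ, κ, hκ, hα, hgen⟩ := ih α₁ h1
      refine ⟨fun l => ℓ l.dropLast, fun s l => κ s l.dropLast, fun l => hκ _,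
        fun ω l hl => ?_, fun H hH => ?_⟩
      · obtain ⟨l', a, rfl⟩ : ∃ l' a, l = l' ++ [a] := by
          have hne : l ≠ [] := by rintro rfl; simp at hl
          exact ⟨l.dropLast, l.getLast hne, (List.dropLast_append_getLast hne).symm⟩
        have hl' : l'.length = t := by simpa using hl
        rw [h2 ω l' a hl', hα ω l' hl']
        simp
      · rw [av_snoc]
        simp only [List.dropLast_concat, ravg_const H hH]
        refine (hgen H hH).trans ?_
        gcongr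
        push_cast; linarith
    · obtain ⟨ℓ₂, κ₂, hκ₂, hα₂, hgen₂⟩ := ih α₂ h2
      obtain ⟨ℓ₁, κ₁, hκ₁, hα₁⟩ : ∃ (ℓ : List ℕ → ℤ) (κ : Sg → List ℕ → ℤ), (∀ l, κ σ₀ l = 0) ∧
          (∀ ω l, l.length = t → α₁ ω l = ℓ l * β ω + κ (σ ω) l) := by
        rcases h1 with h1 | h1
        · obtain ⟨ℓ, κ, hκ, hα, -⟩ := ih α₁ h1
          exact ⟨ℓ, κ, hκ, hα⟩
        · exact ⟨fun _ => 0, fun _ _ => 0, fun _ => rfl, fun ω l _ => by rw [h1]; simp⟩
      refine ⟨fun l => ℓ₁ l.dropLast + D * ℓ₂ l.dropLast * (l.getLastD 0),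
        fun s l => κ₁ s l.dropLast + D * κ₂ s l.dropLast * (l.getLastD 0),
        fun l => by simp only [hκ₁, hκ₂]; ring, fun ω l hl => ?_, fun H hH => ?_⟩
      · obtain ⟨l', a, rfl⟩ : ∃ l' a, l = l' ++ [a] := by
          have hne : l ≠ [] := by rintro rfl; simp at hl
          exact ⟨l.dropLast, l.getLast hne, (List.dropLast_append_getLast hne).symm⟩
        have hl' : l'.length = t := by simpa using hl
        rw [h3 ω l' a hl', hα₁ ω l' hl', hα₂ ω l' hl']
        simp only [List.dropLast_concat, List.getLastD_concat]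
        ring
      · rw [av_snoc]
        simp only [List.dropLast_concat, List.getLastD_concat]
        have hH0 : (0 : ℝ) < H := by exact_mod_cast hH
        have key : ∀ l, ravg H (fun h : ℕ => if ℓ₁ l + D * ℓ₂ l * (h : ℤ) = 0 then (1 : ℝ) else 0)
            ≤ (if ℓ₂ l = 0 then (1 : ℝ) else 0) + 1 / H := by
          intro l
          by_cases h0 : ℓ₂ l = 0
          · rw [if_pos h0]
            have : ravg H (fun h : ℕ => if ℓ₁ l + D * ℓ₂ l * (h : ℤ) = 0 then (1 : ℝ) else 0)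
                ≤ 1 := by
              refine ravg_le _ zero_le_one fun n _ => ?_
              split_ifs <;> norm_num
            have : (0 : ℝ) ≤ 1 / H := by positivity
            linarith
          · rw [if_neg h0, zero_add]
            have : (D : ℤ) * ℓ₂ l ≠ 0 := mul_ne_zero (by exact_mod_cast (by omega : D ≠ 0)) h0
            exact ravg_zero_le H (ℓ₁ l) (D * ℓ₂ l) this
        refine (av_mono _ _ _ _ fun l _ => key l).trans ?_
        rw [av_add, av_const _ _ hH]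
        have := hgen₂ H hH
        push_cast
        rw [add_div]
        linarith

end tower

section induction

/-- Conclusion of the induction. -/
def Concl {Ω : Type} (G : (Ω → ℤ) → Prop) {ι : Type} (B : Finset ι)
    (p : ι → Polynomial (Ω → ℤ)) (q : Polynomial (Ω → ℤ)) : Prop :=
  ∃ (t k : ℕ) (C : ℝ) (ds : List (Ω → List ℕ → ℤ)), ds ≠ [] ∧ 0 ≤ C ∧ (∀ δ ∈ ds, BT G t δ) ∧
    ∀ (X : Type) [MeasurableSpace X] (μ : Measure X) [IsProbabilityMeasure μ] (A : Act X μ)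
      (ω : Ω) (z : ℕ → ℂ), (∀ s, ‖z s‖ ≤ 1) → ∀ (g : ι → X → ℂ), (∀ i, Bdd (g i)) →
      ∀ f : X → ℂ, Bdd f → ∀ (H₁ H₂ N : ℕ), 1 ≤ H₁ → 1 ≤ H₂ → 1 ≤ N →
      JJ A N z B (fun i s => evp (p i) ω s) g (fun s => evp q ω s) f ^ (2 ^ k) ≤
      C * av t H₁ (fun l => av ds.length H₂ (fun m => Cor A
        (List.zipWith (fun (δ : Ω → List ℕ → ℤ) (h : ℕ) => δ ω l * (h : ℤ)) ds m) f)) +
      C * (((H₁ + H₂ : ℕ) : ℝ) / N)

theorem Cor_nonneg {X : Type} [MeasurableSpace X] {μ : Measure X} (A : Act X μ) (l : List ℤ)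
    (f : X → ℂ) : 0 ≤ Cor A l f := norm_nonneg _

theorem evp_linear {Ω : Type} (P : Polynomial (Ω → ℤ)) (hP : P.natDegree ≤ 1) (ω : Ω) (s : ℤ) :
    evp P ω s = P.coeff 1 ω * s + P.coeff 0 ω := by
  have h := eq_X_add_C_of_natDegree_le_one hP
  unfold evp
  conv_lhs => rw [h]
  simp

/-- Base case: linear families. -/
theorem concl_linear {Ω : Type} {G : (Ω → ℤ) → Prop} {ι : Type} {B : Finset ι}
    {p : ι → Polynomial (Ω → ℤ)} {q : Polynomial (Ω → ℤ)} (F : Fam G B p q)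
    (hq : q.natDegree = 1) : Concl G B p q := by
  classical
  obtain ⟨C, hC⟩ := lin_bound B.card
  have hp : ∀ i ∈ B, (p i).natDegree ≤ 1 := fun i hi => hq ▸ F.pd i hi
  refine ⟨0, B.card + 1, max C 0, (fun ω _ => q.coeff 1 ω) ::
    B.toList.map (fun i => fun ω _ => q.coeff 1 ω - (p i).coeff 1 ω), by simp,
    le_max_right _ _, ?_, ?_⟩
  · intro δ hδ
    rcases List.mem_cons.1 hδ with rfl | hδ
    · refine ⟨q.leadingCoeff, F.qG, fun ω => ?_⟩
      rw [leadingCoeff, hq]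
    · obtain ⟨i, hi, rfl⟩ := List.mem_map.1 hδ
      have hi' : i ∈ B := Finset.mem_toList.1 hi
      obtain ⟨h1, h2⟩ := F.dG i hi'
      have h3 : (q - p i).natDegree = 1 :=
        le_antisymm ((natDegree_sub_le _ _).trans (max_le hq.le (hp i hi'))) h1
      refine ⟨(q - p i).leadingCoeff, h2, fun ω => ?_⟩
      rw [leadingCoeff, h3, coeff_sub]
      rfl
  · intro X _ μ _ A ω z hz g hg f hf H₁ H₂ N hH₁ hH₂ hN
    have h := hC X μ A (B.toList.map (fun i => ((p i).coeff 1 ω, (p i).coeff 0 ω, g i)))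
      (by simp) (by
        intro x hx
        obtain ⟨i, -, rfl⟩ := List.mem_map.1 hx
        exact hg i) (q.coeff 1 ω) (q.coeff 0 ω) f hf z hz H₂ N hH₂ hN
    have e1 : JJ A N z B (fun i s => evp (p i) ω s) g (fun s => evp q ω s) f =
        n2 μ (fun x => avg N (fun s => z s * f (A.S (q.coeff 1 ω * s + q.coeff 0 ω) x) *
          ((B.toList.map (fun i => ((p i).coeff 1 ω, (p i).coeff 0 ω, g i))).map
            (fun p => p.2.2 (A.S (p.1 * s + p.2.1) x))).prod)) := by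
      unfold JJ
      congr 1
      ext x
      congr 1
      ext s
      rw [List.map_map, Finset.prod_map_toList]
      simp only [Function.comp]
      rw [evp_linear q hq.le]
      congr 1
      refine prod_congr rfl fun i hi => ?_
      rw [evp_linear (p i) (hp i hi)]
    rw [e1]
    refine h.trans ?_
    have hlen : ((fun (ω : Ω) (_ : List ℕ) => q.coeff 1 ω) ::
        B.toList.map (fun i => fun (ω : Ω) (_ : List ℕ) =>
          q.coeff 1 ω - (p i).coeff 1 ω)).length = B.card + 1 := by simp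
    rw [hlen]
    have e2 : ∀ m : List ℕ, List.zipWith (fun (δ : Ω → List ℕ → ℤ) (h : ℕ) => δ ω [] * (h : ℤ))
        ((fun (ω : Ω) (_ : List ℕ) => q.coeff 1 ω) ::
        B.toList.map (fun i => fun (ω : Ω) (_ : List ℕ) =>
          q.coeff 1 ω - (p i).coeff 1 ω)) m =
        List.zipWith (fun (δ : ℤ) (h : ℕ) => δ * h) (q.coeff 1 ω ::
          (B.toList.map (fun i => ((p i).coeff 1 ω, (p i).coeff 0 ω, g i))).map
            (fun p => q.coeff 1 ω - p.1)) m := by
      intro m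
      rcases m with _ | ⟨a, m⟩
      · simp
      · simp only [List.zipWith_cons_cons, List.map_map, List.zipWith_map_left]
        rfl
    have e3 : ∀ G : List ℕ → ℝ, av 0 H₁ G = G [] := fun _ => rfl
    rw [e3]
    simp only [e2]
    set T := av (B.card + 1) H₂ (fun l => Cor A (List.zipWith (fun (δ : ℤ) (h : ℕ) => δ * h)
      (q.coeff 1 ω ::
          (B.toList.map (fun i => ((p i).coeff 1 ω, (p i).coeff 0 ω, g i))).map
            (fun p => q.coeff 1 ω - p.1)) l) f) with hT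
    have hT0 : 0 ≤ T := av_nonneg _ _ _ fun l => Cor_nonneg _ _ _
    have hN0 : (0 : ℝ) < N := by exact_mod_cast hN
    have h1 : (H₂ : ℝ) / N ≤ ((H₁ + H₂ : ℕ) : ℝ) / N := by
      gcongr
      push_cast
      have : (0 : ℝ) ≤ H₁ := by positivity
      linarith
    have h2 : (0 : ℝ) ≤ (H₂ : ℝ) / N := by positivity
    calc C * (T + H₂ / N) ≤ max C 0 * (T + H₂ / N) := by
          gcongr
          exact le_max_left _ _
      _ = max C 0 * T + max C 0 * (H₂ / N) := by ring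
      _ ≤ _ := by
          have := le_max_right C 0
          gcongr

theorem concl_step {Ω : Type} {G : (Ω → ℤ) → Prop} {ι : Type} {B : Finset ι}
    {p : ι → Polynomial (Ω → ℤ)} {q : Polynomial (Ω → ℤ)} (p0 : Polynomial (Ω → ℤ))
    (h : Concl (Ext G) (newB B p q p0) (newp p q p0) (sh q - pl p0)) : Concl G B p q := by
  classical
  obtain ⟨t, k, C, ds, hne, hC, hBT, hbd⟩ := h
  set D : ℝ := 2 ^ (2 ^ k) with hD
  have hD1 : 1 ≤ D := one_le_pow₀ (by norm_num)
  refine ⟨t + 1, k + 1, D * D * C + D * 6 ^ (2 ^ k) + 1, ds.map unc, by simpa using hne,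
    by positivity, ?_, ?_⟩
  · intro δ hδ
    obtain ⟨δ', hδ', rfl⟩ := List.mem_map.1 hδ
    exact BT_front G t δ' (hBT δ' hδ')
  intro X _ μ _ A ω z hz g hg f hf H₁ H₂ N hH₁ hH₂ hN
  have hN0 : (0 : ℝ) < N := by exact_mod_cast hN
  set C' : ℝ := D * D * C + D * 6 ^ (2 ^ k) + 1 with hC'
  have hC'0 : 0 ≤ C' := by positivity
  set x := JJ A N z B (fun i s => evp (p i) ω s) g (fun s => evp q ω s) f with hx
  have hx0 : 0 ≤ x := JJ_nonneg _ _ _ _ _ _ _ _
  set Tt := av (t + 1) H₁ (fun l => av (ds.map unc).length H₂ (fun m => Cor A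
        (List.zipWith (fun (δ : Ω → List ℕ → ℤ) (h : ℕ) => δ ω l * (h : ℤ)) (ds.map unc) m) f))
    with hTt
  have hTt0 : 0 ≤ Tt := av_nonneg _ _ _ fun l => av_nonneg _ _ _ fun m => Cor_nonneg _ _ _
  have hr0 : 0 ≤ ((H₁ + H₂ : ℕ) : ℝ) / N := by positivity
  by_cases hHN : N < H₁
  · have h1 : x ^ 2 ^ (k + 1) ≤ 1 := pow_le_one₀ hx0 (JJ_le_one A N hz B _ hg _ hf)
    have h2 : (1 : ℝ) ≤ ((H₁ + H₂ : ℕ) : ℝ) / N := by
      rw [le_div_iff₀ hN0, one_mul]
      exact_mod_cast (by omega : N ≤ H₁ + H₂)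
    have h3 : (1 : ℝ) ≤ C' := by
      rw [hC']
      have : 0 ≤ D * D * C := by positivity
      have : 0 ≤ D * 6 ^ (2 ^ k) := by positivity
      linarith
    nlinarith [mul_nonneg hC'0 hTt0]
  push Not at hHN
  have hstep := JJ_step A N H₁ hN hH₁ hz B (fun i (s : ℕ) => evp (p i) ω s) hg
    (fun s : ℕ => evp q ω s) hf (fun s : ℕ => evp p0 ω s) (newB B p q p0)
    (filter_subset _ _) (by
      intro j hj hj' h s
      have h0 : (newp p q p0 j).natDegree = 0 := by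
        by_contra h1
        exact hj' (mem_filter.2 ⟨hj, by omega⟩)
      have h2 := evp_const (newp p q p0 j) h0 (ω, h) s 0
      rcases j with i | (_ | i)
      · simp only [newp, evp_sub, evp_sh, evp_pl] at h2
        simp only [newa]
        push_cast
        push_cast at h2
        exact h2
      · simp only [newp, evp_sub, evp_pl] at h2
        simp only [newa]
        push_cast
        exact h2
      · simp only [newp, evp_sub, evp_pl] at h2
        simp only [newa]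
        push_cast
        exact h2)
  rw [← hx] at hstep
  set Y : ℕ → ℝ := fun h => JJ A N (fun s => z (s + h) * conj (z s)) (newB B p q p0)
      (newa (fun i (s : ℕ) => evp (p i) ω s) (fun s : ℕ => evp q ω s)
        (fun s : ℕ => evp p0 ω s) h) (newg g f)
      (fun s : ℕ => evp q ω ((s + h : ℕ) : ℤ) - evp p0 ω s) f with hY
  have hY0 : ∀ h, 0 ≤ Y h := fun h => JJ_nonneg _ _ _ _ _ _ _ _
  have hYb : ∀ h, Y h ^ (2 ^ k) ≤ C * av t H₁ (fun l => av ds.length H₂ (fun m => Cor A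
        (List.zipWith (fun (δ : Ω × ℕ → List ℕ → ℤ) (a : ℕ) => δ (ω, h) l * (a : ℤ)) ds m) f)) +
      C * (((H₁ + H₂ : ℕ) : ℝ) / N) := by
    intro h
    have hz' : ∀ s, ‖z (s + h) * conj (z s)‖ ≤ 1 := fun s => by
      rw [norm_mul]
      exact mul_le_one₀ (hz _) (norm_nonneg _) (by simpa using hz s)
    have := hbd X μ A (ω, h) (fun s => z (s + h) * conj (z s)) hz' (newg g f)
      (newg_bdd hg hf) f hf H₁ H₂ N hH₁ hH₂ hN
    have e1 : Y h = JJ A N (fun s => z (s + h) * conj (z s)) (newB B p q p0)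
        (fun i (s : ℕ) => evp (newp p q p0 i) (ω, h) s) (newg g f)
        (fun s : ℕ => evp (sh q - pl p0) (ω, h) s) f := by
      simp only [hY]
      congr 1
      · ext j s
        rcases j with i | (_ | i)
        · simp only [newp, evp_sub, evp_sh, evp_pl, newa]
          push_cast
          rfl
        · simp only [newp, evp_sub, evp_pl, newa]
        · simp only [newp, evp_sub, evp_pl, newa]
      · ext s
        simp only [evp_sub, evp_sh, evp_pl]
        push_cast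
        rfl
    rw [e1]
    exact this
  have hTt' : Tt = ravg H₁ (fun h => av t H₁ (fun l => av ds.length H₂ (fun m => Cor A
        (List.zipWith (fun (δ : Ω × ℕ → List ℕ → ℤ) (a : ℕ) => δ (ω, h) l * (a : ℤ)) ds m)
        f))) := by
    rw [hTt, av_succ]
    congr 1
    ext h
    congr 1
    ext l
    rw [List.length_map]
    congr 1
    ext m
    rw [List.zipWith_map_left]
    rfl
  set ρ : ℝ := ((H₁ + H₂ : ℕ) : ℝ) / N with hρ
  have h1 : ravg H₁ (fun h => Y h ^ (2 ^ k)) ≤ C * Tt + C * ρ := by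
    refine (ravg_mono _ fun h _ => hYb h).trans ?_
    rw [ravg_add, ravg_mul, ravg_const _ hH₁, ← hTt']
  have h2 : (H₁ : ℝ) / N ≤ 1 := by
    rw [div_le_one hN0]; exact_mod_cast hHN
  have h3 : (H₁ : ℝ) / N ≤ ρ := by
    rw [hρ]; gcongr; push_cast
    have : (0 : ℝ) ≤ H₂ := by positivity
    linarith
  have h40 : (0 : ℝ) ≤ (H₁ : ℝ) / N := by positivity
  have h4 : (6 * (H₁ : ℝ) / N) ^ (2 ^ k) ≤ 6 ^ (2 ^ k) * ρ := by
    rw [mul_div_assoc, mul_pow]
    gcongr
    refine le_trans ?_ h3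
    calc ((H₁ : ℝ) / N) ^ (2 ^ k) ≤ ((H₁ : ℝ) / N) ^ 1 :=
          pow_le_pow_of_le_one h40 h2 Nat.one_le_two_pow
      _ = _ := pow_one _
  calc x ^ 2 ^ (k + 1) = (x ^ 2) ^ (2 ^ k) := by rw [← pow_mul, pow_succ, mul_comm]
    _ ≤ (2 * ravg H₁ Y + 6 * H₁ / N) ^ (2 ^ k) := by gcongr
    _ ≤ D * ((2 * ravg H₁ Y) ^ (2 ^ k) + (6 * H₁ / N) ^ (2 ^ k)) :=
        add_pow_le k (mul_nonneg (by norm_num) (ravg_nonneg _ fun h _ => hY0 h)) (by positivity)
    _ ≤ D * (D * ravg H₁ (fun h => Y h ^ (2 ^ k)) + 6 ^ (2 ^ k) * ρ) := by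
        rw [mul_pow]
        have := ravg_pow_le H₁ k Y fun h _ => hY0 h
        gcongr
    _ ≤ D * (D * (C * Tt + C * ρ) + 6 ^ (2 ^ k) * ρ) := by gcongr
    _ ≤ C' * Tt + C' * ρ := by
        rw [hC']
        have : 0 ≤ D * 6 ^ (2 ^ k) * Tt := by positivity
        nlinarith

theorem pet_fam (M : Multiset ℕ) : ∀ (Ω : Type) (G : (Ω → ℤ) → Prop) (ι : Type) (B : Finset ι)
    (p : ι → Polynomial (Ω → ℤ)) (q : Polynomial (Ω → ℤ)), Fam G B p q → wt B p q = M →
    Concl G B p q := by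
  induction M using (Multiset.wellFounded_isDershowitzMannaLT (α := ℕ)).induction with
  | _ M ih =>
    intro Ω G ι B p q F hM
    by_cases h2 : 2 ≤ q.natDegree
    · obtain ⟨p0, F', hlt⟩ := step_exists F h2
      exact concl_step p0 (ih _ (hM ▸ hlt) _ _ _ _ _ _ F' rfl)
    · have := F.q1
      exact concl_linear F (by omega)

/-- Polynomial exhaustion. -/
theorem pet (Ω Sg : Type) (β : Ω → ℤ) (σ : Ω → Sg) (σ₀ : Sg) (ι : Type)
    (B : Finset ι) (p : ι → Polynomial (Ω → ℤ)) (q : Polynomial (Ω → ℤ))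
    (hq : 1 ≤ q.natDegree) (hqG : GG β σ σ₀ q.leadingCoeff)
    (hp : ∀ i ∈ B, 1 ≤ (q - p i).natDegree ∧ GG β σ σ₀ (q - p i).leadingCoeff)
    (hdeg : ∀ i ∈ B, (p i).natDegree ≤ q.natDegree) :
    ∃ (t k : ℕ) (C : ℝ) (ds : List ((List ℕ → ℤ) × (Sg → List ℕ → ℤ))),
      ds ≠ [] ∧ 0 ≤ C ∧ (∀ d ∈ ds, (∀ l, d.2 σ₀ l = 0) ∧
        ∀ H : ℕ, 1 ≤ H → av t H (fun l => if d.1 l = 0 then (1 : ℝ) else 0) ≤ C / H) ∧
      ∀ (X : Type) [MeasurableSpace X] (μ : Measure X) [IsProbabilityMeasure μ] (A : Act X μ)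
        (ω : Ω) (z : ℕ → ℂ), (∀ s, ‖z s‖ ≤ 1) → ∀ (g : ι → X → ℂ), (∀ i, Bdd (g i)) →
        ∀ f : X → ℂ, Bdd f → ∀ (H₁ H₂ N : ℕ), 1 ≤ H₁ → 1 ≤ H₂ → 1 ≤ N →
        JJ A N z B (fun i s => evp (p i) ω s) g (fun s => evp q ω s) f ^ (2 ^ k) ≤
        C * av t H₁ (fun l => av ds.length H₂ (fun m => Cor A (List.zipWith
          (fun (d : (List ℕ → ℤ) × (Sg → List ℕ → ℤ)) (h : ℕ) =>
            (d.1 l * β ω + d.2 (σ ω) l) * (h : ℤ)) ds m) f)) +
        C * (((H₁ + H₂ : ℕ) : ℝ) / N) := by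
  classical
  set B' := B.filter (fun i => 1 ≤ (p i).natDegree) with hB'
  have F : Fam (GG β σ σ₀) B' p q :=
    ⟨hq, hqG, fun i hi => (mem_filter.1 hi).2, fun i hi => hdeg i (mem_filter.1 hi).1,
      fun i hi => hp i (mem_filter.1 hi).1⟩
  obtain ⟨t, k, C, ds, hne, hC, hBT, hbd⟩ := pet_fam _ Ω _ ι B' p q F rfl
  have hch : ∀ δ : Ω → List ℕ → ℤ, ∃ d : (List ℕ → ℤ) × (Sg → List ℕ → ℤ), δ ∈ ds →
      (∀ l, d.2 σ₀ l = 0) ∧ (∀ ω l, l.length = t → δ ω l = d.1 l * β ω + d.2 (σ ω) l) ∧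
      ∀ H : ℕ, 1 ≤ H → av t H (fun l => if d.1 l = 0 then (1 : ℝ) else 0) ≤ t / H := by
    intro δ
    by_cases hδ : δ ∈ ds
    · obtain ⟨ℓ, κ, h1, h2, h3⟩ := BT_generic β σ σ₀ t δ (hBT δ hδ)
      exact ⟨(ℓ, κ), fun _ => ⟨h1, h2, h3⟩⟩
    · exact ⟨(fun _ => 0, fun _ _ => 0), fun h => absurd h hδ⟩
  choose d hd using hch
  refine ⟨t, k, max C t, ds.map d, by simpa using hne, hC.trans (le_max_left _ _), ?_, ?_⟩
  · intro d' hd'
    obtain ⟨δ, hδ, rfl⟩ := List.mem_map.1 hd'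
    obtain ⟨h1, -, h3⟩ := hd δ hδ
    refine ⟨h1, fun H hH => (h3 H hH).trans ?_⟩
    gcongr
    exact le_max_right _ _
  · intro X _ μ _ A ω z hz g hg f hf H₁ H₂ N hH₁ hH₂ hN
    have h1 := hbd X μ A ω z hz g hg f hf H₁ H₂ N hH₁ hH₂ hN
    have h2 := JJ_drop A N hz B B' (filter_subset _ _) (fun i (s : ℕ) => evp (p i) ω s) hg
      (fun s : ℕ => evp q ω s) hf (by
        intro i hi hi' s
        have h0 : (p i).natDegree = 0 := by
          by_contra h1
          exact hi' (mem_filter.2 ⟨hi, by omega⟩)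
        exact evp_const _ h0 ω s _)
    have h3 : av t H₁ (fun l => av (ds.map d).length H₂ (fun m => Cor A (List.zipWith
          (fun (d : (List ℕ → ℤ) × (Sg → List ℕ → ℤ)) (h : ℕ) =>
            (d.1 l * β ω + d.2 (σ ω) l) * (h : ℤ)) (ds.map d) m) f)) =
        av t H₁ (fun l => av ds.length H₂ (fun m => Cor A
        (List.zipWith (fun (δ : Ω → List ℕ → ℤ) (h : ℕ) => δ ω l * (h : ℤ)) ds m) f)) := by
      refine av_congr _ _ _ _ fun l hl => ?_
      rw [List.length_map]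
      congr 1
      ext m
      congr 1
      rw [List.zipWith_map_left]
      have aux : ∀ (ds' : List (Ω → List ℕ → ℤ)) (m : List ℕ), (∀ δ ∈ ds', δ ∈ ds) →
          List.zipWith (fun (δ : Ω → List ℕ → ℤ) (h : ℕ) =>
            ((d δ).1 l * β ω + (d δ).2 (σ ω) l) * (h : ℤ)) ds' m =
          List.zipWith (fun (δ : Ω → List ℕ → ℤ) (h : ℕ) => δ ω l * (h : ℤ)) ds' m := by
        intro ds'
        induction ds' with
        | nil => intro m _; simp
        | cons δ ds' ih =>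
          intro m hm
          rcases m with _ | ⟨a, m⟩
          · simp
          · rw [List.zipWith_cons_cons, List.zipWith_cons_cons,
              ih m fun δ' h' => hm δ' (List.mem_cons_of_mem _ h'),
              (hd δ (hm δ List.mem_cons_self)).2.1 ω l hl]
      exact aux ds m fun _ h => h
    rw [h3]
    refine (pow_le_pow_left₀ (JJ_nonneg _ _ _ _ _ _ _ _) h2 _).trans (h1.trans ?_)
    have h4 : 0 ≤ av t H₁ (fun l => av ds.length H₂ (fun m => Cor A
        (List.zipWith (fun (δ : Ω → List ℕ → ℤ) (h : ℕ) => δ ω l * (h : ℤ)) ds m) f)) :=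
      av_nonneg _ _ _ fun l => av_nonneg _ _ _ fun m => Cor_nonneg _ _ _
    have h5 : C ≤ max C t := le_max_left _ _
    gcongr

end induction

end Pool.Agent.JE
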