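import Pool.Agent.Helper65.JE.Pet
import Pool.Agent.Helper65.JE.NS

/-! PET for cube correlations along quadratic polynomials (MP_ce5406_an). -/

open MeasureTheory Filter Topology Finset Polynomial
open scoped BigOperators ComplexConjugate

namespace Pool.Agent.JE

section lists

/-- conjugation depending on a flag -/
noncomputable def cj (b : Bool) (z : ℂ) : ℂ := if b then conj z else z

theorem cj_mul (b : Bool) (u v : ℂ) : cj b (u * v) = cj b u * cj b v := by
  unfold cj; split_ifs <;> simp

theorem cj_conj (b : Bool) (v : ℂ) : cj b (conj v) = cj (!b) v := by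
  unfold cj; cases b <;> simp

/-- the vertices of a cube other than the top one -/
def tl {M : Type*} [AddMonoid M] : List M → List (M × Bool)
  | [] => []
  | h :: l => (tl l).map (fun v => (h + v.1, v.2)) ++
      (l.sum, true) :: (tl l).map (fun v => (v.1, !v.2))

theorem cub_eq {X : Type} [MeasurableSpace X] {μ : Measure X} (A : Act X μ) (γ : List ℤ)
    (F : X → ℂ) (x : X) : cub A γ F x = F (A.S γ.sum x) *
      ((tl γ).map (fun v => cj v.2 (F (A.S v.1 x)))).prod := by
  induction γ generalizing F with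
  | nil => simp [cub, tl, A.zero]
  | cons h l ih =>
    show cub A l (Dl A h F) x = _
    rw [ih]
    have e1 : ∀ a, Dl A h F (A.S a x) = F (A.S (h + a) x) * conj (F (A.S a x)) := fun a => by
      unfold Dl; rw [← A.add]
    simp only [e1, cj_mul, cj_conj, tl]
    rw [List.prod_map_mul, List.map_append, List.prod_append, List.map_cons, List.prod_cons,
      List.map_map, List.map_map, List.sum_cons]
    have e2 : cj true (F (A.S l.sum x)) = conj (F (A.S l.sum x)) := rfl
    simp only [Function.comp_def, e2]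
    ring

theorem tl_map {M N : Type*} [AddMonoid M] [AddMonoid N] (φ : M →+ N) (γ : List M) :
    tl (γ.map φ) = (tl γ).map (fun v => (φ v.1, v.2)) := by
  induction γ with
  | nil => rfl
  | cons h l ih =>
    rw [List.map_cons]
    simp only [tl, ih, List.map_append, List.map_map, List.map_cons, Function.comp_def,
      map_add, ← map_list_sum]

theorem ns_map {M N : Type*} [AddMonoid M] [AddMonoid N] (φ : M →+ N) (γ : List M) :
    ns (γ.map φ) = (ns γ).map φ := by
  induction γ with
  | nil => rfl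
  | cons h l ih =>
    rw [List.map_cons]
    simp only [ns, ih, List.map_append, List.map_map, List.map_cons, Function.comp_def,
      map_add]

theorem tl_ns {M : Type*} [AddCommGroup M] (γ : List M) (v : M × Bool) (hv : v ∈ tl γ) :
    γ.sum - v.1 ∈ ns γ := by
  induction γ generalizing v with
  | nil => simp [tl] at hv
  | cons h l ih =>
    simp only [tl, List.mem_append, List.mem_map, List.mem_cons] at hv
    rw [List.sum_cons]
    rcases hv with ⟨w, hw, rfl⟩ | rfl | ⟨w, hw, rfl⟩
    · have := ih w hw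
      have e : h + l.sum - (h + w.1) = l.sum - w.1 := by abel
      simp only [e, ns, List.mem_append]
      exact Or.inl this
    · simp only [ns, List.mem_append, List.mem_cons]
      right; left; abel
    · have := ih w hw
      simp only [ns, List.mem_append, List.mem_cons, List.mem_map]
      right; right
      exact ⟨_, this, by abel⟩

theorem sum_ns {M : Type*} [AddMonoid M] (γ : List M) (hγ : γ ≠ []) : γ.sum ∈ ns γ := by
  induction γ with
  | nil => exact absurd rfl hγ
  | cons h l ih =>
    simp only [ns, List.mem_append, List.mem_cons, List.mem_map, List.sum_cons]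
    rcases eq_or_ne l [] with rfl | hl
    · right; left; simp
    · right; right; exact ⟨l.sum, ih hl, rfl⟩

theorem prod_range_getD {α : Type*} (f : α → ℂ) (l : List α) (d : α) :
    (l.map f).prod = ∏ i ∈ range l.length, f (l.getD i d) := by
  induction l with
  | nil => simp
  | cons a l ih =>
    rw [List.map_cons, List.prod_cons, List.length_cons, prod_range_succ', ih, mul_comm]
    simp

theorem map_range_getD {α : Type*} (L : List α) (d : α) :
    (List.range L.length).map (fun j => L.getD j d) = L := by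
  apply List.ext_getElem
  · simp
  · intro i h1 h2
    simp [List.getD_eq_getElem?_getD, h2]

theorem NZ_replicate (r : ℕ) : NZ (List.replicate r 1) := by
  have : ∀ w ∈ ns (List.replicate r (1 : ℤ)), 0 < w := by
    induction r with
    | zero => intro w hw; simp [ns] at hw
    | succ r ih =>
      intro w hw
      simp only [List.replicate_succ, ns, List.mem_append, List.mem_cons, List.mem_map] at hw
      rcases hw with hw | rfl | ⟨w', hw', rfl⟩
      · exact ih w hw
      · norm_num
      · have := ih w' hw'; omega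
  exact fun w hw => (this w hw).ne'

end lists

section tower2

variable {Ω Λ : Type}

/-- functions of `π ω` which do not vanish on good parameters -/
def G2 (π : Ω → Λ) (good : Λ → Prop) (g : Ω → ℤ) : Prop :=
  ∃ g₀ : Λ → ℤ, (∀ L, good L → g₀ L ≠ 0) ∧ ∀ ω, g ω = g₀ (π ω)

theorem BT_generic2 (π : Ω → Λ) (good : Λ → Prop) (t : ℕ) (δ : Ω → List ℕ → ℤ)
    (h : BT (G2 π good) t δ) : ∃ δ₀ : Λ → List ℕ → ℤ,
      (∀ ω l, l.length = t → δ ω l = δ₀ (π ω) l) ∧
      ∀ L, good L → ∀ H : ℕ, 1 ≤ H →
        av t H (fun l => if δ₀ L l = 0 then (1 : ℝ) else 0) ≤ t / H := by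
  induction t generalizing δ with
  | zero =>
    obtain ⟨g, ⟨g₀, h1, h2⟩, h3⟩ := h
    refine ⟨fun L _ => g₀ L, fun ω l hl => ?_, fun L hL H hH => ?_⟩
    · obtain rfl := List.length_eq_zero_iff.1 hl
      rw [h3, h2]
    · have e0 : ∀ G : List ℕ → ℝ, av 0 H G = G [] := fun _ => rfl
      rw [e0]
      simp [h1 L hL]
  | succ t ih =>
    rcases h with ⟨α₁, h1, h2⟩ | ⟨α₁, α₂, D, h1, h2, hD, h3⟩
    · obtain ⟨δ₁, hδ₁, hgen⟩ := ih α₁ h1
      refine ⟨fun L l => δ₁ L l.dropLast, fun ω l hl => ?_, fun L hL H hH => ?_⟩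
      · obtain ⟨l', a, rfl⟩ : ∃ l' a, l = l' ++ [a] := by
          have hne : l ≠ [] := by rintro rfl; simp at hl
          exact ⟨l.dropLast, l.getLast hne, (List.dropLast_append_getLast hne).symm⟩
        have hl' : l'.length = t := by simpa using hl
        rw [h2 ω l' a hl', hδ₁ ω l' hl']
        simp
      · rw [av_snoc]
        simp only [List.dropLast_concat, ravg_const H hH]
        refine (hgen L hL H hH).trans ?_
        gcongr
        linarith
    · obtain ⟨δ₂, hδ₂, hgen₂⟩ := ih α₂ h2
      obtain ⟨δ₁, hδ₁⟩ : ∃ δ₁ : Λ → List ℕ → ℤ,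
          (∀ ω l, l.length = t → α₁ ω l = δ₁ (π ω) l) := by
        rcases h1 with h1 | h1
        · obtain ⟨δ₁, h, -⟩ := ih α₁ h1
          exact ⟨δ₁, h⟩
        · exact ⟨fun _ _ => 0, fun ω l _ => h1 ω l⟩
      refine ⟨fun L l => δ₁ L l.dropLast + D * δ₂ L l.dropLast * (l.getLastD 0),
        fun ω l hl => ?_, fun L hL H hH => ?_⟩
      · obtain ⟨l', a, rfl⟩ : ∃ l' a, l = l' ++ [a] := by
          have hne : l ≠ [] := by rintro rfl; simp at hl
          exact ⟨l.dropLast, l.getLast hne, (List.dropLast_append_getLast hne).symm⟩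
        have hl' : l'.length = t := by simpa using hl
        rw [h3 ω l' a hl', hδ₁ ω l' hl', hδ₂ ω l' hl']
        simp only [List.dropLast_concat, List.getLastD_concat]
      · rw [av_snoc]
        simp only [List.dropLast_concat, List.getLastD_concat]
        have hH0 : (0 : ℝ) < H := by exact_mod_cast hH
        have key : ∀ l, ravg H (fun h : ℕ => if δ₁ L l + D * δ₂ L l * (h : ℤ) = 0 then (1 : ℝ)
            else 0) ≤ (if δ₂ L l = 0 then (1 : ℝ) else 0) + 1 / H := by
          intro l
          by_cases h0 : δ₂ L l = 0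
          · rw [if_pos h0]
            have : ravg H (fun h : ℕ => if δ₁ L l + D * δ₂ L l * (h : ℤ) = 0 then (1 : ℝ) else 0)
                ≤ 1 := by
              refine ravg_le _ zero_le_one fun n _ => ?_
              split_ifs <;> norm_num
            have : (0 : ℝ) ≤ 1 / H := by positivity
            linarith
          · rw [if_neg h0, zero_add]
            have : (D : ℤ) * δ₂ L l ≠ 0 := mul_ne_zero (by exact_mod_cast (by omega : D ≠ 0)) h0
            exact ravg_zero_le H (δ₁ L l) (D * δ₂ L l) this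
        refine (av_mono _ _ _ _ fun l _ => key l).trans ?_
        rw [av_add, av_const _ _ hH]
        have := hgen₂ L hL H hH
        push_cast
        rw [add_div]
        linarith

/-- PET for a general class of good functions. -/
theorem pet_gen {G : (Ω → ℤ) → Prop} {ι : Type} (B : Finset ι) (p : ι → Polynomial (Ω → ℤ))
    (q : Polynomial (Ω → ℤ)) (hq : 1 ≤ q.natDegree) (hqG : G q.leadingCoeff)
    (hp : ∀ i ∈ B, 1 ≤ (q - p i).natDegree ∧ G (q - p i).leadingCoeff)
    (hdeg : ∀ i ∈ B, (p i).natDegree ≤ q.natDegree) : Concl G B p q := by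
  classical
  set B' := B.filter (fun i => 1 ≤ (p i).natDegree) with hB'
  have F : Fam G B' p q :=
    ⟨hq, hqG, fun i hi => (mem_filter.1 hi).2, fun i hi => hdeg i (mem_filter.1 hi).1,
      fun i hi => hp i (mem_filter.1 hi).1⟩
  obtain ⟨t, k, C, ds, hne, hC, hBT, hbd⟩ := pet_fam _ Ω _ ι B' p q F rfl
  refine ⟨t, k, C, ds, hne, hC, hBT, ?_⟩
  intro X _ μ _ A ω z hz g hg f hf H₁ H₂ N hH₁ hH₂ hN
  have h1 := hbd X μ A ω z hz g hg f hf H₁ H₂ N hH₁ hH₂ hN
  have h2 := JJ_drop A N hz B B' (filter_subset _ _) (fun i (s : ℕ) => evp (p i) ω s) hg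
    (fun s : ℕ => evp q ω s) hf (by
      intro i hi hi' s
      have h0 : (p i).natDegree = 0 := by
        by_contra h1
        exact hi' (mem_filter.2 ⟨hi, by omega⟩)
      exact evp_const _ h0 ω s _)
  exact (pow_le_pow_left₀ (JJ_nonneg _ _ _ _ _ _ _ _) h2 _).trans h1

end tower2

section quad

/-- the parameter space -/
abbrev Om (r : ℕ) : Type := {L : List ℤ // L.length = r ∧ NZ L} × (List ℤ × ℤ)

/-- `g (X + a)^2 + k` -/
noncomputable def qp {r : ℕ} (g k : Om r → ℤ) : Polynomial (Om r → ℤ) :=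
  C g * (X + C (fun ω => ω.2.2)) ^ 2 + C k

theorem qp_add {r : ℕ} (g k g' k' : Om r → ℤ) : qp g k + qp g' k' = qp (g + g') (k + k') := by
  unfold qp; rw [C_add, C_add]; ring

theorem qp_quad {r : ℕ} (g k : Om r → ℤ) : qp g k =
    C g * X ^ 2 + C (2 * g * (fun ω => ω.2.2)) * X + C (g * (fun ω => ω.2.2) ^ 2 + k) := by
  unfold qp
  simp only [C_add, C_mul, C_pow]
  have : (C (2 : Om r → ℤ) : Polynomial (Om r → ℤ)) = 2 := rfl
  rw [this]
  ring

theorem evp_qp {r : ℕ} (g k : Om r → ℤ) (ω : Om r) (s : ℤ) :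
    evp (qp g k) ω s = g ω * (ω.2.2 + s) ^ 2 + k ω := by
  unfold evp qp
  simp
  left
  ring

theorem ns_qp {r : ℕ} (l : List ((Om r → ℤ) × (Om r → ℤ))) (w : Polynomial (Om r → ℤ))
    (hw : w ∈ ns (l.map (fun x => qp x.1 x.2))) :
    ∃ g ∈ ns (l.map Prod.fst), ∃ k, w = qp g k := by
  induction l generalizing w with
  | nil => simp [ns] at hw
  | cons a l ih =>
    simp only [List.map_cons, ns, List.mem_append, List.mem_cons, List.mem_map] at hw ⊢
    rcases hw with hw | rfl | ⟨w', hw', rfl⟩
    · obtain ⟨g, hg, k, rfl⟩ := ih w (by simpa using hw)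
      exact ⟨g, Or.inl (by simpa using hg), k, rfl⟩
    · exact ⟨a.1, Or.inr (Or.inl rfl), a.2, rfl⟩
    · obtain ⟨g, hg, k, rfl⟩ := ih w' (by simpa using hw')
      exact ⟨a.1 + g, Or.inr (Or.inr ⟨g, by simpa using hg, rfl⟩), a.2 + k, qp_add _ _ _ _⟩

/-- coordinates -/
def Lc₀ (j : ℕ) : List ℤ → ℤ := fun L => L.getD j 0

/-- pull back -/
def pb (r : ℕ) : (List ℤ → ℤ) →+ (Om r → ℤ) where
  toFun := fun g ω => g ω.1.1
  map_zero' := rfl
  map_add' := fun _ _ => rfl

/-- evaluation as an additive homomorphism -/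
noncomputable def evh {Ω : Type} (ω : Ω) (s : ℤ) : Polynomial (Ω → ℤ) →+ ℤ :=
  ((evalRingHom s).comp (mapRingHom (Pi.evalRingHom (fun _ : Ω => ℤ) ω))).toAddMonoidHom

theorem evh_apply {Ω : Type} (ω : Ω) (s : ℤ) (p : Polynomial (Ω → ℤ)) :
    evh ω s p = evp p ω s := rfl

theorem pet2 (r : ℕ) (hr : 1 ≤ r) : ∃ (t k : ℕ) (C : ℝ) (ds : List (List ℤ → List ℕ → ℤ)),
    ds ≠ [] ∧ 0 ≤ C ∧
    (∀ δ ∈ ds, ∀ L : List ℤ, L.length = r → NZ L → ∀ H : ℕ, 1 ≤ H →
      av t H (fun l => if δ L l = 0 then (1 : ℝ) else 0) ≤ C / H) ∧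
    ∀ (X : Type) [MeasurableSpace X] (μ : Measure X) [IsProbabilityMeasure μ] (A : Act X μ)
      (L κ : List ℤ), L.length = r → κ.length = r → NZ L → ∀ (a : ℤ) (F : X → ℂ), Bdd F →
      ∀ (H₁ H₂ N : ℕ), 1 ≤ H₁ → 1 ≤ H₂ → 1 ≤ N →
      ‖avg N (fun s => ∫ x, cub A (List.zipWith (fun u v => u * (a + s) ^ 2 + v) L κ) F x ∂μ)‖
        ^ (2 ^ k) ≤
      C * av t H₁ (fun l => av ds.length H₂ (fun m => Cor A (List.zipWith
        (fun (δ : List ℤ → List ℕ → ℤ) (h : ℕ) => δ L l * (h : ℤ)) ds m) F)) +
      C * (((H₁ + H₂ : ℕ) : ℝ) / N) := by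
  classical
  have : Nonempty (Om r) :=
    ⟨(⟨List.replicate r 1, by simp, NZ_replicate r⟩, ([], 0))⟩
  set prs : List ((Om r → ℤ) × (Om r → ℤ)) := (List.range r).map
    (fun j => (pb r (Lc₀ j), fun ω => ω.2.1.getD j 0)) with hprs
  set γP : List (Polynomial (Om r → ℤ)) := prs.map (fun x => qp x.1 x.2) with hγP
  set π : Om r → List ℤ := fun ω => ω.1.1 with hπ
  set good : List ℤ → Prop := fun L => L.length = r ∧ NZ L with hgood
  -- sub-sums
  have hns : ∀ w ∈ ns γP, w.natDegree = 2 ∧ G2 π good w.leadingCoeff := by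
    intro w hw
    obtain ⟨g, hg, k, rfl⟩ := ns_qp prs w hw
    have e1 : prs.map Prod.fst = ((List.range r).map Lc₀).map (pb r) := by
      rw [hprs, List.map_map, List.map_map]
      rfl
    rw [e1, ns_map] at hg
    obtain ⟨g₀, hg₀, rfl⟩ := List.mem_map.1 hg
    have hg₀' : ∀ L, good L → g₀ L ≠ 0 := by
      intro L hL
      have e2 : g₀ L ∈ ns L := by
        have e3 := ns_map (Pi.evalAddMonoidHom (fun _ : List ℤ => ℤ) L) ((List.range r).map Lc₀)
        have e4 : ((List.range r).map Lc₀).map (Pi.evalAddMonoidHom (fun _ : List ℤ => ℤ) L) =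
            L := by
          rw [List.map_map]
          have := map_range_getD L 0
          rw [hL.1] at this
          conv_rhs => rw [← this]
          rfl
        rw [e4] at e3
        rw [e3]
        exact List.mem_map_of_mem hg₀
      exact hL.2 _ e2
    have hne : pb r g₀ ≠ 0 := by
      intro h0
      obtain ⟨ω⟩ := (inferInstance : Nonempty (Om r))
      exact hg₀' ω.1.1 ω.1.2 (congrFun h0 ω)
    rw [qp_quad]
    refine ⟨natDegree_quadratic hne, ?_⟩
    rw [leadingCoeff_quadratic hne]
    exact ⟨g₀, hg₀', fun ω => rfl⟩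
  have hγne : γP ≠ [] := by
    rw [hγP, hprs]
    intro h
    have := congrArg List.length h
    simp at this
    omega
  have hq := hns _ (sum_ns γP hγne)
  set T := tl γP with hT
  have hgetD : ∀ i ∈ range T.length, T.getD i (0, false) ∈ T := by
    intro i hi
    have hi' := mem_range.1 hi
    rw [List.getD_eq_getElem _ _ hi']
    exact List.getElem_mem hi'
  obtain ⟨t, k, C, ds, hdsne, hC, hBT, hbd⟩ := pet_gen (G := G2 π good) (range T.length)
    (fun i => (T.getD i (0, false)).1) γP.sum (by omega) hq.2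
    (fun i hi => by
      have := hns _ (tl_ns γP _ (hgetD i hi))
      exact ⟨by omega, this.2⟩)
    (fun i hi => by
      have h1 := hns _ (tl_ns γP _ (hgetD i hi))
      have h2 : (T.getD i (0, false)).1 = γP.sum - (γP.sum - (T.getD i (0, false)).1) := by ring
      rw [h2]
      refine (natDegree_sub_le _ _).trans (max_le le_rfl ?_)
      rw [h1.1, hq.1])
  have hch : ∀ δ : Om r → List ℕ → ℤ, ∃ δ₀ : List ℤ → List ℕ → ℤ, δ ∈ ds →
      (∀ ω l, l.length = t → δ ω l = δ₀ (π ω) l) ∧
      ∀ L, good L → ∀ H : ℕ, 1 ≤ H →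
        av t H (fun l => if δ₀ L l = 0 then (1 : ℝ) else 0) ≤ t / H := by
    intro δ
    by_cases hδ : δ ∈ ds
    · obtain ⟨δ₀, h1, h2⟩ := BT_generic2 π good t δ (hBT δ hδ)
      exact ⟨δ₀, fun _ => ⟨h1, h2⟩⟩
    · exact ⟨fun _ _ => 0, fun h => absurd h hδ⟩
  choose d hd using hch
  refine ⟨t, k, max C t, ds.map d, by simpa using hdsne, hC.trans (le_max_left _ _), ?_, ?_⟩
  · intro δ' hδ' L hL hNZ H hH
    obtain ⟨δ, hδ, rfl⟩ := List.mem_map.1 hδ'
    refine ((hd δ hδ).2 L ⟨hL, hNZ⟩ H hH).trans ?_
    gcongr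
    exact le_max_right _ _
  · intro X _ μ _ A L κ hL hκ hNZ a F hF H₁ H₂ N hH₁ hH₂ hN
    set ω : Om r := (⟨L, hL, hNZ⟩, (κ, a)) with hω
    set g : ℕ → X → ℂ := fun i x => cj (T.getD i (0, false)).2 (F x) with hg
    have hgB : ∀ i, Bdd (g i) := by
      intro i
      simp only [hg]
      cases (T.getD i (0, false)).2
      · simpa [cj] using hF
      · simpa [cj] using hF.conj
    have h1 := hbd X μ A ω (fun _ => 1) (fun _ => by simp) g hgB F hF H₁ H₂ N hH₁ hH₂ hN
    have hcub : ∀ (s : ℕ) (x : X),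
        cub A (List.zipWith (fun u v => u * (a + s) ^ 2 + v) L κ) F x =
        1 * F (A.S (evp γP.sum ω s) x) *
          ∏ i ∈ range T.length, g i (A.S (evp (T.getD i (0, false)).1 ω s) x) := by
      intro s x
      have e1 : List.zipWith (fun u v => u * (a + s) ^ 2 + v) L κ = γP.map (evh ω s) := by
        rw [hγP, hprs, List.map_map, List.map_map]
        apply List.ext_getElem
        · simp [hL, hκ]
        · intro i h2 h3
          have hi : i < r := by simpa using h3
          simp only [List.getElem_zipWith, List.getElem_map, List.getElem_range,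
            Function.comp_apply, evh_apply, evp_qp]
          have e2 : pb r (Lc₀ i) ω = L[i]'(by omega) := by
            show L.getD i 0 = _
            rw [List.getD_eq_getElem _ _ (by omega)]
          have e3 : κ.getD i 0 = κ[i]'(by omega) := List.getD_eq_getElem _ _ (by omega)
          rw [e2]
          show _ = _ * _ + κ.getD i 0
          rw [e3]
      rw [e1, cub_eq, tl_map, ← map_list_sum, one_mul, ← hT, List.map_map,
        prod_range_getD _ T (0, false)]
      rfl
    have h2 : ‖avg N (fun s => ∫ x, cub A (List.zipWith (fun u v => u * (a + s) ^ 2 + v) L κ)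
        F x ∂μ)‖ ≤ JJ A N (fun _ => 1) (range T.length)
          (fun i s => evp (T.getD i (0, false)).1 ω s) g (fun s => evp γP.sum ω s) F := by
      unfold JJ
      have hb := bdd_term A (z := fun _ => 1) (fun _ => by simp) (range T.length)
          (fun i (s : ℕ) => evp (T.getD i (0, false)).1 ω s) hgB
          (fun s : ℕ => evp γP.sum ω s) hF
      refine le_trans (le_of_eq ?_) (norm_integral_le_n2 (Bdd.avg N _ hb).bm)
      rw [integral_avg N _ fun s => (hb s).bm]
      simp only [hcub]
    refine (pow_le_pow_left₀ (norm_nonneg _) h2 _).trans (h1.trans ?_)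
    have h3 : av t H₁ (fun l => av (ds.map d).length H₂ (fun m => Cor A (List.zipWith
          (fun (δ : List ℤ → List ℕ → ℤ) (h : ℕ) => δ L l * (h : ℤ)) (ds.map d) m) F)) =
        av t H₁ (fun l => av ds.length H₂ (fun m => Cor A
        (List.zipWith (fun (δ : Om r → List ℕ → ℤ) (h : ℕ) => δ ω l * (h : ℤ)) ds m) F)) := by
      refine av_congr _ _ _ _ fun l hl => ?_
      rw [List.length_map]
      congr 1
      ext m
      congr 1
      rw [List.zipWith_map_left]
      have aux : ∀ (ds' : List (Om r → List ℕ → ℤ)) (m : List ℕ), (∀ δ ∈ ds', δ ∈ ds) →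
          List.zipWith (fun (δ : Om r → List ℕ → ℤ) (h : ℕ) => d δ L l * (h : ℤ)) ds' m =
          List.zipWith (fun (δ : Om r → List ℕ → ℤ) (h : ℕ) => δ ω l * (h : ℤ)) ds' m := by
        intro ds'
        induction ds' with
        | nil => intro m _; simp
        | cons δ ds' ih =>
          intro m hm
          rcases m with _ | ⟨a, m⟩
          · simp
          · rw [List.zipWith_cons_cons, List.zipWith_cons_cons,
              ih m fun δ' h' => hm δ' (List.mem_cons_of_mem _ h'),
              (hd δ (hm δ List.mem_cons_self)).1 ω l hl]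
      exact aux ds m fun _ h => h
    rw [h3]
    have h4 : 0 ≤ av t H₁ (fun l => av ds.length H₂ (fun m => Cor A
        (List.zipWith (fun (δ : Om r → List ℕ → ℤ) (h : ℕ) => δ ω l * (h : ℤ)) ds m) F)) :=
      av_nonneg _ _ _ fun l => av_nonneg _ _ _ fun m => Cor_nonneg _ _ _
    have h5 : C ≤ max C t := le_max_left _ _
    gcongr

end quad

end Pool.Agent.JE
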