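import Pool.Agent.Helper65.JE.PetStep

/-! The algebra of polynomial exhaustion: families of polynomials over function rings
(MP_ce5406_an). -/

open MeasureTheory Filter Topology Finset Polynomial
open scoped BigOperators ComplexConjugate

namespace Pool.Agent.JE

section alg
variable {Ω : Type}

/-- evaluation of a polynomial with coefficients in `Ω → ℤ` -/
noncomputable def evp (p : Polynomial (Ω → ℤ)) (ω : Ω) (s : ℤ) : ℤ :=
  (p.map (Pi.evalRingHom (fun _ : Ω => ℤ) ω)).eval s

/-- pull back functions from `Ω` to `Ω × ℕ` -/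
def pull (Ω : Type) : (Ω → ℤ) →+* (Ω × ℕ → ℤ) :=
  RingHom.pi fun x => Pi.evalRingHom (fun _ : Ω => ℤ) x.1

@[simp] theorem pull_apply (g : Ω → ℤ) (x : Ω × ℕ) : pull Ω g x = g x.1 := rfl

theorem pull_inj : Function.Injective (pull Ω) := by
  intro a b h
  ext ω
  have := congrFun h (ω, 0)
  simpa using this

/-- the new variable -/
def hvar (Ω : Type) : Ω × ℕ → ℤ := fun x => x.2

/-- unshifted copy -/
noncomputable def pl (P : Polynomial (Ω → ℤ)) : Polynomial (Ω × ℕ → ℤ) := P.map (pull Ω)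

/-- shifted copy -/
noncomputable def sh (P : Polynomial (Ω → ℤ)) : Polynomial (Ω × ℕ → ℤ) :=
  taylor (hvar Ω) (pl P)

theorem natDegree_pl (P : Polynomial (Ω → ℤ)) : (pl P).natDegree = P.natDegree :=
  natDegree_map_eq_of_injective pull_inj P

theorem coeff_pl (P : Polynomial (Ω → ℤ)) (n : ℕ) : (pl P).coeff n = pull Ω (P.coeff n) :=
  coeff_map _ _

theorem natDegree_sh (P : Polynomial (Ω → ℤ)) : (sh P).natDegree = P.natDegree := by
  unfold sh
  rw [natDegree_taylor, natDegree_pl]

theorem leadingCoeff_sh (P : Polynomial (Ω → ℤ)) :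
    (sh P).leadingCoeff = pull Ω P.leadingCoeff := by
  unfold sh
  rw [leadingCoeff_taylor, leadingCoeff, natDegree_pl, coeff_pl, leadingCoeff]

theorem pl_sub (P Q : Polynomial (Ω → ℤ)) : pl (P - Q) = pl P - pl Q :=
  Polynomial.map_sub _

theorem sh_sub (P Q : Polynomial (Ω → ℤ)) : sh (P - Q) = sh P - sh Q := by
  unfold sh; rw [pl_sub, map_sub]

theorem evp_pl (P : Polynomial (Ω → ℤ)) (ω : Ω) (h : ℕ) (s : ℤ) :
    evp (pl P) (ω, h) s = evp P ω s := by
  unfold evp pl
  rw [Polynomial.map_map]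
  rfl

theorem evp_sh (P : Polynomial (Ω → ℤ)) (ω : Ω) (h : ℕ) (s : ℤ) :
    evp (sh P) (ω, h) s = evp P ω (s + h) := by
  have := evp_pl P ω h (s + h)
  rw [← this]
  unfold evp sh
  rw [map_taylor, taylor_eval]
  rfl

theorem evp_sub (P Q : Polynomial (Ω → ℤ)) (ω : Ω) (s : ℤ) :
    evp (P - Q) ω s = evp P ω s - evp Q ω s := by
  unfold evp
  rw [Polynomial.map_sub, eval_sub]

theorem evp_const (P : Polynomial (Ω → ℤ)) (hP : P.natDegree = 0) (ω : Ω) (s t : ℤ) :
    evp P ω s = evp P ω t := by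
  rw [eq_C_of_natDegree_eq_zero hP]
  unfold evp
  simp

theorem coeff_sh_top (P : Polynomial (Ω → ℤ)) (n : ℕ) (hn : P.natDegree ≤ n) :
    (sh P).coeff n = pull Ω (P.coeff n) := by
  rcases hn.eq_or_lt with h | h
  · subst h
    have := leadingCoeff_sh P
    rw [leadingCoeff, natDegree_sh] at this
    exact this
  · rw [coeff_eq_zero_of_natDegree_lt (by rwa [natDegree_sh]), coeff_eq_zero_of_natDegree_lt h,
      map_zero]

theorem coeff_sh_pred (P : Polynomial (Ω → ℤ)) (n : ℕ) (hn : P.natDegree ≤ n + 1) :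
    (sh P).coeff n = pull Ω (P.coeff n) + ((n + 1 : ℕ) : Ω × ℕ → ℤ) * pull Ω (P.coeff (n + 1)) *
      hvar Ω := by
  unfold sh
  rw [taylor_coeff]
  have h1 : (hasseDeriv n (pl P)).natDegree ≤ 1 := by
    refine (natDegree_hasseDeriv_le _ _).trans ?_
    rw [natDegree_pl]; omega
  have h2 : hasseDeriv n (pl P) = C ((hasseDeriv n (pl P)).coeff 1) * X +
      C ((hasseDeriv n (pl P)).coeff 0) := by
    conv_lhs => rw [eq_X_add_C_of_natDegree_le_one h1]
  rw [h2]
  simp only [hasseDeriv_coeff, coeff_pl]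
  simp only [eval_add, eval_mul, eval_C, eval_X, zero_add, Nat.choose_self, Nat.cast_one, one_mul]
  rw [add_comm 1 n, Nat.choose_succ_self_right]
  ring

theorem natDegree_lc_of {R : Type*} [CommRing R] (Q : Polynomial R) (m : ℕ)
    (hle : Q.natDegree ≤ m) (hne : Q.coeff m ≠ 0) :
    Q.natDegree = m ∧ Q.leadingCoeff = Q.coeff m := by
  have h := le_antisymm hle (le_natDegree_of_ne_zero hne)
  exact ⟨h, by rw [leadingCoeff, h]⟩

theorem natDegree_diff_le (P : Polynomial (Ω → ℤ)) (n : ℕ) (hn : P.natDegree ≤ n + 1) :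
    (sh P - pl P).natDegree ≤ n := by
  rw [natDegree_le_iff_coeff_eq_zero]
  intro k hk
  rw [coeff_sub, coeff_pl]
  have : P.natDegree ≤ k := by omega
  rw [coeff_sh_top P k this, sub_self]

theorem coeff_diff (P : Polynomial (Ω → ℤ)) (n : ℕ) (hn : P.natDegree ≤ n + 1) :
    (sh P - pl P).coeff n = ((n + 1 : ℕ) : Ω × ℕ → ℤ) * pull Ω (P.coeff (n + 1)) * hvar Ω := by
  rw [coeff_sub, coeff_pl, coeff_sh_pred P n hn]
  ring

/-- One-step extension of a class of good functions. -/
def Ext (G : (Ω → ℤ) → Prop) (g' : Ω × ℕ → ℤ) : Prop :=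
  (∃ g, G g ∧ g' = fun x => g x.1) ∨
  (∃ (g₁ g₂ : Ω → ℤ) (D : ℕ), (G g₁ ∨ g₁ = 0) ∧ G g₂ ∧ 1 ≤ D ∧
    g' = fun x => g₁ x.1 + D * g₂ x.1 * x.2)

theorem ne_zero_aux (g₁ g₂ : Ω → ℤ) (D : ℕ) (hD : 1 ≤ D) (h2 : g₂ ≠ 0) :
    (fun x : Ω × ℕ => g₁ x.1 + D * g₂ x.1 * x.2) ≠ 0 := by
  intro h
  apply h2
  ext ω
  have e0 := congrFun h (ω, 0)
  have e1 := congrFun h (ω, 1)
  simp only [Pi.zero_apply, Nat.cast_zero, mul_zero, add_zero, Nat.cast_one, mul_one] at e0 e1 ⊢
  rw [e0, zero_add] at e1
  rcases mul_eq_zero.1 e1 with h | h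
  · exfalso
    have : D = 0 := by exact_mod_cast h
    omega
  · exact h

/-- The invariants of a family. -/
structure Fam (G : (Ω → ℤ) → Prop) {ι : Type} (B : Finset ι) (p : ι → Polynomial (Ω → ℤ))
    (q : Polynomial (Ω → ℤ)) : Prop where
  q1 : 1 ≤ q.natDegree
  qG : G q.leadingCoeff
  p1 : ∀ i ∈ B, 1 ≤ (p i).natDegree
  pd : ∀ i ∈ B, (p i).natDegree ≤ q.natDegree
  dG : ∀ i ∈ B, 1 ≤ (q - p i).natDegree ∧ G (q - p i).leadingCoeff

/-- New polynomials. -/
noncomputable def newp {ι : Type} (p : ι → Polynomial (Ω → ℤ)) (q p0 : Polynomial (Ω → ℤ)) :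
    ι ⊕ Option ι → Polynomial (Ω × ℕ → ℤ)
  | Sum.inl i => sh (p i) - pl p0
  | Sum.inr (some i) => pl (p i) - pl p0
  | Sum.inr none => pl q - pl p0

open Classical in
/-- The new active set. -/
noncomputable def newB {ι : Type} (B : Finset ι) (p : ι → Polynomial (Ω → ℤ))
    (q p0 : Polynomial (Ω → ℤ)) : Finset (ι ⊕ Option ι) :=
  (fullB B).filter (fun j => 1 ≤ (newp p q p0 j).natDegree)

theorem lc_ne_zero {R : Type*} [CommRing R] {P : Polynomial R} (h : 1 ≤ P.natDegree) :
    P.leadingCoeff ≠ 0 := by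
  intro h0
  rw [leadingCoeff_eq_zero] at h0
  rw [h0] at h
  simp at h

/-- the difference of the shifted tracked polynomial with an unshifted polynomial -/
theorem diff_some {G : (Ω → ℤ) → Prop} (q P : Polynomial (Ω → ℤ)) (hq : 2 ≤ q.natDegree)
    (hqG : G q.leadingCoeff) (hPd : P.natDegree ≤ q.natDegree)
    (hd : 1 ≤ (q - P).natDegree) (hdG : G (q - P).leadingCoeff) :
    1 ≤ (sh q - pl P).natDegree ∧ Ext G (sh q - pl P).leadingCoeff := by
  have e1 : sh q - pl P = sh (q - P) + (sh P - pl P) := by rw [sh_sub]; ring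
  rcases Nat.lt_or_ge (q - P).natDegree P.natDegree with h | h
  · -- same leading coefficient
    have hk : ∀ k, (q - P).natDegree < k → q.coeff k = P.coeff k := fun k hk => by
      have := coeff_eq_zero_of_natDegree_lt hk
      rw [coeff_sub, sub_eq_zero] at this
      exact this
    have hdeg : P.natDegree = q.natDegree := by
      refine le_antisymm hPd ?_
      by_contra hlt
      have := hk q.natDegree (by omega)
      rw [coeff_eq_zero_of_natDegree_lt (p := P) (by omega)] at this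
      exact lc_ne_zero (by omega : 1 ≤ q.natDegree) this
    obtain ⟨m, hm⟩ : ∃ m, q.natDegree = m + 1 := ⟨q.natDegree - 1, by omega⟩
    have hlc : P.coeff (m + 1) = q.leadingCoeff := by
      rw [leadingCoeff, hm]
      exact (hk (m + 1) (by omega)).symm
    have hle : (sh q - pl P).natDegree ≤ m := by
      rw [e1]
      refine (natDegree_add_le _ _).trans (max_le ?_ (natDegree_diff_le P m (by omega)))
      rw [natDegree_sh]; omega
    have hco : (sh q - pl P).coeff m =
        fun x => (q - P).coeff m x.1 + ((m + 1 : ℕ) : ℤ) * q.leadingCoeff x.1 * x.2 := by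
      rw [e1, coeff_add, coeff_diff P m (by omega), coeff_sh_top (q - P) m (by omega), hlc]
      rfl
    have hne : (sh q - pl P).coeff m ≠ 0 := by
      rw [hco]
      exact ne_zero_aux _ _ (m + 1) (by omega) (lc_ne_zero (by omega : 1 ≤ q.natDegree))
    obtain ⟨h3, h4⟩ := natDegree_lc_of _ m hle hne
    refine ⟨by omega, ?_⟩
    rw [h4, hco]
    refine Or.inr ⟨(q - P).coeff m, q.leadingCoeff, m + 1, ?_, hqG, by omega, rfl⟩
    rcases Nat.lt_or_ge (q - P).natDegree m with h5 | h5
    · exact Or.inr (coeff_eq_zero_of_natDegree_lt h5)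
    · left
      have : (q - P).natDegree = m := by omega
      rw [← this]
      exact hdG
  · have hlt : (sh P - pl P).natDegree < (sh (q - P)).natDegree := by
      rw [natDegree_sh]
      rcases Nat.eq_zero_or_pos P.natDegree with h0 | h0
      · have : sh P - pl P = 0 := by
          obtain ⟨c, hc⟩ : ∃ c, P = C c := ⟨_, eq_C_of_natDegree_eq_zero h0⟩
          subst hc
          unfold sh pl
          simp
        rw [this]; simp; omega
      · obtain ⟨n, hn⟩ : ∃ n, P.natDegree = n + 1 := ⟨P.natDegree - 1, by omega⟩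
        have := natDegree_diff_le P n hn.le
        omega
    have hdeg : (sh q - pl P).natDegree = (q - P).natDegree := by
      rw [e1, natDegree_add_eq_left_of_natDegree_lt hlt, natDegree_sh]
    have hlc : (sh q - pl P).leadingCoeff = pull Ω (q - P).leadingCoeff := by
      rw [leadingCoeff, hdeg, e1, coeff_add, coeff_sh_top _ _ le_rfl]
      rw [natDegree_sh] at hlt
      rw [coeff_eq_zero_of_natDegree_lt hlt, add_zero, leadingCoeff]
    refine ⟨by omega, ?_⟩
    rw [hlc]
    exact Or.inl ⟨_, hdG, rfl⟩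

theorem diff_self {G : (Ω → ℤ) → Prop} (q : Polynomial (Ω → ℤ)) (hq : 2 ≤ q.natDegree)
    (hqG : G q.leadingCoeff) :
    (sh q - pl q).natDegree = q.natDegree - 1 ∧ Ext G (sh q - pl q).leadingCoeff := by
  obtain ⟨m, hm⟩ : ∃ m, q.natDegree = m + 1 := ⟨q.natDegree - 1, by omega⟩
  have hco : (sh q - pl q).coeff m =
      fun x => (0 : Ω → ℤ) x.1 + ((m + 1 : ℕ) : ℤ) * q.leadingCoeff x.1 * x.2 := by
    rw [coeff_diff q m (by omega), leadingCoeff, hm]
    ext x
    simp [hvar]
  have hne : (sh q - pl q).coeff m ≠ 0 := by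
    rw [hco]
    exact ne_zero_aux _ _ (m + 1) (by omega) (lc_ne_zero (by omega : 1 ≤ q.natDegree))
  obtain ⟨h3, h4⟩ := natDegree_lc_of _ m (natDegree_diff_le q m hm.le) hne
  refine ⟨by omega, ?_⟩
  rw [h4, hco]
  exact Or.inr ⟨0, q.leadingCoeff, m + 1, Or.inr rfl, hqG, by omega, rfl⟩

/-- class of a polynomial -/
noncomputable def cl {R : Type*} [CommRing R] (P : Polynomial R) : ℕ × R :=
  (P.natDegree, P.leadingCoeff)

open Classical in
/-- set of classes -/
noncomputable def Kset {ι : Type} (B : Finset ι) (p : ι → Polynomial (Ω → ℤ))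
    (q : Polynomial (Ω → ℤ)) : Finset (ℕ × (Ω → ℤ)) :=
  insert (cl q) (B.image (fun i => cl (p i)))

/-- weight -/
noncomputable def wt {ι : Type} (B : Finset ι) (p : ι → Polynomial (Ω → ℤ))
    (q : Polynomial (Ω → ℤ)) : Multiset ℕ := (Kset B p q).val.map Prod.fst

theorem map_image_le {α β : Type*} [DecidableEq β] (S : Finset α) (ψ : α → β) (u : α → ℕ)
    (v : β → ℕ) (h : ∀ a ∈ S, v (ψ a) = u a) : (S.image ψ).val.map v ≤ S.val.map u := by
  have h1 : (S.image ψ).val ≤ S.val.map ψ := by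
    rw [Finset.image_val]
    exact Multiset.dedup_le _
  refine (Multiset.map_le_map h1).trans (le_of_eq ?_)
  rw [Multiset.map_map]
  exact Multiset.map_congr rfl fun a ha => h a ha

/-- the map on classes -/
noncomputable def psi (j₀ : ℕ) (c0 : Ω → ℤ) (x : ℕ × (Ω → ℤ)) : ℕ × (Ω × ℕ → ℤ) :=
  (x.1, if x.1 = j₀ then pull Ω x.2 - pull Ω c0 else pull Ω x.2)

theorem class_lemma (T : Polynomial (Ω × ℕ → ℤ)) (P p0 : Polynomial (Ω → ℤ))
    (hT : T.natDegree = P.natDegree) (hTc : T.leadingCoeff = pull Ω P.leadingCoeff)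
    (hj : 1 ≤ p0.natDegree) (hle : p0.natDegree ≤ P.natDegree)
    (hge : p0.natDegree ≤ (T - pl p0).natDegree) :
    cl (T - pl p0) = psi p0.natDegree p0.leadingCoeff (cl P) ∧ cl P ≠ cl p0 := by
  rcases hle.lt_or_eq with h | h
  · have h1 : (T - pl p0).natDegree = P.natDegree := by
      rw [natDegree_sub_eq_left_of_natDegree_lt (by rw [natDegree_pl, hT]; exact h), hT]
    have h2 : (T - pl p0).leadingCoeff = pull Ω P.leadingCoeff := by
      rw [leadingCoeff, h1, coeff_sub, ← hT]
      rw [coeff_eq_zero_of_natDegree_lt (p := pl p0) (by rw [natDegree_pl, hT]; exact h),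
        sub_zero]
      exact hTc
    refine ⟨?_, fun h3 => ?_⟩
    · unfold cl psi
      rw [h1, h2]
      simp only
      rw [if_neg (by omega)]
    · have := congrArg Prod.fst h3
      simp only [cl] at this
      omega
  · have h1 : (T - pl p0).natDegree ≤ p0.natDegree :=
      (natDegree_sub_le _ _).trans (max_le (by omega) (by rw [natDegree_pl]))
    have h2 : (T - pl p0).natDegree = p0.natDegree := le_antisymm h1 hge
    have h3 : (T - pl p0).leadingCoeff = pull Ω P.leadingCoeff - pull Ω p0.leadingCoeff := by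
      rw [leadingCoeff, h2, coeff_sub, coeff_pl]
      rw [← hTc, leadingCoeff, hT, ← h]
      rfl
    refine ⟨?_, fun h4 => ?_⟩
    · unfold cl psi
      rw [h2, h3]
      simp only
      rw [if_pos h.symm, h]
    · have h5 := congrArg Prod.snd h4
      simp only [cl] at h5
      have h6 := lc_ne_zero (P := T - pl p0) (by omega)
      rw [h3, h5, sub_self] at h6
      exact h6 rfl

theorem step_core {G : (Ω → ℤ) → Prop} {ι : Type} {B : Finset ι} {p : ι → Polynomial (Ω → ℤ)}
    {q : Polynomial (Ω → ℤ)} (F : Fam G B p q) (h2 : 2 ≤ q.natDegree) (p0 : Polynomial (Ω → ℤ))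
    (hp0 : p0 = q ∨ ∃ i ∈ B, p0 = p i)
    (hmin : ∀ i ∈ B, p0.natDegree ≤ (p i).natDegree) (hminq : p0.natDegree ≤ q.natDegree)
    (hcase : p0.natDegree < q.natDegree ∨
      (p0.natDegree = q.natDegree ∧ p0.leadingCoeff ≠ q.leadingCoeff) ∨
      (p0 = q ∧ ∀ i ∈ B, cl (p i) = cl q)) :
    Fam (Ext G) (newB B p q p0) (newp p q p0) (sh q - pl p0) ∧
    Multiset.IsDershowitzMannaLT (wt (newB B p q p0) (newp p q p0) (sh q - pl p0))
      (wt B p q) := by
  classical
  have hj : 1 ≤ p0.natDegree := by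
    rcases hp0 with h | ⟨i, hi, h⟩
    · rw [h]; exact F.q1
    · rw [h]; exact F.p1 i hi
  have hmem : ∀ j ∈ newB B p q p0, (∃ i ∈ B, newp p q p0 j = sh (p i) - pl p0 ∧ j = Sum.inl i) ∨
      (∃ i ∈ B, newp p q p0 j = pl (p i) - pl p0 ∧ j = Sum.inr (some i)) ∨
      (newp p q p0 j = pl q - pl p0 ∧ j = Sum.inr none) := by
    intro j hj
    have hj' := (mem_filter.1 hj).1
    unfold fullB at hj'
    rcases j with i | (_ | i)
    · left
      exact ⟨i, inl_mem_disjSum.1 hj', rfl, rfl⟩
    · right; right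
      exact ⟨rfl, rfl⟩
    · right; left
      have := inr_mem_disjSum.1 hj'
      exact ⟨i, some_mem_insertNone.1 this, rfl, rfl⟩
  -- the new tracked polynomial
  have hq' : (1 ≤ (sh q - pl p0).natDegree ∧ Ext G (sh q - pl p0).leadingCoeff) ∧
      ∀ j ∈ newB B p q p0, (newp p q p0 j).natDegree ≤ (sh q - pl p0).natDegree := by
    rcases hcase with h | ⟨h, hne⟩ | ⟨h, hall⟩
    · have h1 : (sh q - pl p0).natDegree = q.natDegree := by
        rw [natDegree_sub_eq_left_of_natDegree_lt (by rwa [natDegree_pl, natDegree_sh]),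
          natDegree_sh]
      have h3 : (sh q - pl p0).leadingCoeff = pull Ω q.leadingCoeff := by
        rw [leadingCoeff, h1, coeff_sub, coeff_sh_top _ _ le_rfl,
          coeff_eq_zero_of_natDegree_lt (p := pl p0) (by rwa [natDegree_pl]), sub_zero,
          leadingCoeff]
      refine ⟨⟨by omega, ?_⟩, ?_⟩
      · rw [h3]; exact Or.inl ⟨_, F.qG, rfl⟩
      · intro j hj
        rw [h1]
        rcases hmem j hj with ⟨i, hi, e, -⟩ | ⟨i, hi, e, -⟩ | ⟨e, -⟩ <;> rw [e] <;>
          refine (natDegree_sub_le _ _).trans (max_le ?_ (by rw [natDegree_pl]; exact hminq))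
        · rw [natDegree_sh]; exact F.pd i hi
        · rw [natDegree_pl]; exact F.pd i hi
        · rw [natDegree_pl]
    · have hco : (sh q - pl p0).coeff q.natDegree = pull Ω (q.leadingCoeff - p0.leadingCoeff) := by
        rw [coeff_sub, coeff_sh_top _ _ le_rfl, coeff_pl, map_sub, ← h]
        rw [leadingCoeff, leadingCoeff, h]
      have hne' : (sh q - pl p0).coeff q.natDegree ≠ 0 := by
        rw [hco]
        intro h0
        have := pull_inj (h0.trans (map_zero (pull Ω)).symm)
        exact hne (sub_eq_zero.1 this).symm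
      have hle : (sh q - pl p0).natDegree ≤ q.natDegree :=
        (natDegree_sub_le _ _).trans (max_le (by rw [natDegree_sh]) (by rw [natDegree_pl, h]))
      obtain ⟨h3, h4⟩ := natDegree_lc_of _ _ hle hne'
      refine ⟨⟨by omega, ?_⟩, ?_⟩
      · rw [h4, hco]
        left
        refine ⟨q.leadingCoeff - p0.leadingCoeff, ?_, rfl⟩
        rcases hp0 with h5 | ⟨i, hi, h5⟩
        · exact absurd (by rw [h5]) hne
        · have hco2 : (q - p i).coeff q.natDegree = q.leadingCoeff - p0.leadingCoeff := by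
            rw [coeff_sub, leadingCoeff, leadingCoeff, h, h5]
          have hne2 : (q - p i).coeff q.natDegree ≠ 0 := by
            rw [hco2]
            intro h0
            exact hne (sub_eq_zero.1 h0).symm
          have hle2 : (q - p i).natDegree ≤ q.natDegree :=
            (natDegree_sub_le _ _).trans (max_le le_rfl (F.pd i hi))
          obtain ⟨-, h6⟩ := natDegree_lc_of _ _ hle2 hne2
          rw [← hco2, ← h6]
          exact (F.dG i hi).2
      · intro j hj
        rw [h3]
        rcases hmem j hj with ⟨i, hi, e, -⟩ | ⟨i, hi, e, -⟩ | ⟨e, -⟩ <;> rw [e] <;>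
          refine (natDegree_sub_le _ _).trans (max_le ?_ (by rw [natDegree_pl]; exact hminq))
        · rw [natDegree_sh]; exact F.pd i hi
        · rw [natDegree_pl]; exact F.pd i hi
        · rw [natDegree_pl]
    · subst h
      obtain ⟨h3, h4⟩ := diff_self p0 h2 F.qG
      refine ⟨⟨by omega, h4⟩, ?_⟩
      intro j hj
      rw [h3]
      have key : ∀ (T : Polynomial (Ω × ℕ → ℤ)), T.natDegree ≤ p0.natDegree →
          T.coeff p0.natDegree = pull Ω p0.leadingCoeff →
          (T - pl p0).natDegree ≤ p0.natDegree - 1 := by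
        intro T hT1 hT2
        rw [natDegree_le_iff_coeff_eq_zero]
        intro k hk
        rcases (show p0.natDegree ≤ k by omega).eq_or_lt with h5 | h5
        · rw [← h5, coeff_sub, hT2, coeff_pl, leadingCoeff, sub_self]
        · rw [coeff_sub, coeff_eq_zero_of_natDegree_lt (by omega),
            coeff_eq_zero_of_natDegree_lt (by rw [natDegree_pl]; exact h5), sub_zero]
      rcases hmem j hj with ⟨i, hi, e, -⟩ | ⟨i, hi, e, -⟩ | ⟨e, -⟩ <;> rw [e]
      · have h5 := congrArg Prod.fst (hall i hi)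
        have h6 := congrArg Prod.snd (hall i hi)
        simp only [cl] at h5 h6
        refine key _ (by rw [natDegree_sh, h5]) ?_
        rw [← h5, coeff_sh_top _ _ le_rfl, ← h6, leadingCoeff]
      · have h5 := congrArg Prod.fst (hall i hi)
        have h6 := congrArg Prod.snd (hall i hi)
        simp only [cl] at h5 h6
        refine key _ (by rw [natDegree_pl, h5]) ?_
        rw [← h5, coeff_pl, ← h6, leadingCoeff]
      · rw [sub_self]; simp
  refine ⟨⟨hq'.1.1, hq'.1.2, fun j hj => (mem_filter.1 hj).2, hq'.2, ?_⟩, ?_⟩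
  · intro j hj
    rcases hmem j hj with ⟨i, hi, e, -⟩ | ⟨i, hi, e, -⟩ | ⟨e, -⟩ <;> rw [e]
    · have : sh q - pl p0 - (sh (p i) - pl p0) = sh (q - p i) := by rw [sh_sub]; ring
      rw [this, natDegree_sh, leadingCoeff_sh]
      exact ⟨(F.dG i hi).1, Or.inl ⟨_, (F.dG i hi).2, rfl⟩⟩
    · have : sh q - pl p0 - (pl (p i) - pl p0) = sh q - pl (p i) := by ring
      rw [this]
      exact diff_some q (p i) h2 F.qG (F.pd i hi) (F.dG i hi).1 (F.dG i hi).2
    · have : sh q - pl p0 - (pl q - pl p0) = sh q - pl q := by ring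
      rw [this]
      obtain ⟨h3, h4⟩ := diff_self q h2 F.qG
      exact ⟨by omega, h4⟩
  · -- the weight decreases
    set K := Kset B p q with hK
    set K' := Kset (newB B p q p0) (newp p q p0) (sh q - pl p0) with hK'
    set j₀ := p0.natDegree with hj₀
    have hc0 : cl p0 ∈ K := by
      rw [hK]; unfold Kset
      rcases hp0 with h | ⟨i, hi, h⟩
      · rw [h]; exact mem_insert_self _ _
      · rw [h]; exact mem_insert_of_mem (mem_image_of_mem _ hi)
    have hsub : K'.filter (fun x => j₀ ≤ x.1) ⊆ (K.erase (cl p0)).image (psi j₀ p0.leadingCoeff) := by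
      intro x hx
      obtain ⟨hx1, hx2⟩ := mem_filter.1 hx
      have key : ∀ (T : Polynomial (Ω × ℕ → ℤ)) (P : Polynomial (Ω → ℤ)), cl P ∈ K →
          T.natDegree = P.natDegree → T.leadingCoeff = pull Ω P.leadingCoeff →
          j₀ ≤ P.natDegree → x = cl (T - pl p0) →
          x ∈ (K.erase (cl p0)).image (psi j₀ p0.leadingCoeff) := by
        intro T P hP h3 h4 h5 h6
        have h7 : j₀ ≤ (T - pl p0).natDegree := by
          rw [h6] at hx2; exact hx2
        obtain ⟨h8, h9⟩ := class_lemma T P p0 h3 h4 hj h5 h7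
        rw [h6, h8]
        exact mem_image_of_mem _ (mem_erase.2 ⟨h9, hP⟩)
      have hqK : cl q ∈ K := by rw [hK]; exact mem_insert_self _ _
      have hpK : ∀ i ∈ B, cl (p i) ∈ K := fun i hi => by
        rw [hK]; exact mem_insert_of_mem (mem_image_of_mem _ hi)
      have hlcpl : ∀ P : Polynomial (Ω → ℤ), (pl P).leadingCoeff = pull Ω P.leadingCoeff :=
        fun P => by rw [leadingCoeff, natDegree_pl, coeff_pl, leadingCoeff]
      rcases mem_insert.1 hx1 with h | h
      · exact key (sh q) q hqK (natDegree_sh q) (leadingCoeff_sh q) hminq h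
      · obtain ⟨j, hj, rfl⟩ := mem_image.1 h
        rcases hmem j hj with ⟨i, hi, e, -⟩ | ⟨i, hi, e, -⟩ | ⟨e, -⟩
        · exact key (sh (p i)) (p i) (hpK i hi) (natDegree_sh _) (leadingCoeff_sh _) (hmin i hi)
            (by simp only [e])
        · exact key (pl (p i)) (p i) (hpK i hi) (natDegree_pl _) (hlcpl _) (hmin i hi)
            (by simp only [e])
        · exact key (pl q) q hqK (natDegree_pl _) (hlcpl _) hminq (by simp only [e])
    set Xm := (K'.filter (fun x => j₀ ≤ x.1)).val.map Prod.fst with hXm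
    set Ym := (K'.filter (fun x => ¬ j₀ ≤ x.1)).val.map Prod.fst with hYm
    have hX : Xm ≤ (K.erase (cl p0)).val.map Prod.fst := by
      have e1 : Xm ≤ ((K.erase (cl p0)).image (psi j₀ p0.leadingCoeff)).val.map Prod.fst :=
        Multiset.map_le_map (Finset.val_le_iff.2 hsub)
      exact e1.trans (map_image_le _ _ _ _ fun a _ => rfl)
    obtain ⟨Z, hZ⟩ := Multiset.le_iff_exists_add.1 hX
    refine ⟨Xm, Ym, j₀ ::ₘ Z, by simp, ?_, ?_, ?_⟩
    · unfold wt
      rw [← hK', hXm, hYm, Finset.filter_val, Finset.filter_val, ← Multiset.map_add,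
        Multiset.filter_add_not]
    · unfold wt
      rw [← hK]
      have : K.val = cl p0 ::ₘ (K.erase (cl p0)).val := by
        rw [Finset.erase_val]
        exact (Multiset.cons_erase hc0).symm
      rw [this, Multiset.map_cons, hZ]
      simp [cl, hj₀]
    · intro y hy
      refine ⟨j₀, Multiset.mem_cons_self _ _, ?_⟩
      rw [hYm] at hy
      obtain ⟨x, hx, rfl⟩ := Multiset.mem_map.1 hy
      have := (mem_filter.1 (show x ∈ K'.filter (fun x => ¬ j₀ ≤ x.1) from hx)).2
      omega

/-- A suitable pivot exists. -/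
theorem step_exists {G : (Ω → ℤ) → Prop} {ι : Type} {B : Finset ι}
    {p : ι → Polynomial (Ω → ℤ)} {q : Polynomial (Ω → ℤ)} (F : Fam G B p q)
    (h2 : 2 ≤ q.natDegree) : ∃ p0 : Polynomial (Ω → ℤ),
    Fam (Ext G) (newB B p q p0) (newp p q p0) (sh q - pl p0) ∧
    Multiset.IsDershowitzMannaLT (wt (newB B p q p0) (newp p q p0) (sh q - pl p0))
      (wt B p q) := by
  by_cases hA : ∃ i ∈ B, (p i).natDegree < q.natDegree
  · obtain ⟨i, hi, hlt⟩ := hA
    obtain ⟨i0, hi0, hmin⟩ := exists_min_image B (fun i => (p i).natDegree) ⟨i, hi⟩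
    have := hmin i hi
    exact ⟨p i0, step_core F h2 (p i0) (Or.inr ⟨i0, hi0, rfl⟩) hmin (by omega)
      (Or.inl (by omega))⟩
  · push Not at hA
    have hall : ∀ i ∈ B, (p i).natDegree = q.natDegree := fun i hi =>
      le_antisymm (F.pd i hi) (hA i hi)
    by_cases hB : ∃ i ∈ B, (p i).leadingCoeff ≠ q.leadingCoeff
    · obtain ⟨i0, hi0, hne⟩ := hB
      exact ⟨p i0, step_core F h2 (p i0) (Or.inr ⟨i0, hi0, rfl⟩)
        (fun i hi => by rw [hall i hi, hall i0 hi0]) (by rw [hall i0 hi0])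
        (Or.inr (Or.inl ⟨hall i0 hi0, hne⟩))⟩
    · push Not at hB
      exact ⟨q, step_core F h2 q (Or.inl rfl) (fun i hi => by rw [hall i hi]) le_rfl
        (Or.inr (Or.inr ⟨rfl, fun i hi => by unfold cl; rw [hall i hi, hB i hi]⟩))⟩

end alg

end Pool.Agent.JE
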