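import Pool.Agent.Helper65.JE.Kit

/-! The van der Corput step for families of iterates (MP_ce5406_an). -/

open MeasureTheory Filter Topology Finset
open scoped BigOperators ComplexConjugate

namespace Pool.Agent.JE

variable {X : Type} [MeasurableSpace X] {μ : Measure X}

/-- The `L²` norm of a weighted average of products of iterates. -/
noncomputable def JJ (A : Act X μ) (N : ℕ) (z : ℕ → ℂ) {ι : Type} (B : Finset ι)
    (a : ι → ℕ → ℤ) (g : ι → X → ℂ) (b : ℕ → ℤ) (f : X → ℂ) : ℝ :=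
  n2 μ (fun x => avg N (fun s => z s * f (A.S (b s) x) * ∏ i ∈ B, g i (A.S (a i s) x)))

theorem bdd_term (A : Act X μ) {z : ℕ → ℂ} (hz : ∀ s, ‖z s‖ ≤ 1) {ι : Type} (B : Finset ι)
    (a : ι → ℕ → ℤ) {g : ι → X → ℂ} (hg : ∀ i, Bdd (g i)) (b : ℕ → ℤ) {f : X → ℂ} (hf : Bdd f)
    (s : ℕ) : Bdd (fun x => z s * f (A.S (b s) x) * ∏ i ∈ B, g i (A.S (a i s) x)) :=
  ((hf.comp A _).smul (hz s)).mul (Bdd.prod _ _ fun i _ => (hg i).comp A _)

theorem JJ_nonneg (A : Act X μ) (N : ℕ) (z : ℕ → ℂ) {ι : Type} (B : Finset ι)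
    (a : ι → ℕ → ℤ) (g : ι → X → ℂ) (b : ℕ → ℤ) (f : X → ℂ) : 0 ≤ JJ A N z B a g b f :=
  n2_nonneg _

theorem JJ_le_one [IsProbabilityMeasure μ] (A : Act X μ) (N : ℕ) {z : ℕ → ℂ}
    (hz : ∀ s, ‖z s‖ ≤ 1) {ι : Type} (B : Finset ι)
    (a : ι → ℕ → ℤ) {g : ι → X → ℂ} (hg : ∀ i, Bdd (g i)) (b : ℕ → ℤ) {f : X → ℂ} (hf : Bdd f) :
    JJ A N z B a g b f ≤ 1 :=
  n2_le_one (Bdd.avg N _ fun s => bdd_term A hz B a hg b hf s).le

/-- Functions whose exponent does not depend on `s` can be dropped. -/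
theorem JJ_drop [IsProbabilityMeasure μ] (A : Act X μ) (N : ℕ) {z : ℕ → ℂ}
    (hz : ∀ s, ‖z s‖ ≤ 1) {ι : Type} (B B' : Finset ι) (hBB' : B' ⊆ B)
    (a : ι → ℕ → ℤ) {g : ι → X → ℂ} (hg : ∀ i, Bdd (g i)) (b : ℕ → ℤ) {f : X → ℂ} (hf : Bdd f)
    (hconst : ∀ i ∈ B, i ∉ B' → ∀ s, a i s = a i 0) :
    JJ A N z B a g b f ≤ JJ A N z B' a g b f := by
  classical
  unfold JJ
  have e1 : (fun x => avg N (fun s => z s * f (A.S (b s) x) * ∏ i ∈ B, g i (A.S (a i s) x))) =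
      fun x => (∏ i ∈ B \ B', g i (A.S (a i 0) x)) *
        avg N (fun s => z s * f (A.S (b s) x) * ∏ i ∈ B', g i (A.S (a i s) x)) := by
    ext x
    rw [← avg_mul]
    congr 1
    ext s
    rw [← prod_sdiff hBB']
    have : ∏ i ∈ B \ B', g i (A.S (a i s) x) = ∏ i ∈ B \ B', g i (A.S (a i 0) x) := by
      refine prod_congr rfl fun i hi => ?_
      rw [hconst i (mem_sdiff.1 hi).1 (mem_sdiff.1 hi).2 s]
    rw [this]
    ring
  rw [e1]
  refine n2_mul_le (F := fun x => ∏ i ∈ B \ B', g i (A.S (a i 0) x)) ?_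
    (Bdd.avg N _ fun s => bdd_term A hz B' a hg b hf s).bm
  exact (Bdd.prod (B \ B') (fun i x => g i (A.S (a i 0) x)) fun i _ => (hg i).comp A _).le

/-- New exponents. -/
def newa {ι : Type} (a : ι → ℕ → ℤ) (b a0 : ℕ → ℤ) (h : ℕ) : ι ⊕ Option ι → ℕ → ℤ
  | Sum.inl i => fun s => a i (s + h) - a0 s
  | Sum.inr (some i) => fun s => a i s - a0 s
  | Sum.inr none => fun s => b s - a0 s

/-- New functions. -/
noncomputable def newg {ι : Type} (g : ι → X → ℂ) (f : X → ℂ) : ι ⊕ Option ι → X → ℂ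
  | Sum.inl i => g i
  | Sum.inr (some i) => fun x => conj (g i x)
  | Sum.inr none => fun x => conj (f x)

theorem newg_bdd {ι : Type} {g : ι → X → ℂ} (hg : ∀ i, Bdd (g i)) {f : X → ℂ} (hf : Bdd f)
    (j : ι ⊕ Option ι) : Bdd (newg g f j) := by
  rcases j with i | (_ | i)
  · exact hg i
  · exact hf.conj
  · exact (hg i).conj

/-- The full new index set. -/
def fullB {ι : Type} (B : Finset ι) : Finset (ι ⊕ Option ι) := B.disjSum (insertNone B)

/-- The van der Corput step. -/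
theorem JJ_step [IsProbabilityMeasure μ] (A : Act X μ) (N H : ℕ) (hN : 1 ≤ N) (hH : 1 ≤ H)
    {z : ℕ → ℂ} (hz : ∀ s, ‖z s‖ ≤ 1) {ι : Type} (B : Finset ι)
    (a : ι → ℕ → ℤ) {g : ι → X → ℂ} (hg : ∀ i, Bdd (g i)) (b : ℕ → ℤ) {f : X → ℂ} (hf : Bdd f)
    (a0 : ℕ → ℤ) (B' : Finset (ι ⊕ Option ι)) (hB' : B' ⊆ fullB B)
    (hconst : ∀ j ∈ fullB B, j ∉ B' → ∀ h s, newa a b a0 h j s = newa a b a0 h j 0) :
    JJ A N z B a g b f ^ 2 ≤ 2 * ravg H (fun h => JJ A N (fun s => z (s + h) * conj (z s)) B'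
      (newa a b a0 h) (newg g f) (fun s => b (s + h) - a0 s) f) + 6 * H / N := by
  have hv : ∀ s, Bdd (fun x => z s * f (A.S (b s) x) * ∏ i ∈ B, g i (A.S (a i s) x)) :=
    bdd_term A hz B a hg b hf
  refine (vdc (μ := μ) _ hv H N hH hN).trans ?_
  refine add_le_add_left (mul_le_mul_of_nonneg_left (ravg_mono _ fun h _ => ?_)
    (by norm_num)) _
  have hz' : ∀ s, ‖z (s + h) * conj (z s)‖ ≤ 1 := fun s => by
    rw [norm_mul]
    exact mul_le_one₀ (hz _) (norm_nonneg _) (by simpa using hz s)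
  refine le_trans ?_ (JJ_drop A N hz' (fullB B) B' hB' (newa a b a0 h) (newg_bdd hg hf)
    (fun s => b (s + h) - a0 s) hf (fun j hj hj' s => hconst j hj hj' h s))
  unfold JJ
  have hbd := bdd_term A hz' (fullB B) (newa a b a0 h) (newg_bdd hg hf)
    (fun s => b (s + h) - a0 s) hf
  refine le_trans (le_of_eq ?_) (norm_integral_le_n2 (Bdd.avg N _ hbd).bm)
  congr 1
  rw [integral_avg N _ fun s => (hbd s).bm]
  congr 1
  ext s
  have hm : Measurable (fun x => z (s + h) * f (A.S (b (s + h)) x) *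
      (∏ i ∈ B, g i (A.S (a i (s + h)) x)) *
      conj (z s * f (A.S (b s) x) * ∏ i ∈ B, g i (A.S (a i s) x))) :=
    ((hv (s + h)).mul (hv s).conj).meas
  rw [← integral_comp A hm (-a0 s)]
  congr 1
  ext x
  have hS : ∀ k, A.S k (A.S (-a0 s) x) = A.S (k - a0 s) x := fun k => by
    rw [← A.add, sub_eq_add_neg]
  simp only [hS]
  unfold fullB
  rw [prod_disjSum, prod_insertNone]
  simp only [newa, newg, map_mul, map_prod]
  ring

end Pool.Agent.JE
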